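import Mathlib

/-!
# Reduction of KLS to near-Euclidean bodies: one dimensional lemmas
-/

set_option autoImplicit false

namespace Pool.Agent.T2h28.NB

open MeasureTheory Set Filter Topology
open scoped ENNReal InnerProductSpace

/-- Euclidean space of dimension `n` -/
abbrev Euc (n : ℕ) : Type := EuclideanSpace ℝ (Fin n)

/-- uniform probability measure on `K` -/
noncomputable def unif {n : ℕ} (K : Set (Euc n)) : Measure (Euc n) :=
  (volume K)⁻¹ • volume.restrict K

/-- Minkowski (exterior) boundary measure -/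
noncomputable def bdry {X : Type*} [PseudoEMetricSpace X] [MeasurableSpace X] (μ : Measure X)
    (A : Set X) : ℝ≥0∞ :=
  liminf (fun ε : ℝ => (μ (Metric.thickening ε A) - μ A) / ENNReal.ofReal ε) (𝓝[>] 0)

/-- lower bound for the boundary measure in real numbers -/
def Low {X : Type*} [PseudoEMetricSpace X] [MeasurableSpace X] (μ : Measure X)
    (A : Set X) (κ : ℝ) : Prop :=
  ∀ κ' < κ, ∀ᶠ ε : ℝ in 𝓝[>] 0, κ' * ε ≤ μ.real (Metric.thickening ε A) - μ.real A

theorem Low.mono {X : Type*} [PseudoEMetricSpace X] [MeasurableSpace X] {μ : Measure X}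
    {A : Set X} {κ κ₁ : ℝ} (h : Low μ A κ) (h1 : κ₁ ≤ κ) : Low μ A κ₁ :=
  fun κ' hκ => h κ' (hκ.trans_le h1)

theorem low_of_bdry {X : Type*} [PseudoEMetricSpace X] [MeasurableSpace X] {μ : Measure X}
    [IsFiniteMeasure μ] {A : Set X} {κ : ℝ} (h : ENNReal.ofReal κ ≤ bdry μ A) : Low μ A κ := by
  intro κ' hκ
  by_cases h0 : κ' < 0
  · filter_upwards [self_mem_nhdsWithin] with ε hε
    have hε' : (0 : ℝ) < ε := hε
    have h1 : μ.real A ≤ μ.real (Metric.thickening ε A) :=
      measureReal_mono (Metric.self_subset_thickening hε' A) (measure_ne_top _ _)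
    have h2 : κ' * ε ≤ 0 := mul_nonpos_of_nonpos_of_nonneg h0.le hε'.le
    linarith
  · rw [not_lt] at h0
    have h1 : ENNReal.ofReal κ' < bdry μ A :=
      ((ENNReal.ofReal_lt_ofReal_iff (h0.trans_lt hκ)).2 hκ).trans_le h
    have h2 := eventually_lt_of_lt_liminf h1
    filter_upwards [h2, self_mem_nhdsWithin] with ε h3 hε
    have hε' : (0 : ℝ) < ε := hε
    have hsub : A ⊆ Metric.thickening ε A := Metric.self_subset_thickening hε' A
    have h4 : ENNReal.ofReal κ' * ENNReal.ofReal ε ≤ μ (Metric.thickening ε A) - μ A := by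
      have := (ENNReal.lt_div_iff_mul_lt (Or.inl (by simpa using hε')) (Or.inl ENNReal.ofReal_ne_top)).1 h3
      exact this.le
    have h5 := ENNReal.toReal_mono (by
      exact ne_top_of_le_ne_top (measure_ne_top μ (Metric.thickening ε A)) tsub_le_self) h4
    rw [ENNReal.toReal_mul, ENNReal.toReal_ofReal h0, ENNReal.toReal_ofReal hε'.le,
      ENNReal.toReal_sub_of_le (measure_mono hsub) (measure_ne_top _ _)] at h5
    exact h5

theorem bdry_of_low {X : Type*} [PseudoEMetricSpace X] [MeasurableSpace X] {μ : Measure X}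
    [IsFiniteMeasure μ] {A : Set X} {κ : ℝ} (h : Low μ A κ) : ENNReal.ofReal κ ≤ bdry μ A := by
  refine le_of_forall_lt fun y hy => ?_
  have hyt : y ≠ ∞ := (hy.trans ENNReal.ofReal_lt_top).ne
  obtain ⟨κ', h1, h2⟩ : ∃ κ' : ℝ, y < ENNReal.ofReal κ' ∧ κ' < κ := by
    obtain ⟨q, hq, h1, h2⟩ := ENNReal.lt_iff_exists_real_btwn.1 hy
    refine ⟨q, h1, ?_⟩
    exact (ENNReal.ofReal_lt_ofReal_iff_of_nonneg hq).1 h2
  refine h1.trans_le ?_
  refine le_liminf_of_le (by isBoundedDefault) ?_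
  filter_upwards [h κ' h2, self_mem_nhdsWithin] with ε h3 hε
  have hε' : (0 : ℝ) < ε := hε
  have hsub : A ⊆ Metric.thickening ε A := Metric.self_subset_thickening hε' A
  rw [ENNReal.le_div_iff_mul_le (Or.inl (by simpa using hε')) (Or.inl ENNReal.ofReal_ne_top),
    ← ENNReal.ofReal_mul' hε'.le]
  refine ENNReal.ofReal_le_of_le_toReal ?_
  rw [ENNReal.toReal_sub_of_le (measure_mono hsub) (measure_ne_top _ _)]
  exact h3

/-- a nondecreasing function with lower right derivatives at least `κ` grows at least linearly -/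
theorem dini {φ : ℝ → ℝ} {ε κ : ℝ} (hε : 0 ≤ ε) (hφ : ∀ r s, 0 ≤ r → r ≤ s → s ≤ ε → φ r ≤ φ s)
    (h : ∀ r, 0 ≤ r → r < ε → ∀ κ' < κ, ∀ᶠ η : ℝ in 𝓝[>] 0, κ' * η ≤ φ (r + η) - φ r) :
    κ * ε ≤ φ ε - φ 0 := by
  have key : ∀ κ' < κ, κ' * ε ≤ φ ε - φ 0 := by
    intro κ' hκ
    let S : Set ℝ := {r | 0 ≤ r ∧ r ≤ ε ∧ κ' * r ≤ φ r - φ 0}
    have h0 : (0 : ℝ) ∈ S := ⟨le_rfl, hε, by simp⟩
    have hbd : BddAbove S := ⟨ε, fun r hr => hr.2.1⟩
    have hs0 : 0 ≤ sSup S := le_csSup hbd h0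
    have hsε : sSup S ≤ ε := csSup_le ⟨0, h0⟩ fun r hr => hr.2.1
    have hmem : κ' * sSup S ≤ φ (sSup S) - φ 0 := by
      refine le_of_forall_pos_le_add fun δ hδ => ?_
      obtain ⟨r, hr, hrs⟩ := exists_lt_of_lt_csSup ⟨0, h0⟩
        (show sSup S - δ / (|κ'| + 1) < sSup S by
          have : 0 < δ / (|κ'| + 1) := by positivity
          linarith)
      have hle : r ≤ sSup S := le_csSup hbd hr
      have h1 := hφ r (sSup S) hr.1 hle hsε
      have h2 : κ' * (sSup S - r) ≤ δ := by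
        have h3 : |κ'| * (δ / (|κ'| + 1)) ≤ δ := by
          rw [← mul_div_assoc, div_le_iff₀ (by positivity)]
          nlinarith [abs_nonneg κ']
        calc κ' * (sSup S - r) ≤ |κ'| * (sSup S - r) :=
              mul_le_mul_of_nonneg_right (le_abs_self _) (by linarith)
          _ ≤ |κ'| * (δ / (|κ'| + 1)) := mul_le_mul_of_nonneg_left (by linarith) (abs_nonneg _)
          _ ≤ δ := h3
      have h3 := hr.2.2
      nlinarith
    rcases eq_or_lt_of_le hsε with he | hlt
    · rw [he] at hmem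
      exact hmem
    · exfalso
      have h1 := h (sSup S) hs0 hlt κ' hκ
      have h2 : ∀ᶠ η : ℝ in 𝓝[>] 0, η < ε - sSup S := by
        have : Iio (ε - sSup S) ∈ 𝓝 (0 : ℝ) := Iio_mem_nhds (by linarith)
        exact mem_nhdsWithin_of_mem_nhds this
      obtain ⟨η, h3, h4, h5⟩ := (h1.and (h2.and self_mem_nhdsWithin)).exists
      have h5' : (0 : ℝ) < η := h5
      have : sSup S + η ∈ S := ⟨by linarith, by linarith, by
        have : κ' * (sSup S + η) = κ' * sSup S + κ' * η := by ring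
        rw [this]
        linarith⟩
      have := le_csSup hbd this
      linarith
  refine le_of_forall_pos_le_add fun δ hδ => ?_
  have h1 := key (κ - δ / (ε + 1)) (by
    have : 0 < δ / (ε + 1) := by positivity
    linarith)
  have h3 : δ / (ε + 1) * ε ≤ δ := by
    rw [div_mul_eq_mul_div, div_le_iff₀ (by positivity)]
    nlinarith
  nlinarith

end Pool.Agent.T2h28.NB
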