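import Pool.Agent.T2h28.NB.Rnd

/-!
# Bodies whose supporting hyperplanes touch them near the foot of the perpendicular: the deficit
-/

set_option autoImplicit false

namespace Pool.Agent.T2h28.NB

open MeasureTheory Set Filter Topology
open scoped ENNReal InnerProductSpace Pointwise

variable {n : ℕ} {K : Set (Euc n)}

theorem exists_perp (hn : 2 ≤ n) {θ : Euc n} (_hθ : ‖θ‖ = 1) : ∃ η : Euc n, ‖η‖ = 1 ∧ ⟪θ, η⟫_ℝ = 0 := by
  have h1 : (ℝ ∙ θ)ᗮ ≠ ⊥ := by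
    intro hb
    rw [Submodule.orthogonal_eq_bot_iff] at hb
    have h2 := finrank_span_le_card (R := ℝ) ({θ} : Set (Euc n))
    rw [hb, finrank_top] at h2
    simp at h2
    omega
  obtain ⟨v, hv, hv0⟩ := Submodule.exists_mem_ne_zero_of_ne_bot h1
  have hn0 : 0 < ‖v‖ := norm_pos_iff.2 hv0
  refine ⟨‖v‖⁻¹ • v, by rw [norm_smul, norm_inv, norm_norm, inv_mul_cancel₀ hn0.ne'], ?_⟩
  rw [inner_smul_right, Submodule.mem_orthogonal_singleton_iff_inner_right.1 hv, mul_zero]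

/-- two directions on a great circle -/
theorem exists_circle (hn : 2 ≤ n) {θ θ' : Euc n} (hθ : ‖θ‖ = 1) (hθ' : ‖θ'‖ = 1) :
    ∃ (η : Euc n) (φ : ℝ), ‖η‖ = 1 ∧ ⟪θ, η⟫_ℝ = 0 ∧ 0 ≤ φ ∧ φ ≤ Real.pi ∧
      θ' = Real.cos φ • θ + Real.sin φ • η := by
  obtain ⟨c, hc⟩ : ∃ c : ℝ, c = ⟪θ, θ'⟫_ℝ := ⟨_, rfl⟩
  have hθ2 : ⟪θ, θ⟫_ℝ = 1 := by rw [real_inner_self_eq_norm_sq, hθ, one_pow]
  have hc1 : |c| ≤ 1 := by
    rw [hc]
    refine (abs_real_inner_le_norm _ _).trans ?_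
    rw [hθ, hθ', one_mul]
  have hc2 := abs_le.1 hc1
  have hwn : ‖θ' - c • θ‖ ^ 2 = 1 - c ^ 2 := by
    rw [← real_inner_self_eq_norm_sq, inner_sub_left, inner_sub_right, inner_sub_right,
      inner_smul_left, inner_smul_right, inner_smul_right, inner_smul_left, hθ2,
      real_inner_comm θ θ', ← hc, real_inner_self_eq_norm_sq, hθ']
    simp only [conj_trivial]
    ring
  have hsin : Real.sin (Real.arccos c) = ‖θ' - c • θ‖ := by
    rw [Real.sin_arccos, ← hwn, Real.sqrt_sq (norm_nonneg _)]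
  have hcos : Real.cos (Real.arccos c) = c := Real.cos_arccos hc2.1 hc2.2
  by_cases hw : θ' - c • θ = 0
  · obtain ⟨η, hη, hη'⟩ := exists_perp hn hθ
    refine ⟨η, Real.arccos c, hη, hη', Real.arccos_nonneg _, Real.arccos_le_pi _, ?_⟩
    rw [hsin, hcos, hw, norm_zero, zero_smul, add_zero]
    exact sub_eq_zero.1 hw
  · have hn0 : 0 < ‖θ' - c • θ‖ := norm_pos_iff.2 hw
    refine ⟨‖θ' - c • θ‖⁻¹ • (θ' - c • θ), Real.arccos c, ?_, ?_, Real.arccos_nonneg _,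
      Real.arccos_le_pi _, ?_⟩
    · rw [norm_smul, norm_inv, norm_norm, inv_mul_cancel₀ hn0.ne']
    · rw [inner_smul_right, inner_sub_right, inner_smul_right, hθ2, ← hc]
      ring
    · rw [hsin, hcos, smul_smul, mul_inv_cancel₀ hn0.ne', one_smul]
      abel

/-- the support function is nearly constant -/
theorem supp_ratio (hn : 2 ≤ n) (h : Body K) (h0 : (0 : Euc n) ∈ interior K) {δ ε : ℝ}
    (hε : 0 < ε) (hε1 : ε ≤ 1 / 10) (hεδ : ε ^ 2 = 2 * δ + δ ^ 2) (hK : RC δ K) {θ θ' y y' : Euc n}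
    (hθ : ‖θ‖ = 1) (hθ' : ‖θ'‖ = 1) (hyK : y ∈ K) (hy : ∀ z ∈ K, ⟪θ, z⟫_ℝ ≤ ⟪θ, y⟫_ℝ)
    (hyK' : y' ∈ K) (hy' : ∀ z ∈ K, ⟪θ', z⟫_ℝ ≤ ⟪θ', y'⟫_ℝ) :
    ⟪θ, y⟫_ℝ * (1 - 5 * ε) ≤ ⟪θ', y'⟫_ℝ := by
  obtain ⟨η, φ, hη, hθη, hφ0, hφπ, hφ⟩ := exists_circle hn hθ hθ'
  choose Y hYK hYs using exists_supp h
  let γ : ℝ → Euc n := fun t => Real.cos t • θ + Real.sin t • η
  have hθ2 : ⟪θ, θ⟫_ℝ = 1 := by rw [real_inner_self_eq_norm_sq, hθ, one_pow]
  have hη2 : ⟪η, η⟫_ℝ = 1 := by rw [real_inner_self_eq_norm_sq, hη, one_pow]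
  have hγ : ∀ s t, ⟪γ s, γ t⟫_ℝ = Real.cos (s - t) := by
    intro s t
    show ⟪Real.cos s • θ + Real.sin s • η, Real.cos t • θ + Real.sin t • η⟫_ℝ = _
    rw [inner_add_left, inner_add_right, inner_add_right, inner_smul_left, inner_smul_left,
      inner_smul_left, inner_smul_left, inner_smul_right, inner_smul_right, inner_smul_right,
      inner_smul_right, hθ2, hη2, hθη, real_inner_comm θ η, hθη, Real.cos_sub]
    simp only [conj_trivial]
    ring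
  have hγ1 : ∀ t, ‖γ t‖ = 1 := by
    intro t
    have h1 := hγ t t
    rw [sub_self, Real.cos_zero, real_inner_self_eq_norm_sq] at h1
    exact (pow_eq_one_iff_of_nonneg (norm_nonneg _) two_ne_zero).1 h1
  obtain ⟨H, hH⟩ : ∃ H : ℝ → ℝ, ∀ t, H t = ⟪γ t, Y (γ t)⟫_ℝ := ⟨_, fun _ => rfl⟩
  have hHpos : ∀ t, 0 < H t := by
    intro t
    rw [hH]
    exact supp_pos h0 (hγ1 t) (hYs _)
  have hsq : Real.sqrt (2 * δ + δ ^ 2) = ε := by rw [← hεδ, Real.sqrt_sq hε.le]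
  have hstep : ∀ t τ, 0 ≤ τ → τ ≤ ε → H t * (1 - 3 / 2 * ε * τ) ≤ H (t + τ) := by
    intro t τ hτ0 hτε
    have h1 := supp_step h0 hK (hγ1 t) (hγ1 (t + τ)) (hYK _) (hYs _) (hYs (γ (t + τ)))
    rw [← hH, ← hH, hγ, hsq] at h1
    have h2 : t - (t + τ) = -τ := by ring
    rw [h2, Real.cos_neg] at h1
    refine le_trans (mul_le_mul_of_nonneg_left ?_ (hHpos t).le) h1
    have h3 : Real.sqrt (1 - Real.cos τ ^ 2) ≤ τ := by
      have h4 : 1 - Real.cos τ ^ 2 = Real.sin τ ^ 2 := by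
        have := Real.sin_sq_add_cos_sq τ
        linarith
      rw [h4, Real.sqrt_sq_eq_abs]
      rw [abs_of_nonneg (Real.sin_nonneg_of_nonneg_of_le_pi hτ0 (by
        have := Real.pi_gt_three
        linarith))]
      exact Real.sin_le hτ0
    have h4 := Real.one_sub_sq_div_two_le_cos (x := τ)
    have h5 : ε * Real.sqrt (1 - Real.cos τ ^ 2) ≤ ε * τ := mul_le_mul_of_nonneg_left h3 hε.le
    nlinarith
  obtain ⟨k, hk⟩ : ∃ k : ℕ, k = ⌈φ / ε⌉₊ + 1 := ⟨_, rfl⟩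
  have hk0 : (0 : ℝ) < k := by
    have : 0 < k := by omega
    exact_mod_cast this
  have hkφ : φ / k ≤ ε := by
    rw [div_le_iff₀ hk0]
    have h1 := Nat.le_ceil (φ / ε)
    have h2 : φ / ε ≤ k := h1.trans (by exact_mod_cast (by omega : ⌈φ / ε⌉₊ ≤ k))
    rw [div_le_iff₀ hε] at h2
    linarith
  have hτ0 : 0 ≤ φ / k := by positivity
  have hfac : 0 ≤ 1 - 3 / 2 * ε * (φ / k) := by
    have : ε * (φ / k) ≤ ε * ε := mul_le_mul_of_nonneg_left hkφ hε.le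
    nlinarith
  have hind : ∀ j : ℕ, H 0 * (1 - 3 / 2 * ε * (φ / k)) ^ j ≤ H (j * (φ / k)) := by
    intro j
    induction j with
    | zero => simp
    | succ j ih =>
      have h1 := hstep (j * (φ / k)) (φ / k) hτ0 hkφ
      have h2 : (j : ℝ) * (φ / k) + φ / k = (j + 1 : ℕ) * (φ / k) := by
        push_cast
        ring
      rw [h2] at h1
      refine le_trans ?_ h1
      rw [pow_succ, ← mul_assoc]
      exact mul_le_mul_of_nonneg_right ih hfac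
  have h1 := hind k
  have h2 : (k : ℝ) * (φ / k) = φ := by field_simp
  rw [h2] at h1
  have h3 : 1 - 5 * ε ≤ (1 - 3 / 2 * ε * (φ / k)) ^ k := by
    have h4 := one_add_mul_le_pow (a := -(3 / 2 * ε * (φ / k))) (by nlinarith) k
    have h5 : (k : ℝ) * -(3 / 2 * ε * (φ / k)) = -(3 / 2 * ε * φ) := by field_simp
    rw [h5] at h4
    have h6 : 3 / 2 * ε * φ ≤ 5 * ε := by
      have h7 : φ ≤ 10 / 3 := hφπ.trans (by have := Real.pi_lt_d2; linarith)
      nlinarith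
    have h8 : (1 + -(3 / 2 * ε * (φ / k))) = 1 - 3 / 2 * ε * (φ / k) := by ring
    rw [h8] at h4
    linarith
  have h4 : H 0 * (1 - 5 * ε) ≤ H φ := (mul_le_mul_of_nonneg_left h3 (hHpos 0).le).trans h1
  have hγ0 : γ 0 = θ := by
    show Real.cos 0 • θ + Real.sin 0 • η = θ
    rw [Real.cos_zero, Real.sin_zero, one_smul, zero_smul, add_zero]
  have e1 : H 0 = ⟪θ, y⟫_ℝ := by
    rw [hH, hγ0]
    exact le_antisymm (hy _ (hYK _)) (hYs θ y hyK)
  have e2 : H φ = ⟪θ', y'⟫_ℝ := by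
    have hγφ : γ φ = θ' := hφ.symm
    rw [hH, hγφ]
    exact le_antisymm (hy' _ (hYK _)) (hYs θ' y' hyK')
  rw [e1, e2] at h4
  exact h4

/-- the Brunn-Minkowski deficit of the body and a ball -/
theorem deficit_round (hn : 2 ≤ n) (h : Body K) (h0 : (0 : Euc n) ∈ interior K) {δ ε : ℝ}
    (hδ : 0 ≤ δ) (hε : 0 < ε) (hε1 : ε ≤ 1 / 10) (hεδ : ε ^ 2 = 2 * δ + δ ^ 2) (hK : RC δ K) :
    ∃ s : ℝ, 0 < s ∧ volume ((1 / 2 : ℝ) • (Metric.closedBall (0 : Euc n) s + K)) ^ 2 ≤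
      ENNReal.ofReal ((1 + 27 * ε ^ 2) ^ n) *
        (volume (Metric.closedBall (0 : Euc n) s) * volume K) := by
  choose Y hYK hYs using exists_supp h
  have hθ₀ : ∃ θ₀ : Euc n, ‖θ₀‖ = 1 := by
    have : Nonempty (Fin n) := ⟨⟨0, by omega⟩⟩
    have : Nontrivial (Euc n) := inferInstance
    exact exists_norm_eq (Euc n) zero_le_one
  obtain ⟨θ₀, hθ₀⟩ := hθ₀
  obtain ⟨s, hs⟩ : ∃ s : ℝ, s = ⟪θ₀, Y θ₀⟫_ℝ := ⟨_, rfl⟩
  have hs0 : 0 < s := by rw [hs]; exact supp_pos h0 hθ₀ (hYs _)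
  have hnorm : ∀ θ : Sph n, ‖(θ : Euc n)‖ = 1 := fun θ => by
    have := θ.2
    rwa [mem_sphere_zero_iff_norm] at this
  choose g hg0 hgK hgm using fun θ : Sph n => exists_rad h h0 (hnorm θ)
  refine ⟨s, hs0, ?_⟩
  have hcW : IsCompact ((1 / 2 : ℝ) • (Metric.closedBall (0 : Euc n) s + K)) :=
    ((isCompact_closedBall _ _).add h.comp).smul _
  have hl : 0 < Real.sqrt (1 + 27 * ε ^ 2) := Real.sqrt_pos.2 (by positivity)
  have key := star_mean (by omega : 1 ≤ n) hcW.measurableSet h.comp.measurableSet hg0 hs0 hl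
    (fun θ r hr hrW => ?_) (fun θ r hr hrg => ?_) h.real_pos h.lt_top.ne
  · have e1 : Real.sqrt (1 + 27 * ε ^ 2) ^ (2 * n) = (1 + 27 * ε ^ 2) ^ n := by
      rw [pow_mul, Real.sq_sqrt (by positivity)]
    rw [e1, mul_comm (volume K)] at key
    exact key
  · rw [Real.sq_sqrt (by positivity)]
    obtain ⟨H, hH⟩ : ∃ H : ℝ, H = ⟪(θ : Euc n), Y θ⟫_ℝ := ⟨_, rfl⟩
    have hH0 : 0 < H := by rw [hH]; exact supp_pos h0 (hnorm θ) (hYs _)
    have h1 : r ≤ (H + s) / 2 := by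
      obtain ⟨_, ⟨b, hb, a, ha, rfl⟩, hab⟩ := hrW
      have h2 : r = ⟪(θ : Euc n), r • (θ : Euc n)⟫_ℝ := by
        rw [inner_smul_right, real_inner_self_eq_norm_sq, hnorm, one_pow, mul_one]
      have hab' : (1 / 2 : ℝ) • (b + a) = r • (θ : Euc n) := hab
      rw [h2, ← hab', inner_smul_right, inner_add_right]
      have h3 := hYs (θ : Euc n) a ha
      rw [← hH] at h3
      have h4 : ⟪(θ : Euc n), b⟫_ℝ ≤ s := by
        rw [mem_closedBall_zero_iff] at hb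
        refine (real_inner_le_norm _ _).trans ?_
        rw [hnorm, one_mul]
        exact hb
      linarith
    have h2 := supp_le_rad h h0 hδ hK (hnorm θ) (hYK _) (hYs _) (hg0 θ) (hgK θ) (hgm θ)
    rw [← hH, ← hεδ] at h2
    have h3 := supp_ratio hn h h0 hε hε1 hεδ hK (hnorm θ) hθ₀ (hYK _) (hYs _) (hYK _) (hYs _)
    have h4 := supp_ratio hn h h0 hε hε1 hεδ hK hθ₀ (hnorm θ) (hYK _) (hYs _) (hYK _) (hYs _)
    rw [← hH, ← hs] at h3 h4
    have h5 : r ^ 2 ≤ ((H + s) / 2) ^ 2 := pow_le_pow_left₀ hr.le h1 2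
    have hHs : 0 < H * s := by positivity
    have h6 : (H - s) ^ 2 ≤ 50 * ε ^ 2 * (H * s) := by
      rcases le_total H s with hle | hle
      · have h7 : s - H ≤ 5 * ε * s := by linarith
        have h8 : (s - H) ^ 2 ≤ (5 * ε * s) ^ 2 := pow_le_pow_left₀ (by linarith) h7 2
        have h9 : s ≤ 2 * H := by nlinarith
        have h10 : s * s ≤ 2 * H * s := mul_le_mul_of_nonneg_right h9 hs0.le
        nlinarith [mul_le_mul_of_nonneg_left h10 (show (0 : ℝ) ≤ 25 * ε ^ 2 by positivity)]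
      · have h7 : H - s ≤ 5 * ε * H := by linarith
        have h8 : (H - s) ^ 2 ≤ (5 * ε * H) ^ 2 := pow_le_pow_left₀ (by linarith) h7 2
        have h9 : H ≤ 2 * s := by nlinarith
        have h10 : H * H ≤ 2 * s * H := mul_le_mul_of_nonneg_right h9 hH0.le
        nlinarith [mul_le_mul_of_nonneg_left h10 (show (0 : ℝ) ≤ 25 * ε ^ 2 by positivity)]
    have h7 : ((H + s) / 2) ^ 2 ≤ (1 + 25 / 2 * ε ^ 2) * (H * s) := by
      have : ((H + s) / 2) ^ 2 = H * s + (H - s) ^ 2 / 4 := by ring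
      rw [this]
      linarith
    have hε2 : ε ^ 2 ≤ 1 / 100 := by nlinarith
    have hε20 : 0 < ε ^ 2 := by positivity
    have h8 : (1 + 25 / 2 * ε ^ 2) * (H * s) < (1 + 27 * ε ^ 2) * (1 - ε ^ 2) * (H * s) := by
      refine mul_lt_mul_of_pos_right ?_ hHs
      nlinarith
    have h9 : (1 + 27 * ε ^ 2) * (1 - ε ^ 2) * (H * s) ≤ (1 + 27 * ε ^ 2) * (g θ * s) := by
      have h10 : H * (1 - ε ^ 2) * s ≤ g θ * s := mul_le_mul_of_nonneg_right h2 hs0.le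
      have h11 := mul_le_mul_of_nonneg_left h10 (show (0 : ℝ) ≤ 1 + 27 * ε ^ 2 by positivity)
      refine le_trans (le_of_eq ?_) h11
      ring
    exact (h5.trans h7).trans_lt (h8.trans_le h9)
  · have h1 := h.conv (interior_subset h0) (hgK θ) (a := 1 - r / g θ) (b := r / g θ)
      (by rw [sub_nonneg, div_le_one (hg0 θ)]; exact hrg.le) (by have := hg0 θ; positivity)
      (by ring)
    rw [smul_zero, zero_add, smul_smul, div_mul_cancel₀ _ (hg0 θ).ne'] at h1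
    exact h1

end Pool.Agent.T2h28.NB
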