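import Pool.Agent.T2h28.NB.Fin
import Pool.Agent.T2h28.NB.Rnd2
import Pool.Agent.Results.MP_8d00da_gt.CentredFibrations
import Pool.Agent.Results.MP_8d00da_gt.BrunnMinkowskiDeficit

/-!
# KLS for bodies whose supporting hyperplanes touch them near the foot of the perpendicular
-/

set_option autoImplicit false

namespace Pool.Agent.T2h28.NB

open MeasureTheory Set Filter Topology
open scoped ENNReal InnerProductSpace Pointwise

/-- Euclidean balls satisfy weak Poincare inequalities -/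
theorem ball_wp : ∃ A : ℝ → ℝ, ∀ (m : ℕ) (r : ℝ), 0 < r →
    Pool.Agent.Results.MP_8d00da_gt.BrunnMinkowskiDeficit.WeakPoincare A
      (unif (Metric.closedBall (0 : Euc m) r)) := by
  obtain ⟨A, hA⟩ := Pool.Agent.Results.MP_8d00da_gt.CentredFibrations.sections 0 0 2 (by norm_num)
  obtain ⟨A', hA'⟩ := Pool.Agent.Results.MP_8d00da_gt.CentredFibrations.weakPoincare A 1 0 0 0
    one_pos
  refine ⟨A', fun m r hr => ?_⟩
  have hB := ball_body (m := m) hr
  have hsec : Pool.Agent.Results.MP_8d00da_gt.CentredFibrations.Section 0 0 2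
      (Metric.closedBall (0 : Euc m) r) := by
    refine ⟨Metric.isBounded_closedBall, hB.int, ?_⟩
    rcases Nat.eq_zero_or_pos m with rfl | hm
    · refine Or.inl ⟨0, fun i => i.elim0, fun i => i.elim0, le_rfl, fun i => i.elim0,
        fun i => i.elim0, ?_⟩
      ext x
      simp only [mem_closedBall_zero_iff, mem_ofPred_eq]
      constructor
      · intro _ i
        exact i.elim0
      · intro _
        rw [Subsingleton.elim x 0, norm_zero]
        exact hr.le
    · refine Or.inr (Or.inr (Or.inl ⟨1, fun _ => m, fun _ _ => 2,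
        fun _ j => r⁻¹ • (EuclideanSpace.proj j : Euc m →L[ℝ] ℝ).toLinearMap, fun _ => hm, by simp,
        fun _ _ => le_rfl, ?_⟩))
      ext x
      rw [mem_closedBall_zero_iff]
      have e : ∀ i : Fin 1, (∑ j : Fin m, |(r⁻¹ • (EuclideanSpace.proj j : Euc m →L[ℝ] ℝ).toLinearMap) x|
          ^ (2 : ℝ)) = (‖x‖ / r) ^ 2 := by
        intro _
        have h1 : ∀ j : Fin m, |(r⁻¹ • (EuclideanSpace.proj j : Euc m →L[ℝ] ℝ).toLinearMap) x|
            ^ (2 : ℝ) = (r⁻¹) ^ 2 * x j ^ 2 := by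
          intro j
          rw [Real.rpow_two, sq_abs, ← mul_pow]
          rfl
        simp_rw [h1]
        rw [← Finset.mul_sum, div_pow, EuclideanSpace.real_norm_sq_eq]
        field_simp
      show ‖x‖ ≤ r ↔ ∀ i : Fin 1, (∑ j : Fin m, |(r⁻¹ •
        (EuclideanSpace.proj j : Euc m →L[ℝ] ℝ).toLinearMap) x| ^ (2 : ℝ)) ≤ 1
      constructor
      · intro h i
        rw [e i]
        exact pow_le_one₀ (by positivity) (by rwa [div_le_one hr])
      · intro h
        have h1 := h 0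
        rw [e 0] at h1
        have h2 : ‖x‖ / r ≤ 1 := by
          by_contra hcon
          rw [not_le] at hcon
          nlinarith
        rwa [div_le_one hr] at h2
  exact (hA' m _ (hA 1 0 0 m _ hsec)).2

/-- the supporting hyperplanes touch `K` near the foot of the perpendicular from `x` -/
def Round {n : ℕ} (δ : ℝ) (K : Set (Euc n)) : Prop :=
  ∃ x ∈ interior K, ∀ u : Euc n, ‖u‖ = 1 → ∀ y ∈ K, (∀ z ∈ K, ⟪u, z⟫_ℝ ≤ ⟪u, y⟫_ℝ) →
    ‖y - x‖ ≤ (1 + δ) * ⟪u, y - x⟫_ℝ

theorem half_mono {n : ℕ} {c c' : ℝ} (hc : c' ≤ c) {K : Set (Euc n)}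
    (h : Pool.Agent.Results.MP_8d00da_gt.BrunnMinkowskiDeficit.KLSHalf c K) :
    Pool.Agent.Results.MP_8d00da_gt.BrunnMinkowskiDeficit.KLSHalf c' K := by
  intro t ht A hA hA2
  refine le_trans ?_ (h t ht A hA hA2)
  gcongr

/-- all bodies of bounded dimension -/
theorem small_dim (r : ℕ) : ∃ c : ℝ, 0 < c ∧ ∀ (n : ℕ) (K : Set (Euc n)), n ≤ r → Body K →
    Pool.Agent.Results.MP_8d00da_gt.BrunnMinkowskiDeficit.KLSHalf c K := by
  obtain ⟨A, hA⟩ := Pool.Agent.Results.MP_8d00da_gt.CentredFibrations.sections 0 0 2 (by norm_num)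
  obtain ⟨c, hc, H⟩ := Pool.Agent.Results.MP_8d00da_gt.CentredFibrations.result A 1 0 r 1 one_pos
  refine ⟨c, hc, fun n K hn hK => ?_⟩
  have hne : K.Nonempty := hK.int.mono interior_subset
  have hB := ball_body (m := 0) one_pos
  have hsec : Pool.Agent.Results.MP_8d00da_gt.CentredFibrations.Section 0 0 2
      (Metric.closedBall (0 : Euc 0) 1) := by
    refine ⟨Metric.isBounded_closedBall, hB.int, Or.inl ⟨0, fun i => i.elim0, fun i => i.elim0,
      le_rfl, fun i => i.elim0, fun i => i.elim0, ?_⟩⟩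
    ext x
    simp only [mem_closedBall_zero_iff, mem_ofPred_eq]
    constructor
    · intro _ i
      exact i.elim0
    · intro _
      rw [Subsingleton.elim x 0, norm_zero]
      exact zero_le_one
  have him : (0 : Euc n →ₗ[ℝ] Euc 0) '' K = Metric.closedBall (0 : Euc 0) 1 := by
    ext x
    rw [Subsingleton.elim x 0]
    constructor
    · intro _
      exact Metric.mem_closedBall_self zero_le_one
    · intro _
      obtain ⟨y, hy⟩ := hne
      exact ⟨y, hy, rfl⟩
  refine H n K (.lift (0 : Euc n →ₗ[ℝ] Euc 0) (by omega) (fun x => ⟨0, Subsingleton.elim _ _⟩)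
    ⟨hK.comp, hK.conv, hK.int⟩ ?_)
  rw [him]
  exact hA 1 0 r 0 _ hsec

/-- the positive half -/
theorem round_bdd {D : ℕ → ℝ} (hD : BddAbove (range D)) : ∃ c : ℝ, 0 < c ∧ ∀ (N : ℕ)
    (L : Set (Euc N)), Body L → Round (D N / N) L →
    Pool.Agent.Results.MP_8d00da_gt.BrunnMinkowskiDeficit.KLSHalf c L := by
  obtain ⟨A, hA⟩ := ball_wp
  obtain ⟨M₀, hM₀⟩ := hD
  obtain ⟨M, hM, hM1⟩ : ∃ M : ℝ, (∀ N, D N ≤ M) ∧ 1 ≤ M :=
    ⟨max M₀ 1, fun N => (hM₀ ⟨N, rfl⟩).trans (le_max_left _ _), le_max_right _ _⟩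
  obtain ⟨N₀, hN₀⟩ := exists_nat_ge (100 * (2 * M + M ^ 2) + 2)
  obtain ⟨s, hs⟩ := exists_nat_ge (Real.exp (27 * (2 * M + M ^ 2)))
  obtain ⟨c₁, hc₁, H₁⟩ := small_dim N₀
  obtain ⟨A', c₂, hc₂, H₂⟩ := Pool.Agent.Results.MP_8d00da_gt.BrunnMinkowskiDeficit.result A s
  refine ⟨min c₁ c₂, lt_min hc₁ hc₂, fun N L hL hR => ?_⟩
  by_cases hN : N ≤ N₀
  · exact half_mono (min_le_left _ _) (H₁ N L hN hL)
  rw [not_le] at hN
  refine half_mono (min_le_right _ _) ?_
  have hNN₀ : (N₀ : ℝ) ≤ N := by exact_mod_cast hN.le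
  have hN2 : (2 : ℝ) ≤ N := by nlinarith [sq_nonneg M]
  have hN2' : 2 ≤ N := by exact_mod_cast hN2
  have hN0 : (0 : ℝ) < N := by linarith
  obtain ⟨x, hx, hR⟩ := hR
  obtain ⟨δ, hδ⟩ : ∃ δ : ℝ, δ = M / N := ⟨_, rfl⟩
  have hδ0 : 0 < δ := by rw [hδ]; positivity
  have hδ1 : δ ≤ 1 := by
    rw [hδ, div_le_one hN0]
    nlinarith [sq_nonneg M]
  have hle : 2 * δ + δ ^ 2 ≤ (2 * M + M ^ 2) / N := by
    have h1 : (2 * M + M ^ 2) / N = 2 * δ + M * δ := by
      rw [hδ]
      field_simp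
    rw [h1]
    have h2 : δ ≤ M := hδ1.trans hM1
    nlinarith
  obtain ⟨ε, hε⟩ : ∃ ε : ℝ, ε = Real.sqrt (2 * δ + δ ^ 2) := ⟨_, rfl⟩
  have hε2 : ε ^ 2 = 2 * δ + δ ^ 2 := by rw [hε, Real.sq_sqrt (by positivity)]
  have hε0 : 0 < ε := by rw [hε]; exact Real.sqrt_pos.2 (by positivity)
  have hε1 : ε ≤ 1 / 10 := by
    refine le_of_sq_le_sq ?_ (by norm_num)
    rw [hε2]
    refine hle.trans ?_
    rw [div_le_iff₀ hN0]
    nlinarith [sq_nonneg M]
  -- the centred body
  obtain ⟨K, hK⟩ : ∃ K : Set (Euc N), K = (fun z => x + z) ⁻¹' L := ⟨_, rfl⟩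
  have hKmem : ∀ z, z ∈ K ↔ x + z ∈ L := fun z => by rw [hK]; rfl
  have hKb : Body K := by
    refine ⟨?_, ?_, ?_⟩
    · rw [hK]
      exact (Homeomorph.addLeft x).isCompact_preimage.2 hL.comp
    · intro a ha b hb s t hs ht hst
      rw [hKmem] at ha hb ⊢
      have := hL.conv ha hb hs ht hst
      have e : s • (x + a) + t • (x + b) = x + (s • a + t • b) := by
        rw [smul_add, smul_add, add_add_add_comm, ← add_smul, hst, one_smul]
      rwa [e] at this
    · refine ⟨0, ?_⟩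
      rw [hK, mem_interior]
      exact ⟨(fun z => x + z) ⁻¹' interior L, preimage_mono interior_subset,
        isOpen_interior.preimage (by fun_prop), by
          show x + 0 ∈ interior L
          rwa [add_zero]⟩
  have hK0 : (0 : Euc N) ∈ interior K := by
    rw [hK, mem_interior]
    exact ⟨(fun z => x + z) ⁻¹' interior L, preimage_mono interior_subset,
      isOpen_interior.preimage (by fun_prop), by
        show x + 0 ∈ interior L
        rwa [add_zero]⟩
  have hRC : RC δ K := by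
    intro u hu y hy hym
    have h1 := hR u hu (x + y) ((hKmem y).1 hy) (fun z hz => by
      have h2 := hym (z - x) ((hKmem _).2 (by rwa [add_sub_cancel]))
      rw [inner_sub_right] at h2
      rw [inner_add_right]
      linarith)
    rw [add_sub_cancel_left] at h1
    refine h1.trans ?_
    have h3 := supp_pos hK0 hu hym
    refine mul_le_mul_of_nonneg_right ?_ h3.le
    have h4 : D N / N ≤ δ := by
      rw [hδ]
      exact div_le_div_of_nonneg_right (hM N) hN0.le
    linarith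
  obtain ⟨r, hr, hdef⟩ := deficit_round hN2' hKb hK0 hδ0.le hε0 hε1 hε2 hRC
  have hB := ball_body (m := N) hr
  refine (H₂ N (Metric.closedBall 0 r) L ⟨hB.comp, hB.conv, hB.int⟩ ⟨hL.comp, hL.conv, hL.int⟩
    (hA N r hr) ?_).2
  have hvK : volume K = volume L := by
    rw [hK]
    exact measure_preimage_add _ _ _
  have hvW : volume ((1 / 2 : ℝ) • (Metric.closedBall (0 : Euc N) r + K)) =
      volume ((1 / 2 : ℝ) • (Metric.closedBall (0 : Euc N) r + L)) := by
    have e : (1 / 2 : ℝ) • (Metric.closedBall (0 : Euc N) r + K) =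
        (fun w => (1 / 2 : ℝ) • x + w) ⁻¹' ((1 / 2 : ℝ) • (Metric.closedBall (0 : Euc N) r + L)) := by
      ext w
      constructor
      · rintro ⟨_, ⟨b, hb, k, hk, rfl⟩, rfl⟩
        refine ⟨b + (x + k), ⟨b, hb, x + k, (hKmem k).1 hk, rfl⟩, ?_⟩
        show (1 / 2 : ℝ) • (b + (x + k)) = (1 / 2 : ℝ) • x + (1 / 2 : ℝ) • (b + k)
        rw [← smul_add]
        congr 1
        abel
      · rintro ⟨_, ⟨b, hb, l, hl, rfl⟩, hw⟩
        have hw' : (1 / 2 : ℝ) • (b + l) = (1 / 2 : ℝ) • x + w := hw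
        refine ⟨b + (l - x), ⟨b, hb, l - x, (hKmem _).2 (by rwa [add_sub_cancel]), rfl⟩, ?_⟩
        show (1 / 2 : ℝ) • (b + (l - x)) = w
        have h1 : w = (1 / 2 : ℝ) • (b + l) - (1 / 2 : ℝ) • x := by
          rw [hw', add_sub_cancel_left]
        rw [h1, ← smul_sub]
        congr 1
        abel
    rw [e, measure_preimage_add]
  rw [hvW, hvK] at hdef
  refine hdef.trans (mul_le_mul_left ?_ _)
  rw [← ENNReal.ofReal_natCast]
  refine ENNReal.ofReal_le_ofReal (le_trans ?_ hs)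
  have h1 : 1 + 27 * ε ^ 2 ≤ Real.exp (27 * ε ^ 2) := by
    have := Real.add_one_le_exp (27 * ε ^ 2)
    linarith
  calc (1 + 27 * ε ^ 2) ^ N ≤ Real.exp (27 * ε ^ 2) ^ N := pow_le_pow_left₀ (by positivity) h1 N
    _ = Real.exp (N * (27 * ε ^ 2)) := by rw [← Real.exp_nat_mul]
    _ ≤ Real.exp (27 * (2 * M + M ^ 2)) := by
        refine Real.exp_le_exp.2 ?_
        rw [hε2]
        have h2 : N * (2 * δ + δ ^ 2) ≤ 2 * M + M ^ 2 := by
          rwa [le_div_iff₀ hN0, mul_comm] at hle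
        linarith

end Pool.Agent.T2h28.NB
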