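import Pool.Agent.T2h28.NB.Par
import Pool.Agent.T2h28.NB.Bd

/-!
# Parallel bodies are touched by their supporting hyperplanes near the foot of the perpendicular
-/

set_option autoImplicit false

namespace Pool.Agent.T2h28.NB

open MeasureTheory Set Filter Topology
open scoped ENNReal InnerProductSpace

theorem par_round {n : ℕ} {δ : ℝ} (hδ : 0 ≤ δ) {K : Set (Euc n)} (h : Par δ K) : Round δ K := by
  obtain ⟨L, x, r, hLc, hLx, hx, hr, hL, rfl⟩ := h
  have hsub : ∀ b ∈ L, ∀ v : Euc n, ‖v‖ ≤ r → b + v ∈ Metric.cthickening r L := by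
    intro b hb v hv
    refine Metric.closedBall_subset_cthickening hb r ?_
    rw [Metric.mem_closedBall, dist_eq_norm, add_sub_cancel_left]
    exact hv
  refine ⟨x, ?_, ?_⟩
  · rw [mem_interior]
    exact ⟨Metric.ball x r, (Metric.ball_subset_closedBall).trans
      (Metric.closedBall_subset_cthickening hx r), Metric.isOpen_ball, Metric.mem_ball_self hr⟩
  · intro u hu y hy hmax
    rw [hLc.cthickening_eq_biUnion_closedBall hr.le] at hy
    simp only [mem_iUnion, Metric.mem_closedBall] at hy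
    obtain ⟨b, hb, hd⟩ := hy
    rw [dist_eq_norm] at hd
    have hru : ‖r • u‖ ≤ r := by rw [norm_smul, hu, mul_one, Real.norm_of_nonneg hr.le]
    have huu : ⟪u, r • u⟫_ℝ = r := by
      rw [inner_smul_right, real_inner_self_eq_norm_mul_norm, hu]
      ring
    have h1 := hmax _ (hsub b hb (r • u) hru)
    rw [inner_add_right, huu] at h1
    have h2 : r ≤ ⟪u, y - b⟫_ℝ := by
      rw [inner_sub_right]
      linarith
    have h3 : ⟪u, y - b⟫_ℝ ≤ r := by
      refine (real_inner_le_norm _ _).trans ?_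
      rw [hu, one_mul]
      exact hd
    have h4 := hmax _ (hsub x hx (r • u) hru)
    rw [inner_add_right, huu] at h4
    have hb0 : 0 ≤ ⟪u, b - x⟫_ℝ := by
      rw [inner_sub_right] at h3 ⊢
      linarith
    have h5 : y - b = r • u := by
      have h6 : ‖y - b - r • u‖ ^ 2 ≤ 0 := by
        rw [norm_sub_sq_real, inner_smul_right, real_inner_comm, norm_smul, hu, mul_one,
          Real.norm_of_nonneg hr.le]
        have := pow_le_pow_left₀ (norm_nonneg _) hd 2
        nlinarith
      have h7 : ‖y - b - r • u‖ = 0 := by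
        have := sq_nonneg ‖y - b - r • u‖
        exact pow_eq_zero_iff (two_ne_zero) |>.1 (le_antisymm h6 this)
      exact sub_eq_zero.1 (norm_eq_zero.1 h7)
    have h6 : y - x = r • u + (b - x) := by
      rw [← h5]
      abel
    have h7 : ⟪u, y - x⟫_ℝ = r + ⟪u, b - x⟫_ℝ := by
      rw [h6, inner_add_right, huu]
    have hbx : ‖b - x‖ ^ 2 ≤ 2 * δ * r ^ 2 := by
      have h8 := hL hb
      rw [Metric.mem_closedBall, dist_eq_norm] at h8
      have h9 := pow_le_pow_left₀ (norm_nonneg _) h8 2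
      rwa [mul_pow, Real.sq_sqrt (by positivity)] at h9
    have h8 : ‖y - x‖ ^ 2 = r ^ 2 + 2 * r * ⟪u, b - x⟫_ℝ + ‖b - x‖ ^ 2 := by
      rw [h6, norm_add_sq_real, inner_smul_left, norm_smul, hu, mul_one,
        Real.norm_of_nonneg hr.le]
      simp only [conj_trivial]
      ring
    rw [h7]
    refine le_of_sq_le_sq ?_ (by positivity)
    rw [h8, mul_pow]
    obtain ⟨a, ha⟩ : ∃ a : ℝ, a = ⟪u, b - x⟫_ℝ := ⟨_, rfl⟩
    rw [← ha] at hb0 ⊢
    nlinarith [mul_nonneg hδ hb0, mul_nonneg hδ (mul_nonneg hr.le hb0), mul_nonneg hδ (sq_nonneg a),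
      sq_nonneg (δ * (r + a)), sq_nonneg a]

end Pool.Agent.T2h28.NB
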