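import Pool.Agent.T2h28.NB.Pos

/-!
# Reduction of KLS to near-Euclidean bodies: the classes of bodies
-/

set_option autoImplicit false

namespace Pool.Agent.T2h28.NB

open MeasureTheory Set Filter Topology
open scoped ENNReal InnerProductSpace

/-- between a ball and its dilate by `1 + δ` -/
def Near {N : ℕ} (δ : ℝ) (K : Set (Euc N)) : Prop :=
  ∃ (x : Euc N) (r : ℝ), 0 < r ∧ Metric.closedBall x r ⊆ K ∧ K ⊆ Metric.closedBall x ((1 + δ) * r)

/-- symmetric about the origin -/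
def Sym {N : ℕ} (K : Set (Euc N)) : Prop := ∀ x ∈ K, -x ∈ K

variable {n m N : ℕ} {K : Set (Euc n)}

theorem zero_mem_of_sym (h : Body K) (hs : Sym K) : (0 : Euc n) ∈ K := by
  obtain ⟨x, hx⟩ := h.int
  have hx' : x ∈ K := interior_subset hx
  have h1 := h.conv hx' (hs x hx') (by norm_num : (0 : ℝ) ≤ 1 / 2) (by norm_num : (0 : ℝ) ≤ 1 / 2)
    (by norm_num)
  have h2 : (1 / 2 : ℝ) • x + (1 / 2 : ℝ) • -x = 0 := by
    rw [smul_neg, add_neg_cancel]
  rwa [h2] at h1

theorem exists_center (h : Body K) : ∃ p ∈ K, Sym K → p = 0 := by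
  by_cases hs : Sym K
  · exact ⟨0, zero_mem_of_sym h hs, fun _ => rfl⟩
  · obtain ⟨x, hx⟩ := h.int
    exact ⟨x, interior_subset hx, fun h => absurd h hs⟩

theorem infDist_sym (hs : Sym K) (y : Euc n) : Metric.infDist (-y) K = Metric.infDist y K := by
  have h1 : (fun x : Euc n => -x) '' K = K := by
    ext x
    constructor
    · rintro ⟨a, ha, rfl⟩
      exact hs a ha
    · intro hx
      exact ⟨-x, hs x hx, neg_neg x⟩
  have h2 := Metric.infDist_image (t := K) (x := y) (Φ := fun x : Euc n => -x)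
    (LinearIsometryEquiv.neg ℝ).isometry
  rw [h1] at h2
  exact h2

theorem hull_sym (S : Split n m N) (hs : Sym K) (τ ρ' ρ'' : ℝ) : Sym (hull S K 0 τ ρ' ρ'') := by
  intro x hx
  refine ⟨?_, ?_⟩
  · have h1 : ‖S.Q x‖ + τ * Metric.infDist (S.P x) K ≤ ρ' := hx.1
    show ‖S.Q (-x)‖ + τ * Metric.infDist (S.P (-x)) K ≤ ρ'
    rw [map_neg, map_neg, norm_neg, infDist_sym hs]
    exact h1
  · have h1 := hx.2
    rw [map_zero, mem_closedBall_zero_iff] at h1 ⊢
    rwa [norm_neg]

/-- the inequality in terms of the largest variance: from nearly isotropic near-balls to all bodies -/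
theorem klv_all (h : Body K) {D : ℕ → ℝ} (hD : ¬ BddAbove (range D)) {ε : ℝ} (hε : 0 < ε) {c : ℝ}
    (H : ∀ (N : ℕ) (L : Set (Euc N)), Body L → Near (D N / N) L → NIso ε L → (Sym K → Sym L) →
      KLV c L) : KLV c K := by
  have hprob := h.prob
  by_cases hc : c ≤ 0
  · intro s hs _ A _
    rw [ENNReal.ofReal_of_nonpos (div_nonpos_of_nonpos_of_nonneg hc hs.le), zero_mul]
    exact zero_le
  rw [not_le] at hc
  intro s hs hv B hB
  obtain ⟨T, hT⟩ := exists_std h
  obtain ⟨A, hA⟩ := exists_adj T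
  have hb := body_pre h A
  have hiso : ∀ a : Euc n, Vr (A ⁻¹' K) a = ‖a‖ ^ 2 * 1 := by
    intro a
    have h1 := Vr_pre h A hA (T.symm a)
    rw [← hT, T.apply_symm_apply] at h1
    rw [h1, mul_one]
  have hT1 : ∀ u, ‖T u‖ ≤ s * ‖u‖ := by
    intro u
    rcases eq_or_ne u 0 with rfl | hu
    · simp
    have hn : 0 < ‖u‖ := norm_pos_iff.2 hu
    have h1 := hv (‖u‖⁻¹ • u) (by rw [norm_smul, norm_inv, norm_norm, inv_mul_cancel₀ hn.ne'])
    rw [Vr_smul, ← hT] at h1
    refine le_of_sq_le_sq ?_ (by positivity)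
    have h2 : ‖T u‖ ^ 2 = ‖u‖ ^ 2 * ((‖u‖⁻¹) ^ 2 * ‖T u‖ ^ 2) := by
      field_simp
    rw [h2, mul_pow, mul_comm (s ^ 2)]
    exact mul_le_mul_of_nonneg_left h1 (sq_nonneg _)
  have hA1 : ∀ x, ‖A x‖ ≤ s * ‖x‖ := by
    intro x
    rcases eq_or_ne (A x) 0 with h0 | h0
    · rw [h0, norm_zero]
      positivity
    have hn : 0 < ‖A x‖ := norm_pos_iff.2 h0
    have h1 : ‖A x‖ * ‖A x‖ = ⟪T (A x), x⟫_ℝ := by
      rw [hA, real_inner_self_eq_norm_mul_norm]
    have h2 : ⟪T (A x), x⟫_ℝ ≤ ‖T (A x)‖ * ‖x‖ := real_inner_le_norm _ _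
    have h3 : ‖T (A x)‖ * ‖x‖ ≤ s * ‖A x‖ * ‖x‖ :=
      mul_le_mul_of_nonneg_right (hT1 _) (norm_nonneg _)
    have h4 : ‖A x‖ * ‖A x‖ ≤ (s * ‖x‖) * ‖A x‖ := by
      rw [h1]
      linarith
    exact le_of_mul_le_mul_right h4 hn
  have hsym : Sym K → Sym (A ⁻¹' K) := by
    intro hs x hx
    show A (-x) ∈ K
    rw [map_neg]
    exact hs _ hx
  obtain ⟨p, hp, hp0⟩ := exists_center hb
  have key := core_iso hb hp one_pos hiso hD hε hc (by
    intro m N S τ ρ ρ' hρ hbody hball hni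
    refine H N _ hbody ⟨S.i p, ρ, hρ, hball, inter_subset_right⟩ hni fun hsK => ?_
    rw [hp0 (hsym hsK)]
    exact hull_sym S (hsym hsK) _ _ _) (A ⁻¹' B) (A.continuous.measurable hB)
  have hlow := low_lin h A hs hA1 B key
  have hreal : (unif (A ⁻¹' K)).real (A ⁻¹' B) = (unif K).real B := by
    rw [Measure.real, Measure.real, unif_pre h]
  rw [hreal] at hlow
  have hb2 := bdry_of_low hlow
  refine le_trans (le_of_eq ?_) hb2
  rw [min_ofReal h, ← ENNReal.ofReal_mul (by positivity)]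
  congr 1
  rw [Real.sqrt_one]
  ring

/-- the inequality in terms of halfspaces: from near-balls to all bodies -/
theorem kls_all (h : Body K) {D : ℕ → ℝ} (hD : ¬ BddAbove (range D)) {c : ℝ}
    (H : ∀ (N : ℕ) (L : Set (Euc N)), Body L → Near (D N / N) L → (Sym K → Sym L) → KLS c L) :
    KLS c K := by
  obtain ⟨p, hp, hp0⟩ := exists_center h
  refine core h hp hD c fun N i r hr hDN => ?_
  have hδ : 0 ≤ D N / N := by positivity
  have hrr : r ≤ (1 + D N / N) * r := by nlinarith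
  have hball : Metric.closedBall (i p) r ⊆
      Metric.cthickening r (i '' K) ∩ Metric.closedBall (i p) ((1 + D N / N) * r) := by
    intro x hx
    exact ⟨Metric.closedBall_subset_cthickening (mem_image_of_mem _ hp) r hx,
      Metric.closedBall_subset_closedBall hrr hx⟩
  refine H N _ ⟨?_, ?_, ?_⟩ ⟨i p, r, hr, hball, inter_subset_right⟩ ?_
  · exact (isCompact_closedBall _ _).inter_left Metric.isClosed_cthickening
  · exact ((h.conv.linear_image i.toLinearMap).cthickening r).inter (convex_closedBall _ _)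
  · refine ⟨i p, ?_⟩
    rw [mem_interior]
    exact ⟨Metric.ball (i p) r, (Metric.ball_subset_closedBall).trans hball,
      Metric.isOpen_ball, Metric.mem_ball_self hr⟩
  · intro hs x hx
    have hp1 := hp0 hs
    have h1 : (fun x : Euc N => -x) '' (i '' K) = i '' K := by
      ext x
      constructor
      · rintro ⟨_, ⟨b, hb, rfl⟩, rfl⟩
        exact ⟨-b, hs b hb, map_neg _ _⟩
      · rintro ⟨b, hb, rfl⟩
        exact ⟨i (-b), mem_image_of_mem _ (hs b hb), by rw [map_neg]; exact neg_neg _⟩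
    refine ⟨?_, ?_⟩
    · have h2 := hx.1
      rw [Metric.mem_cthickening_iff] at h2 ⊢
      have h3 := Metric.infEDist_image (t := i '' K) (x := x) (Φ := fun x : Euc N => -x)
        (LinearIsometryEquiv.neg ℝ).isometry
      rw [h1] at h3
      rw [h3]
      exact h2
    · have h2 := hx.2
      rw [hp1, map_zero, mem_closedBall_zero_iff] at h2 ⊢
      rwa [norm_neg]

/-- the halfspace constant is bounded below by the largest variance -/
theorem klv_of_kls (h : Body K) {c : ℝ} (hc : 0 ≤ c) (H : KLS c K) : KLV (c / 10) K := by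
  have hprob := h.prob
  intro s hs hv A hA
  have key := H (ENNReal.ofReal (1 / (10 * s))) (by
    intro u b hu
    have hpos : 0 < ‖u‖ := norm_pos_iff.2 hu
    obtain ⟨v, hve⟩ : ∃ v : Euc n, v = ‖u‖⁻¹ • u := ⟨_, rfl⟩
    have hv1 : ‖v‖ = 1 := by rw [hve, norm_smul, norm_inv, norm_norm, inv_mul_cancel₀ hpos.ne']
    have hset : {x : Euc n | ⟪u, x⟫_ℝ ≤ b} = {x | ⟪v, x⟫_ℝ ≤ ‖u‖⁻¹ * b} := by
      ext x
      show ⟪u, x⟫_ℝ ≤ b ↔ ⟪v, x⟫_ℝ ≤ ‖u‖⁻¹ * b
      rw [hve, inner_smul_left]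
      simp only [conj_trivial]
      exact (mul_le_mul_iff_right₀ (by positivity)).symm
    rw [hset]
    obtain ⟨c₀, hc₀⟩ := exists_half h v hv1
    have hvar := hv v hv1
    have hX : MemLp (fun x : Euc n => ⟪v, x⟫_ℝ) 2 (unif K) := unif_memLp h (by fun_prop) 2
    have hch : ∀ k : ℝ, 0 < k → (unif K).real {x | k * s ≤ |⟪v, x⟫_ℝ - mn K v|} ≤ 1 / k ^ 2 := by
      intro k hk
      have h1 := ProbabilityTheory.meas_ge_le_variance_div_sq hX (c := k * s) (by positivity)
      have h2 := ENNReal.toReal_mono ENNReal.ofReal_ne_top h1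
      rw [ENNReal.toReal_ofReal (by have := Vr_nonneg (K := K) v; unfold Vr at this; positivity)]
        at h2
      refine h2.trans ?_
      have h3 : Vr K v / (k * s) ^ 2 ≤ s ^ 2 / (k * s) ^ 2 :=
        div_le_div_of_nonneg_right hvar (by positivity)
      refine h3.trans (le_of_eq ?_)
      field_simp
    -- the median is not far below the mean
    have h1 : mn K v - 7 / 4 * s < c₀ := by
      by_contra hcon
      rw [not_lt] at hcon
      have h2 : Fd K v c₀ ≤ (unif K).real {x | 7 / 4 * s ≤ |⟪v, x⟫_ℝ - mn K v|} := by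
        refine measureReal_mono (fun x hx => ?_) (measure_ne_top _ _)
        have hx' : ⟪v, x⟫_ℝ ≤ c₀ := hx
        show 7 / 4 * s ≤ |⟪v, x⟫_ℝ - mn K v|
        rw [abs_sub_comm]
        refine le_trans ?_ (le_abs_self _)
        linarith
      have h3 := h2.trans (hch (7 / 4) (by norm_num))
      rw [hc₀] at h3
      norm_num at h3
    have h2 : 4 / 5 ≤ Fd K v (c₀ + 2 * (2 * s)) := by
      have h3 : 1 - Fd K v (c₀ + 2 * (2 * s)) ≤
          (unif K).real {x | 9 / 4 * s ≤ |⟪v, x⟫_ℝ - mn K v|} := by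
        have h4 := probReal_compl_eq_one_sub (μ := unif K) (meas_hs v (c₀ + 2 * (2 * s)))
        unfold Fd
        rw [← h4]
        refine measureReal_mono (fun x hx => ?_) (measure_ne_top _ _)
        have hx' : ¬ ⟪v, x⟫_ℝ ≤ c₀ + 2 * (2 * s) := hx
        rw [not_le] at hx'
        show 9 / 4 * s ≤ |⟪v, x⟫_ℝ - mn K v|
        refine le_trans ?_ (le_abs_self _)
        linarith
      have h4 := h3.trans (hch (9 / 4) (by norm_num))
      norm_num at h4
      linarith
    have h3 : ∀ κ' < 1 / (20 * s), ∀ᶠ ε : ℝ in 𝓝[>] 0,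
        κ' * ε ≤ Fd K v (c₀ + ε) - Fd K v c₀ := by
      intro κ' hκ'
      have hsm : ∀ᶠ ε : ℝ in 𝓝[>] 0, ε < 2 * (2 * s) :=
        mem_nhdsWithin_of_mem_nhds (Iio_mem_nhds (by positivity))
      filter_upwards [hsm, self_mem_nhdsWithin] with ε h4 hε
      have hε' : (0 : ℝ) < ε := hε
      have h5 := spread h v (w := 2 * s) (by positivity) hc₀ h2 ε hε' h4
      have h6 : 1 / (10 * (2 * s)) = 1 / (20 * s) := by ring_nf
      rw [h6] at h5
      exact (mul_le_mul_of_nonneg_right hκ'.le hε'.le).trans h5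
    have h4 := half_enough h v hc₀ h3 (‖u‖⁻¹ * b)
    have h5 : Low (unif K) {x : Euc n | ⟪v, x⟫_ℝ ≤ ‖u‖⁻¹ * b}
        (2 * (1 / (20 * s)) * min (Fd K v (‖u‖⁻¹ * b)) (1 - Fd K v (‖u‖⁻¹ * b))) :=
      (low_hs h v hv1 _ _).2 h4
    have h6 := bdry_of_low h5
    refine le_trans (le_of_eq ?_) h6
    rw [min_ofReal h, ← ENNReal.ofReal_mul (by positivity)]
    congr 1
    have h7 : 2 * (1 / (20 * s)) = 1 / (10 * s) := by
      field_simp
      norm_num
    rw [h7]
    rfl) A hA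
  refine le_trans (le_of_eq ?_) key
  rw [← ENNReal.ofReal_mul hc]
  congr 2
  field_simp

end Pool.Agent.T2h28.NB
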