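import Pool.Agent.T2h28.NB.Hat

/-!
# Reduction of KLS to near-Euclidean bodies: halfspaces of the truncated parallel body
-/

set_option autoImplicit false

namespace Pool.Agent.T2h28.NB

open MeasureTheory Set Filter Topology
open scoped ENNReal InnerProductSpace

variable {n : ℕ} {K : Set (Euc n)}

/-- the inequality for halfspaces in finite form -/
theorem fin_hs (h : Body K) {t₀ : ℝ} (ht : 0 ≤ t₀) (u : Euc n) (hu : ‖u‖ = 1)
    (hK : ∀ x, Low (unif K) {y : Euc n | ⟪u, y⟫_ℝ ≤ x} (t₀ * min (Fd K u x) (1 - Fd K u x)))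
    (x ε : ℝ) (hε : 0 ≤ ε) :
    t₀ * min (Fd K u x) (1 - Fd K u (x + ε)) * ε ≤ Fd K u (x + ε) - Fd K u x := by
  have hm := Fd_mono h u
  have := dini (φ := fun r => Fd K u (x + r)) (ε := ε)
    (κ := t₀ * min (Fd K u x) (1 - Fd K u (x + ε))) hε
    (fun r s _ hrs _ => hm (by linarith)) (by
      intro r hr hrε κ' hκ'
      have h1 := (low_hs h u hu (x + r) _).1 (hK (x + r)) κ' (hκ'.trans_le (by
        refine mul_le_mul_of_nonneg_left (min_le_min (hm (by linarith)) ?_) ht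
        have := hm (show x + r ≤ x + ε by linarith)
        linarith))
      simpa only [add_assoc] using h1)
  simpa using this

theorem Fd_scale (a : Euc n) (ha : a ≠ 0) (x : ℝ) :
    Fd K a x = Fd K (‖a‖⁻¹ • a) (‖a‖⁻¹ * x) := by
  unfold Fd
  congr 1
  ext y
  have hpos : 0 < ‖a‖ := norm_pos_iff.2 ha
  show ⟪a, y⟫_ℝ ≤ x ↔ ⟪‖a‖⁻¹ • a, y⟫_ℝ ≤ ‖a‖⁻¹ * x
  rw [inner_smul_left]
  simp only [conj_trivial]
  exact (mul_le_mul_iff_right₀ (by positivity)).symm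

theorem norm_unit (a : Euc n) (ha : a ≠ 0) : ‖‖a‖⁻¹ • a‖ = 1 := by
  rw [norm_smul, norm_inv, norm_norm, inv_mul_cancel₀ (norm_ne_zero_iff.2 ha)]

theorem fin_hs' (h : Body K) {t₀ : ℝ} (ht : 0 ≤ t₀)
    (hK : ∀ u : Euc n, ‖u‖ = 1 → ∀ x, Low (unif K) {y : Euc n | ⟪u, y⟫_ℝ ≤ x}
      (t₀ * min (Fd K u x) (1 - Fd K u x))) (a : Euc n) (ha : a ≠ 0)
    (x ε : ℝ) (hε : 0 ≤ ε) :
    t₀ * ‖a‖⁻¹ * min (Fd K a x) (1 - Fd K a (x + ε)) * ε ≤ Fd K a (x + ε) - Fd K a x := by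
  have hpos : 0 < ‖a‖ := norm_pos_iff.2 ha
  have h1 := fin_hs h ht (‖a‖⁻¹ • a) (norm_unit a ha) (hK _ (norm_unit a ha)) (‖a‖⁻¹ * x)
    (‖a‖⁻¹ * ε) (by positivity)
  rw [← mul_add, ← Fd_scale a ha, ← Fd_scale a ha] at h1
  calc t₀ * ‖a‖⁻¹ * min (Fd K a x) (1 - Fd K a (x + ε)) * ε =
      t₀ * min (Fd K a x) (1 - Fd K a (x + ε)) * (‖a‖⁻¹ * ε) := by ring
    _ ≤ _ := h1

theorem Fd_lip' {C : ℝ} (h : Body K)
    (hC : ∀ u : Euc n, ‖u‖ = 1 → ∀ x η : ℝ, 0 ≤ η → Fd K u (x + η) ≤ Fd K u x + C * η)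
    (a : Euc n) (ha : a ≠ 0) (x y : ℝ) :
    |Fd K a x - Fd K a y| ≤ C / ‖a‖ * |x - y| := by
  have hpos : 0 < ‖a‖ := norm_pos_iff.2 ha
  have key : ∀ x y, y ≤ x → |Fd K a x - Fd K a y| ≤ C / ‖a‖ * |x - y| := by
    intro x y hxy
    have hm := Fd_mono h a hxy
    rw [abs_of_nonneg (by linarith), abs_of_nonneg (by linarith)]
    have h1 := hC (‖a‖⁻¹ • a) (norm_unit a ha) (‖a‖⁻¹ * y) (‖a‖⁻¹ * (x - y))
      (mul_nonneg (by positivity) (by linarith))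
    rw [← mul_add, ← Fd_scale a ha, ← Fd_scale a ha, add_sub_cancel] at h1
    have : C * (‖a‖⁻¹ * (x - y)) = C / ‖a‖ * (x - y) := by ring
    linarith
  rcases le_total y x with hxy | hxy
  · exact key x y hxy
  · rw [abs_sub_comm, abs_sub_comm x y]
    exact key y x hxy

/-- tails of the functionals of a ball -/
theorem ball_tail {m : ℕ} {ρ : ℝ} (hρ : 0 < ρ) (b : Euc m) (hb : ‖b‖ ≤ 1) (r : ℝ) (hr : 0 ≤ r) :
    (unif (Metric.closedBall (0 : Euc m) ρ)).real {z | r < ⟪b, z⟫_ℝ} ≤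
      Real.exp (-(m / (2 * ρ ^ 2) * r ^ 2)) := by
  have hB := ball_body (m := m) hρ
  rw [unif_real hB, div_le_iff₀ hB.real_pos]
  have h1 : {z | r < ⟪b, z⟫_ℝ} ∩ Metric.closedBall (0 : Euc m) ρ ⊆
      {z : Euc m | ‖z - r • b‖ ^ 2 ≤ ρ ^ 2 - r ^ 2} := by
    rintro z ⟨hz, hzB⟩
    have hz' : r < ⟪b, z⟫_ℝ := hz
    rw [mem_closedBall_zero_iff] at hzB
    show ‖z - r • b‖ ^ 2 ≤ ρ ^ 2 - r ^ 2
    rw [norm_sub_sq_real, inner_smul_right, real_inner_comm, norm_smul, mul_pow,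
      Real.norm_eq_abs, sq_abs]
    have h2 := pow_le_pow_left₀ (norm_nonneg _) hzB 2
    have h3 := pow_le_pow_left₀ (norm_nonneg _) hb 2
    rw [one_pow] at h3
    nlinarith [sq_nonneg r]
  have h2 := (measure_mono (μ := volume) h1).trans (vol_sec (r • b) (s := r) hρ)
  have h3 := ENNReal.toReal_mono (ENNReal.mul_ne_top ENNReal.ofReal_ne_top hB.lt_top.ne) h2
  rwa [ENNReal.toReal_mul, ENNReal.toReal_ofReal (Real.exp_pos _).le] at h3

theorem ball_tail' {m : ℕ} {ρ : ℝ} (hρ : 0 < ρ) (b : Euc m) (hb : ‖b‖ ≤ 1) (r : ℝ) (hr : 0 ≤ r) :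
    (unif (Metric.closedBall (0 : Euc m) ρ)).real {z | r < |⟪b, z⟫_ℝ|} ≤
      2 * Real.exp (-(m / (2 * ρ ^ 2) * r ^ 2)) := by
  have := (ball_body (m := m) hρ).prob
  have h1 := ball_tail hρ b hb r hr
  have h2 := ball_tail hρ (-b) (by rwa [norm_neg]) r hr
  have h3 : {z : Euc m | r < |⟪b, z⟫_ℝ|} ⊆ {z | r < ⟪b, z⟫_ℝ} ∪ {z | r < ⟪-b, z⟫_ℝ} := by
    intro z hz
    have hz' : r < |⟪b, z⟫_ℝ| := hz
    rcases lt_abs.1 hz' with h | h
    · exact Or.inl h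
    · refine Or.inr ?_
      show r < ⟪-b, z⟫_ℝ
      rwa [inner_neg_left]
  have h4 := (measureReal_mono (μ := unif (Metric.closedBall (0 : Euc m) ρ)) h3
    (measure_ne_top _ _)).trans (measureReal_union_le _ _)
  linarith

/-- product measures of sets through sections -/
theorem prod_real {m : ℕ} (μ : Measure (Euc n)) (β : Measure (Euc m)) [IsProbabilityMeasure μ]
    [IsProbabilityMeasure β] {T : Set (Euc n × Euc m)} (hT : MeasurableSet T) :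
    (μ.prod β).real T = ∫ z, μ.real {y | (y, z) ∈ T} ∂β := by
  rw [Measure.real, Measure.prod_apply_symm hT]
  have h1 := integral_toReal (μ := β) (f := fun z => μ ((fun y => (y, z)) ⁻¹' T))
    (measurable_measure_prodMk_right hT).aemeasurable (ae_of_all _ fun z => measure_lt_top _ _)
  rw [← h1]
  rfl

variable {m N : ℕ} (S : Split n m N) {p : Euc n}

theorem meas_T (a : Euc n) (b : Euc m) (c : ℝ) :
    MeasurableSet {q : Euc n × Euc m | ⟪a, q.1⟫_ℝ + ⟪b, q.2⟫_ℝ ≤ c} := by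
  have hc : Continuous fun q : Euc n × Euc m => ⟪a, q.1⟫_ℝ + ⟪b, q.2⟫_ℝ := by fun_prop
  exact measurableSet_le hc.measurable measurable_const

theorem meas_T' (a : Euc n) (b : Euc m) (c ε : ℝ) :
    MeasurableSet {q : Euc n × Euc m | c < ⟪a, q.1⟫_ℝ + ⟪b, q.2⟫_ℝ ∧
      ⟪a, q.1⟫_ℝ + ⟪b, q.2⟫_ℝ ≤ c + ε} := by
  have hc : Continuous fun q : Euc n × Euc m => ⟪a, q.1⟫_ℝ + ⟪b, q.2⟫_ℝ := by fun_prop
  exact (measurableSet_lt measurable_const hc.measurable).inter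
    (measurableSet_le hc.measurable measurable_const)

/-- the increments under the product measure -/
theorem prod_incr (h : Body K) {ρ : ℝ} (hρ : 0 < ρ) (a : Euc n) (b : Euc m) (c ε : ℝ)
    (hε : 0 ≤ ε) :
    ((unif K).prod (unif (Metric.closedBall (0 : Euc m) ρ))).real
      {q | c < ⟪a, q.1⟫_ℝ + ⟪b, q.2⟫_ℝ ∧ ⟪a, q.1⟫_ℝ + ⟪b, q.2⟫_ℝ ≤ c + ε} =
    ∫ z, (Fd K a (c - ⟪b, z⟫_ℝ + ε) - Fd K a (c - ⟪b, z⟫_ℝ))
      ∂(unif (Metric.closedBall (0 : Euc m) ρ)) := by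
  have := h.prob
  have := (ball_body (m := m) hρ).prob
  rw [prod_real _ _ (meas_T' a b c ε)]
  refine integral_congr_ae (ae_of_all _ fun z => ?_)
  simp only
  rw [Fd_sub h a _ _ hε]
  congr 1
  ext y
  simp only [mem_ofPred_eq]
  constructor
  · rintro ⟨h1, h2⟩
    constructor <;> linarith
  · rintro ⟨h1, h2⟩
    constructor <;> linarith

theorem prod_le (h : Body K) {ρ : ℝ} (hρ : 0 < ρ) (a : Euc n) (b : Euc m) (c : ℝ) :
    ((unif K).prod (unif (Metric.closedBall (0 : Euc m) ρ))).real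
      {q | ⟪a, q.1⟫_ℝ + ⟪b, q.2⟫_ℝ ≤ c} =
    ∫ z, Fd K a (c - ⟪b, z⟫_ℝ) ∂(unif (Metric.closedBall (0 : Euc m) ρ)) := by
  have := h.prob
  have := (ball_body (m := m) hρ).prob
  rw [prod_real _ _ (meas_T a b c)]
  refine integral_congr_ae (ae_of_all _ fun z => ?_)
  simp only
  unfold Fd
  congr 1
  ext y
  simp only [mem_ofPred_eq]
  constructor <;> intro h1 <;> linarith

theorem meas_Fd (h : Body K) (a : Euc n) (b : Euc m) (c : ℝ) :
    Measurable fun z : Euc m => Fd K a (c - ⟪b, z⟫_ℝ) := by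
  have hc : Continuous fun z : Euc m => c - ⟪b, z⟫_ℝ := by fun_prop
  exact (Fd_mono h a).measurable.comp hc.measurable

theorem int_Fd (h : Body K) {ρ : ℝ} (hρ : 0 < ρ) (a : Euc n) (b : Euc m) (c : ℝ) :
    Integrable (fun z : Euc m => Fd K a (c - ⟪b, z⟫_ℝ))
      (unif (Metric.closedBall (0 : Euc m) ρ)) := by
  have := (ball_body (m := m) hρ).prob
  refine Integrable.of_bound (meas_Fd h a b c).aestronglyMeasurable 1 (ae_of_all _ fun z => ?_)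
  rw [Real.norm_eq_abs, abs_of_nonneg (Fd_nonneg _ _)]
  exact Fd_le_one h _ _

/-- the averaged deviation from one half -/
theorem dev (h : Body K) {C : ℝ} (hC1 : 1 ≤ C)
    (hC : ∀ u : Euc n, ‖u‖ = 1 → ∀ x η : ℝ, 0 ≤ η → Fd K u (x + η) ≤ Fd K u x + C * η)
    {ρ : ℝ} (hρ : 0 < ρ) (a : Euc n) (ha : a ≠ 0) (b : Euc m) (hb : ‖b‖ ≤ 1) (c r : ℝ)
    (hr : 0 ≤ r) :
    ∫ z, |Fd K a (c - ⟪b, z⟫_ℝ) - 1 / 2| ∂(unif (Metric.closedBall (0 : Euc m) ρ)) ≤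
      2 * (C / ‖a‖ * r + 2 * Real.exp (-(m / (2 * ρ ^ 2) * r ^ 2))) +
      |∫ z, Fd K a (c - ⟪b, z⟫_ℝ) ∂(unif (Metric.closedBall (0 : Euc m) ρ)) - 1 / 2| := by
  have hβ := (ball_body (m := m) hρ).prob
  obtain ⟨β, hβe⟩ : ∃ β : Measure (Euc m), β = unif (Metric.closedBall (0 : Euc m) ρ) := ⟨_, rfl⟩
  have hpos : 0 < ‖a‖ := norm_pos_iff.2 ha
  have hint := int_Fd (m := m) h hρ a b c
  have htail := ball_tail' hρ b hb r hr
  rw [← hβe] at hβ hint htail ⊢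
  obtain ⟨φ, hφ⟩ : ∃ φ : Euc m → ℝ, φ = fun z => Fd K a (c - ⟪b, z⟫_ℝ) := ⟨_, rfl⟩
  have hφ01 : ∀ z, 0 ≤ φ z ∧ φ z ≤ 1 := fun z => by
    rw [hφ]
    exact ⟨Fd_nonneg _ _, Fd_le_one h _ _⟩
  obtain ⟨q, hq⟩ : ∃ q : ℝ, q = ∫ z, φ z ∂β := ⟨_, rfl⟩
  have hq' : ∫ z, Fd K a (c - ⟪b, z⟫_ℝ) ∂β = q := by rw [hq, hφ]
  have hφint : Integrable φ β := by rw [hφ]; exact hint
  have hφ0 : 0 ≤ Fd K a c ∧ Fd K a c ≤ 1 := ⟨Fd_nonneg _ _, Fd_le_one h _ _⟩
  have hms : MeasurableSet {z : Euc m | r < |⟪b, z⟫_ℝ|} := by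
    have hc : Continuous fun z : Euc m => |⟪b, z⟫_ℝ| := by fun_prop
    exact measurableSet_lt measurable_const hc.measurable
  have hE1 : ∫ z, |φ z - Fd K a c| ∂β ≤ C / ‖a‖ * r + 2 * Real.exp (-(m / (2 * ρ ^ 2) * r ^ 2)) := by
    have h1 : ∀ z, |φ z - Fd K a c| ≤ C / ‖a‖ * r +
        ({z : Euc m | r < |⟪b, z⟫_ℝ|}.indicator (fun _ => (1 : ℝ)) z) := by
      intro z
      by_cases hz : r < |⟪b, z⟫_ℝ|
      · rw [indicator_of_mem (show z ∈ {z : Euc m | r < |⟪b, z⟫_ℝ|} from hz)]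
        have h2 : |φ z - Fd K a c| ≤ 1 := by
          rw [abs_le]
          constructor <;> linarith [hφ01 z, hφ0.1, hφ0.2, (hφ01 z).1, (hφ01 z).2]
        have h3 : 0 ≤ C / ‖a‖ * r := by positivity
        linarith
      · rw [indicator_of_notMem (show z ∉ {z : Euc m | r < |⟪b, z⟫_ℝ|} from hz), add_zero]
        rw [not_lt] at hz
        have h2 := Fd_lip' h hC a ha (c - ⟪b, z⟫_ℝ) c
        have h3 : |c - ⟪b, z⟫_ℝ - c| = |⟪b, z⟫_ℝ| := by
          rw [show c - ⟪b, z⟫_ℝ - c = -⟪b, z⟫_ℝ by ring, abs_neg]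
        rw [h3] at h2
        rw [hφ]
        exact h2.trans (mul_le_mul_of_nonneg_left hz (by positivity))
    have hi2 : Integrable (fun z => C / ‖a‖ * r +
        ({z : Euc m | r < |⟪b, z⟫_ℝ|}.indicator (fun _ => (1 : ℝ)) z)) β :=
      (integrable_const _).add ((integrable_const _).indicator hms)
    have h2 := integral_mono ((hφint.sub (integrable_const _)).abs) hi2 h1
    rw [integral_add (integrable_const _) ((integrable_const _).indicator hms),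
      integral_const, integral_indicator_const _ hms] at h2
    simp only [probReal_univ, smul_eq_mul, mul_one, one_mul] at h2
    exact h2.trans (add_le_add le_rfl htail)
  have hq0 : |Fd K a c - q| ≤ ∫ z, |φ z - Fd K a c| ∂β := by
    have h1 : Fd K a c - q = ∫ z, (Fd K a c - φ z) ∂β := by
      rw [integral_sub (integrable_const _) hφint, integral_const, hq]
      simp
    rw [h1]
    refine (abs_integral_le_integral_abs).trans (le_of_eq ?_)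
    refine integral_congr_ae (ae_of_all _ fun z => ?_)
    exact abs_sub_comm _ _
  rw [hq']
  have h2 : ∀ z, |Fd K a (c - ⟪b, z⟫_ℝ) - 1 / 2| ≤
      |φ z - Fd K a c| + (|Fd K a c - q| + |q - 1 / 2|) := by
    intro z
    have e : Fd K a (c - ⟪b, z⟫_ℝ) = φ z := by rw [hφ]
    rw [e]
    calc |φ z - 1 / 2| = |(φ z - Fd K a c) + ((Fd K a c - q) + (q - 1 / 2))| := by
          congr 1
          ring
      _ ≤ |φ z - Fd K a c| + |(Fd K a c - q) + (q - 1 / 2)| := abs_add_le _ _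
      _ ≤ _ := add_le_add le_rfl (abs_add_le _ _)
  have hi1 : Integrable (fun z => |Fd K a (c - ⟪b, z⟫_ℝ) - 1 / 2|) β :=
    (hint.sub (integrable_const _)).abs
  have hi3 : Integrable (fun z => |φ z - Fd K a c|) β := (hφint.sub (integrable_const _)).abs
  have h3 : ∫ z, |Fd K a (c - ⟪b, z⟫_ℝ) - 1 / 2| ∂β ≤
      ∫ z, (|φ z - Fd K a c| + (|Fd K a c - q| + |q - 1 / 2|)) ∂β :=
    integral_mono hi1 (hi3.add (integrable_const _)) h2
  rw [integral_add hi3 (integrable_const _), integral_const] at h3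
  simp only [probReal_univ, smul_eq_mul, one_mul] at h3
  linarith

end Pool.Agent.T2h28.NB
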