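import Pool.Agent.T2h28.NB.Half

/-!
# Reduction of KLS to near-Euclidean bodies: halfspaces of the truncated parallel body, conclusion
-/

set_option autoImplicit false

namespace Pool.Agent.T2h28.NB

open MeasureTheory Set Filter Topology
open scoped ENNReal InnerProductSpace

variable {n : ℕ} {K : Set (Euc n)} {m N : ℕ} (S : Split n m N) {p : Euc n}

/-- domination of the uniform measure on the truncated parallel body -/
def Dom (K : Set (Euc n)) (ρ : ℝ) (H : Set (Euc N)) (ε' : ℝ) : Prop :=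
  ∀ T : Set (Euc n × Euc m), MeasurableSet T →
    (1 + ε')⁻¹ * ((unif K).prod (unif (Metric.closedBall (0 : Euc m) ρ))).real T ≤
      (unif H).real {x | (S.P x, S.Q x) ∈ T}

theorem Fd_hat_le {H : Set (Euc N)} (u : Euc N) (c : ℝ) :
    Fd H u c = (unif H).real {x | (S.P x, S.Q x) ∈
      {q : Euc n × Euc m | ⟪S.P u, q.1⟫_ℝ + ⟪S.Q u, q.2⟫_ℝ ≤ c}} := by
  unfold Fd
  congr 1
  ext x
  simp only [mem_ofPred_eq]
  rw [S.inner_eq]

theorem Fd_hat_incr {H : Set (Euc N)} (hH : Body H) (u : Euc N) (c ε : ℝ) (hε : 0 ≤ ε) :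
    Fd H u (c + ε) - Fd H u c = (unif H).real {x | (S.P x, S.Q x) ∈
      {q : Euc n × Euc m | c < ⟪S.P u, q.1⟫_ℝ + ⟪S.Q u, q.2⟫_ℝ ∧
        ⟪S.P u, q.1⟫_ℝ + ⟪S.Q u, q.2⟫_ℝ ≤ c + ε}} := by
  rw [Fd_sub hH u c ε hε]
  congr 1
  ext x
  simp only [mem_ofPred_eq]
  rw [S.inner_eq]

/-- the distribution function is one far to the right and zero far to the left -/
theorem exists_half {H : Set (Euc N)} (hH : Body H) (u : Euc N) (hu : ‖u‖ = 1) :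
    ∃ c₀, Fd H u c₀ = 1 / 2 := by
  have hp := hH.prob
  obtain ⟨C, hC1, hC⟩ := Fd_lip hH
  obtain ⟨R, hR⟩ := hH.comp.isBounded.subset_closedBall (0 : Euc N)
  have hu0 : u ≠ 0 := by
    intro h
    rw [h, norm_zero] at hu
    exact zero_ne_one hu
  have hcont : Continuous (Fd H u) := by
    have hL : LipschitzWith (Real.toNNReal (C / ‖u‖)) (Fd H u) := by
      refine LipschitzWith.of_dist_le_mul fun x y => ?_
      rw [Real.dist_eq, Real.dist_eq, Real.coe_toNNReal _ (by rw [hu]; linarith)]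
      exact Fd_lip' hH hC u hu0 x y
    exact hL.continuous
  have hin : ∀ y ∈ H, |⟪u, y⟫_ℝ| ≤ R := by
    intro y hy
    have h1 := hR hy
    rw [mem_closedBall_zero_iff] at h1
    refine (abs_real_inner_le_norm _ _).trans ?_
    rw [hu, one_mul]
    exact h1
  have h0 : Fd H u (-(R + 1)) = 0 := by
    unfold Fd
    rw [unif_real hH]
    have : {y : Euc N | ⟪u, y⟫_ℝ ≤ -(R + 1)} ∩ H = ∅ := by
      ext y
      simp only [mem_inter_iff, mem_ofPred_eq, mem_empty_iff_false, iff_false, not_and]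
      intro h1 h2
      have h3 := (abs_le.1 (hin y h2)).1
      linarith
    rw [this, measure_empty]
    simp
  have h1 : Fd H u (R + 1) = 1 := by
    unfold Fd
    rw [unif_real hH]
    have : {y : Euc N | ⟪u, y⟫_ℝ ≤ R + 1} ∩ H = H := by
      refine inter_eq_right.2 fun y hy => ?_
      have h3 := (abs_le.1 (hin y hy)).2
      show ⟪u, y⟫_ℝ ≤ R + 1
      linarith
    rw [this, div_self hH.real_pos.ne']
  have hR0 : -(R + 1) ≤ R + 1 := by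
    by_contra hcon
    have := (Fd_mono hH u) (not_le.1 hcon).le
    rw [h0, h1] at this
    norm_num at this
  have := intermediate_value_Icc hR0 hcont.continuousOn
  rw [h0, h1] at this
  obtain ⟨c₀, -, hc₀⟩ := this (show (1 / 2 : ℝ) ∈ Icc 0 1 by constructor <;> norm_num)
  exact ⟨c₀, hc₀⟩

/-- the mean of the distribution function along the ball is close to one half -/
theorem mean_half (h : Body K) {H : Set (Euc N)} (hH : Body H) {ρ ε' : ℝ} (hρ : 0 < ρ)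
    (hε : 0 < ε') (hd : Dom S K ρ H ε') (u : Euc N) {c₀ : ℝ} (hc₀ : Fd H u c₀ = 1 / 2) :
    |∫ z, Fd K (S.P u) (c₀ - ⟪S.Q u, z⟫_ℝ) ∂(unif (Metric.closedBall (0 : Euc m) ρ)) - 1 / 2| ≤
      ε' / 2 := by
  have := h.prob
  have := hH.prob
  have := (ball_body (m := m) hρ).prob
  rw [← prod_le h hρ]
  obtain ⟨T, hT⟩ : ∃ T : Set (Euc n × Euc m), T = {q | ⟪S.P u, q.1⟫_ℝ + ⟪S.Q u, q.2⟫_ℝ ≤ c₀} :=
    ⟨_, rfl⟩
  have hTm : MeasurableSet T := by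
    rw [hT]
    exact meas_T _ _ _
  have h1 := hd T hTm
  have h2 := hd Tᶜ hTm.compl
  have e1 : (unif H).real {x | (S.P x, S.Q x) ∈ T} = 1 / 2 := by
    rw [hT, ← Fd_hat_le, hc₀]
  have hm : MeasurableSet {x | (S.P x, S.Q x) ∈ T} :=
    (S.P_cont.prodMk S.Q_cont).measurable hTm
  have e2 : (unif H).real {x | (S.P x, S.Q x) ∈ Tᶜ} = 1 / 2 := by
    have := probReal_compl_eq_one_sub (μ := unif H) hm
    have e3 : {x | (S.P x, S.Q x) ∈ Tᶜ} = {x | (S.P x, S.Q x) ∈ T}ᶜ := rfl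
    rw [e3, this, e1]
    norm_num
  rw [e1] at h1
  rw [e2, probReal_compl_eq_one_sub hTm] at h2
  rw [← hT]
  obtain ⟨q, hq⟩ : ∃ q : ℝ, q = ((unif K).prod (unif (Metric.closedBall (0 : Euc m) ρ))).real T :=
    ⟨_, rfl⟩
  rw [← hq] at h1 h2 ⊢
  have hp : 0 < 1 + ε' := by linarith
  rw [inv_mul_le_iff₀ hp] at h1 h2
  rw [abs_le]
  constructor <;> linarith

/-- first case: the functional is almost constant on `K` -/
theorem case_one (h : Body K) {H : Set (Euc N)} (hH : Body H) {R ρ ε' r a₀ : ℝ}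
    (hR : K ⊆ Metric.closedBall p R) (hR0 : 0 ≤ R) (hρ : 0 < ρ)
    (hε : 0 < ε') (hd : Dom S K ρ H ε') (hr : 0 < r) (ha₀ : 0 ≤ a₀)
    (h45 : 4 / 5 ≤ (1 + ε')⁻¹ * (1 - 2 * Real.exp (-(m / (2 * ρ ^ 2) * r ^ 2))))
    (u : Euc N) (hu : ‖u‖ = 1) (ha : ‖S.P u‖ ≤ a₀) {c₀ : ℝ} (hc₀ : Fd H u c₀ = 1 / 2)
    (ε : ℝ) (hε0 : 0 < ε) (hεw : ε < 2 * (a₀ * R + r)) :
    1 / (10 * (a₀ * R + r)) * ε ≤ Fd H u (c₀ + ε) - Fd H u c₀ := by
  have hpK := h.prob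
  have hpH := hH.prob
  have hpB := (ball_body (m := m) hρ).prob
  have hw : 0 < a₀ * R + r := by positivity
  refine spread hH u hw hc₀ ?_ ε hε0 hεw
  have hQ : ‖S.Q u‖ ≤ 1 := by
    rw [← hu]
    exact S.norm_Q_le u
  have htail := ball_tail' hρ (S.Q u) hQ r hr.le
  obtain ⟨c₁, hc₁⟩ : ∃ c₁ : ℝ, c₁ = ⟪S.P u, p⟫_ℝ := ⟨_, rfl⟩
  -- the good set
  obtain ⟨A, hA⟩ : ∃ A : Set (Euc n × Euc m), A = K ×ˢ {z | r < |⟪S.Q u, z⟫_ℝ|}ᶜ := ⟨_, rfl⟩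
  have hms : MeasurableSet {z : Euc m | r < |⟪S.Q u, z⟫_ℝ|} := by
    have hc : Continuous fun z : Euc m => |⟪S.Q u, z⟫_ℝ| := by fun_prop
    exact measurableSet_lt measurable_const hc.measurable
  have hAm : MeasurableSet A := by
    rw [hA]
    exact h.comp.measurableSet.prod hms.compl
  have hAval : 1 - 2 * Real.exp (-(m / (2 * ρ ^ 2) * r ^ 2)) ≤
      ((unif K).prod (unif (Metric.closedBall (0 : Euc m) ρ))).real A := by
    rw [hA, measureReal_prod_prod, probReal_compl_eq_one_sub hms]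
    have : (unif K).real K = 1 := by
      rw [unif_real h, inter_self, div_self h.real_pos.ne']
    rw [this, one_mul]
    linarith
  have hAin : ∀ q ∈ A, |⟪S.P u, q.1⟫_ℝ + ⟪S.Q u, q.2⟫_ℝ - c₁| ≤ a₀ * R + r := by
    intro q hq
    rw [hA] at hq
    have h1 : ‖q.1 - p‖ ≤ R := by
      have := hR hq.1
      rwa [Metric.mem_closedBall, dist_eq_norm] at this
    have h2 : |⟪S.Q u, q.2⟫_ℝ| ≤ r := not_lt.1 hq.2
    have e : ⟪S.P u, q.1⟫_ℝ + ⟪S.Q u, q.2⟫_ℝ - c₁ = ⟪S.P u, q.1 - p⟫_ℝ + ⟪S.Q u, q.2⟫_ℝ := by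
      rw [hc₁, inner_sub_right]
      ring
    rw [e]
    refine (abs_add_le _ _).trans (add_le_add ?_ h2)
    refine (abs_real_inner_le_norm _ _).trans ?_
    exact mul_le_mul ha h1 (norm_nonneg _) ha₀
  have key : ∀ T : Set (Euc n × Euc m), MeasurableSet T → A ⊆ T →
      4 / 5 ≤ (unif H).real {x | (S.P x, S.Q x) ∈ T} := by
    intro T hT hAT
    refine h45.trans (le_trans ?_ (hd T hT))
    refine mul_le_mul_of_nonneg_left ?_ (by positivity)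
    exact hAval.trans (measureReal_mono hAT (measure_ne_top _ _))
  have hup : 4 / 5 ≤ Fd H u (c₁ + (a₀ * R + r)) := by
    rw [Fd_hat_le S]
    refine key _ (meas_T _ _ _) fun q hq => ?_
    have := (abs_le.1 (hAin q hq)).2
    show ⟪S.P u, q.1⟫_ℝ + ⟪S.Q u, q.2⟫_ℝ ≤ c₁ + (a₀ * R + r)
    linarith
  have hlow : c₁ - (a₀ * R + r) ≤ c₀ := by
    by_contra hcon
    rw [not_le] at hcon
    have h1 := key {q | ⟪S.P u, q.1⟫_ℝ + ⟪S.Q u, q.2⟫_ℝ ≤ c₀}ᶜ (meas_T _ _ _).compl (by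
      intro q hq
      have := (abs_le.1 (hAin q hq)).1
      show ¬ (⟪S.P u, q.1⟫_ℝ + ⟪S.Q u, q.2⟫_ℝ ≤ c₀)
      rw [not_le]
      linarith)
    have hm : MeasurableSet {x | (S.P x, S.Q x) ∈
        {q : Euc n × Euc m | ⟪S.P u, q.1⟫_ℝ + ⟪S.Q u, q.2⟫_ℝ ≤ c₀}} :=
      (S.P_cont.prodMk S.Q_cont).measurable (meas_T _ _ _)
    have e3 : {x | (S.P x, S.Q x) ∈ {q : Euc n × Euc m | ⟪S.P u, q.1⟫_ℝ + ⟪S.Q u, q.2⟫_ℝ ≤ c₀}ᶜ} =
        {x | (S.P x, S.Q x) ∈ {q : Euc n × Euc m | ⟪S.P u, q.1⟫_ℝ + ⟪S.Q u, q.2⟫_ℝ ≤ c₀}}ᶜ := rfl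
    rw [e3, probReal_compl_eq_one_sub hm, ← Fd_hat_le S, hc₀] at h1
    norm_num at h1
  refine hup.trans (Fd_mono hH u ?_)
  linarith

/-- second case: the functional is not constant on `K` -/
theorem case_two (h : Body K) {H : Set (Euc N)} (hH : Body H) {ρ ε' r a₀ t₀ C : ℝ}
    (hC1 : 1 ≤ C)
    (hC : ∀ u : Euc n, ‖u‖ = 1 → ∀ x η : ℝ, 0 ≤ η → Fd K u (x + η) ≤ Fd K u x + C * η)
    (hρ : 0 < ρ) (ht₀ : 0 ≤ t₀)
    (hK : ∀ u : Euc n, ‖u‖ = 1 → ∀ x, Low (unif K) {y : Euc n | ⟪u, y⟫_ℝ ≤ x}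
      (t₀ * min (Fd K u x) (1 - Fd K u x)))
    (hε : 0 < ε') (hd : Dom S K ρ H ε') (hr : 0 ≤ r) (ha₀ : 0 < a₀)
    (u : Euc N) (hu : ‖u‖ = 1) (ha : a₀ ≤ ‖S.P u‖) {c₀ : ℝ} (hc₀ : Fd H u c₀ = 1 / 2)
    (ε : ℝ) (hε0 : 0 ≤ ε)
    (hbr : 0 ≤ 1 / 2 - 2 * (C / a₀ * r + 2 * Real.exp (-(m / (2 * ρ ^ 2) * r ^ 2))) -
      ε' / 2 - C / a₀ * ε) :
    (1 + ε')⁻¹ * t₀ * (1 / 2 - 2 * (C / a₀ * r + 2 * Real.exp (-(m / (2 * ρ ^ 2) * r ^ 2))) -
      ε' / 2 - C / a₀ * ε) * ε ≤ Fd H u (c₀ + ε) - Fd H u c₀ := by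
  have hpK := h.prob
  have hpH := hH.prob
  have hpB := (ball_body (m := m) hρ).prob
  have hpos : 0 < ‖S.P u‖ := ha₀.trans_le ha
  have hane : S.P u ≠ 0 := norm_pos_iff.1 hpos
  have hP1 : ‖S.P u‖ ≤ 1 := by
    rw [← hu]
    exact S.norm_P_le u
  have hQ : ‖S.Q u‖ ≤ 1 := by
    rw [← hu]
    exact S.norm_Q_le u
  rw [Fd_hat_incr S hH u c₀ ε hε0]
  refine le_trans ?_ (hd _ (meas_T' _ _ _ _))
  rw [prod_incr h hρ _ _ _ _ hε0]
  have hmean := mean_half S h hH hρ hε hd u hc₀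
  have hdev := dev h hC1 hC hρ (S.P u) hane (S.Q u) hQ c₀ r hr
  obtain ⟨β, hβ⟩ : ∃ β : Measure (Euc m), β = unif (Metric.closedBall (0 : Euc m) ρ) := ⟨_, rfl⟩
  have hint1 := int_Fd (m := m) h hρ (S.P u) (S.Q u) c₀
  have hint2 := int_Fd (m := m) h hρ (S.P u) (S.Q u) (c₀ + ε)
  rw [← hβ] at hmean hdev hpB hint1 hint2 ⊢
  have hCa : C / ‖S.P u‖ ≤ C / a₀ := div_le_div_of_nonneg_left (by linarith) ha₀ ha
  have hpt : ∀ z : Euc m, t₀ * ε * (1 / 2 - |Fd K (S.P u) (c₀ - ⟪S.Q u, z⟫_ℝ) - 1 / 2| - C / a₀ * ε)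
      * ‖S.P u‖⁻¹ ≤
      Fd K (S.P u) (c₀ - ⟪S.Q u, z⟫_ℝ + ε) - Fd K (S.P u) (c₀ - ⟪S.Q u, z⟫_ℝ) := by
    intro z
    obtain ⟨x, hx⟩ : ∃ x : ℝ, x = c₀ - ⟪S.Q u, z⟫_ℝ := ⟨_, rfl⟩
    rw [← hx]
    refine le_trans ?_ (fin_hs' h ht₀ hK (S.P u) hane x ε hε0)
    have h1 : 1 / 2 - |Fd K (S.P u) x - 1 / 2| - C / a₀ * ε ≤
        min (Fd K (S.P u) x) (1 - Fd K (S.P u) (x + ε)) := by
      have h2 := Fd_lip' h hC (S.P u) hane (x + ε) x
      rw [add_sub_cancel_left, abs_of_nonneg hε0] at h2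
      have h3 := (abs_le.1 h2).2
      have h4 : C / ‖S.P u‖ * ε ≤ C / a₀ * ε := mul_le_mul_of_nonneg_right hCa hε0
      have h5 : 0 ≤ C / a₀ * ε := by positivity
      have h6 := le_abs_self (Fd K (S.P u) x - 1 / 2)
      have h7 := neg_abs_le (Fd K (S.P u) x - 1 / 2)
      refine le_min ?_ ?_ <;> linarith
    have h2 : 0 ≤ t₀ * ε * ‖S.P u‖⁻¹ := by positivity
    calc t₀ * ε * (1 / 2 - |Fd K (S.P u) x - 1 / 2| - C / a₀ * ε) * ‖S.P u‖⁻¹ =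
        (t₀ * ε * ‖S.P u‖⁻¹) * (1 / 2 - |Fd K (S.P u) x - 1 / 2| - C / a₀ * ε) := by ring
      _ ≤ (t₀ * ε * ‖S.P u‖⁻¹) * min (Fd K (S.P u) x) (1 - Fd K (S.P u) (x + ε)) :=
        mul_le_mul_of_nonneg_left h1 h2
      _ = _ := by ring
  have hi1 : Integrable (fun z : Euc m => |Fd K (S.P u) (c₀ - ⟪S.Q u, z⟫_ℝ) - 1 / 2|) β :=
    (hint1.sub (integrable_const _)).abs
  have hi2 : Integrable (fun z : Euc m => 1 / 2 - |Fd K (S.P u) (c₀ - ⟪S.Q u, z⟫_ℝ) - 1 / 2| -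
      C / a₀ * ε) β := ((integrable_const _).sub hi1).sub (integrable_const _)
  have hi3 : Integrable (fun z : Euc m => Fd K (S.P u) (c₀ - ⟪S.Q u, z⟫_ℝ + ε) -
      Fd K (S.P u) (c₀ - ⟪S.Q u, z⟫_ℝ)) β := by
    refine Integrable.sub ?_ hint1
    refine hint2.congr (ae_of_all _ fun z => ?_)
    simp only
    congr 1
    ring
  have hi4 : Integrable (fun z : Euc m => t₀ * ε * (1 / 2 -
      |Fd K (S.P u) (c₀ - ⟪S.Q u, z⟫_ℝ) - 1 / 2| - C / a₀ * ε) * ‖S.P u‖⁻¹) β :=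
    (hi2.const_mul _).mul_const _
  have h1 := integral_mono hi4 hi3 hpt
  have hi5 : Integrable (fun z : Euc m => 1 / 2 -
      |Fd K (S.P u) (c₀ - ⟪S.Q u, z⟫_ℝ) - 1 / 2|) β := (integrable_const _).sub hi1
  rw [integral_mul_const, integral_const_mul, integral_sub hi5
    (integrable_const _), integral_sub (integrable_const _) hi1, integral_const,
    integral_const] at h1
  simp only [probReal_univ, smul_eq_mul, one_mul] at h1
  obtain ⟨I, hI⟩ : ∃ I : ℝ, I = ∫ z, |Fd K (S.P u) (c₀ - ⟪S.Q u, z⟫_ℝ) - 1 / 2| ∂β := ⟨_, rfl⟩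
  rw [← hI] at h1 hdev
  have hdev2 : I ≤ 2 * (C / a₀ * r + 2 * Real.exp (-(m / (2 * ρ ^ 2) * r ^ 2))) + ε' / 2 := by
    have : C / ‖S.P u‖ * r ≤ C / a₀ * r := mul_le_mul_of_nonneg_right hCa hr
    linarith
  have hb : 0 ≤ t₀ * ε := by positivity
  have hinv : 1 ≤ ‖S.P u‖⁻¹ := (one_le_inv₀ hpos).2 hP1
  have hθ : 0 ≤ (1 + ε')⁻¹ := by positivity
  calc (1 + ε')⁻¹ * t₀ * (1 / 2 - 2 * (C / a₀ * r + 2 * Real.exp (-(m / (2 * ρ ^ 2) * r ^ 2))) -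
      ε' / 2 - C / a₀ * ε) * ε = (1 + ε')⁻¹ * ((t₀ * ε * (1 / 2 -
        2 * (C / a₀ * r + 2 * Real.exp (-(m / (2 * ρ ^ 2) * r ^ 2))) - ε' / 2 - C / a₀ * ε)) * 1) := by
        ring
    _ ≤ (1 + ε')⁻¹ * ((t₀ * ε * (1 / 2 - I - C / a₀ * ε)) * ‖S.P u‖⁻¹) := by
        refine mul_le_mul_of_nonneg_left ?_ hθ
        refine mul_le_mul ?_ hinv zero_le_one ?_
        · refine mul_le_mul_of_nonneg_left ?_ hb
          linarith
        · refine mul_nonneg hb ?_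
          linarith
    _ ≤ _ := mul_le_mul_of_nonneg_left h1 hθ

/-- **halfspaces of the truncated parallel body** -/
theorem half_main (h : Body K) {R t₀ t₁ : ℝ} (hR : K ⊆ Metric.closedBall p R) (hR0 : 0 ≤ R)
    (ht₁ : 0 ≤ t₁) (ht : t₁ < t₀)
    (hK : ∀ u : Euc n, ‖u‖ = 1 → ∀ x, Low (unif K) {y : Euc n | ⟪u, y⟫_ℝ ≤ x}
      (t₀ * min (Fd K u x) (1 - Fd K u x))) :
    ∃ ε₁ Λ : ℝ, 0 < ε₁ ∧ 0 < Λ ∧ ∀ (m N : ℕ) (S : Split n m N) (H : Set (Euc N)) (ρ ε' : ℝ),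
      Body H → 0 < ρ → Λ ≤ m / (2 * ρ ^ 2) → 0 < ε' → ε' ≤ ε₁ → Dom S K ρ H ε' →
      ∀ u : Euc N, ‖u‖ = 1 → ∀ x, Low (unif H) {y : Euc N | ⟪u, y⟫_ℝ ≤ x}
        (t₁ * min (Fd H u x) (1 - Fd H u x)) := by
  obtain ⟨C, hC1, hC⟩ := Fd_lip h
  have ht₀ : 0 < t₀ := ht₁.trans_lt ht
  obtain ⟨γ, hγ⟩ : ∃ γ : ℝ, γ = (t₀ - t₁) / t₀ := ⟨_, rfl⟩
  have hγ0 : 0 < γ := by
    rw [hγ]
    exact div_pos (by linarith) ht₀
  have hγ1 : γ ≤ 1 := by
    rw [hγ, div_le_one ht₀]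
    linarith
  have hγt : t₀ * (1 - γ) = t₁ := by
    rw [hγ]
    field_simp
    ring
  obtain ⟨a₀, ha₀⟩ : ∃ a₀ : ℝ, a₀ = 1 / (10 * (t₁ + 1) * (R + 1)) := ⟨_, rfl⟩
  have ha₀0 : 0 < a₀ := by
    rw [ha₀]
    positivity
  obtain ⟨r, hr⟩ : ∃ r : ℝ, r = γ * a₀ / (16 * C) := ⟨_, rfl⟩
  have hr0 : 0 < r := by
    rw [hr]
    have : 0 < C := by linarith
    positivity
  have hCr : C / a₀ * r = γ / 16 := by
    rw [hr]
    have : 0 < C := by linarith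
    field_simp
  have hra : r ≤ a₀ := by
    rw [hr, div_le_iff₀ (by linarith)]
    nlinarith
  have hw : a₀ * R + r ≤ 1 / (10 * (t₁ + 1)) := by
    have : a₀ * (R + 1) = 1 / (10 * (t₁ + 1)) := by
      rw [ha₀]
      field_simp
    rw [← this]
    linarith
  have hw0 : 0 < a₀ * R + r := by positivity
  refine ⟨γ / 10, Real.log (32 / γ) / r ^ 2 + 1, by positivity, ?_, ?_⟩
  · have : 0 ≤ Real.log (32 / γ) := Real.log_nonneg (by
      rw [le_div_iff₀ hγ0]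
      linarith)
    positivity
  intro m N S H ρ ε' hH hρ hΛ hε hε1 hd u hu x
  have hexp : 2 * Real.exp (-(m / (2 * ρ ^ 2) * r ^ 2)) ≤ γ / 16 := by
    have h1 : Real.log (32 / γ) ≤ m / (2 * ρ ^ 2) * r ^ 2 := by
      have h2 : Real.log (32 / γ) / r ^ 2 ≤ m / (2 * ρ ^ 2) := by linarith
      rwa [div_le_iff₀ (by positivity)] at h2
    have h2 : Real.exp (-(m / (2 * ρ ^ 2) * r ^ 2)) ≤ Real.exp (-Real.log (32 / γ)) :=
      Real.exp_le_exp.2 (by linarith)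
    have h3 : Real.exp (-Real.log (32 / γ)) = γ / 32 := by
      rw [Real.exp_neg, Real.exp_log (by positivity), inv_div]
    rw [h3] at h2
    linarith
  have hexp0 : 0 < Real.exp (-(m / (2 * ρ ^ 2) * r ^ 2)) := Real.exp_pos _
  have hθ : 1 - ε' ≤ (1 + ε')⁻¹ := by
    rw [← one_div, le_div_iff₀ (by linarith)]
    nlinarith
  obtain ⟨c₀, hc₀⟩ := exists_half hH u hu
  rw [low_hs hH u hu x]
  have key : ∀ κ' < t₁ / 2, ∀ᶠ ε : ℝ in 𝓝[>] 0, κ' * ε ≤ Fd H u (c₀ + ε) - Fd H u c₀ := by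
    intro κ' hκ'
    rcases le_total ‖S.P u‖ a₀ with ha | ha
    · have hsm : ∀ᶠ ε : ℝ in 𝓝[>] 0, ε < 2 * (a₀ * R + r) :=
        mem_nhdsWithin_of_mem_nhds (Iio_mem_nhds (by positivity))
      filter_upwards [self_mem_nhdsWithin, hsm] with ε hε0 hε2
      have hε0' : (0 : ℝ) < ε := hε0
      have h45 : 4 / 5 ≤ (1 + ε')⁻¹ * (1 - 2 * Real.exp (-(m / (2 * ρ ^ 2) * r ^ 2))) := by
        have h1 : (1 - ε') * (1 - 2 * Real.exp (-(m / (2 * ρ ^ 2) * r ^ 2))) ≤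
            (1 + ε')⁻¹ * (1 - 2 * Real.exp (-(m / (2 * ρ ^ 2) * r ^ 2))) :=
          mul_le_mul_of_nonneg_right hθ (by linarith)
        refine le_trans ?_ h1
        have h2 : (1 - ε') * (1 - 2 * Real.exp (-(m / (2 * ρ ^ 2) * r ^ 2))) ≥
            (1 - 1 / 10) * (1 - 1 / 16) := by
          refine mul_le_mul ?_ ?_ (by norm_num) ?_ <;> linarith
        norm_num at h2
        linarith
      have h1 := case_one S h hH hR hR0 hρ hε hd hr0 ha₀0.le h45 u hu ha hc₀ ε hε0' hε2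
      refine le_trans (mul_le_mul_of_nonneg_right ?_ hε0'.le) h1
      have h2 : t₁ / 2 ≤ 1 / (10 * (a₀ * R + r)) := by
        rw [div_le_div_iff₀ (by norm_num) (by positivity)]
        have h3 : (a₀ * R + r) * (10 * (t₁ + 1)) ≤ 1 := by
          rwa [le_div_iff₀ (by positivity)] at hw
        nlinarith
      linarith
    · by_cases hneg : κ' < 0
      · filter_upwards [self_mem_nhdsWithin] with ε hε0
        have hε0' : (0 : ℝ) < ε := hε0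
        have h1 := (Fd_mono hH u) (show c₀ ≤ c₀ + ε by linarith)
        nlinarith
      rw [not_lt] at hneg
      have ht₁0 : 0 < t₁ := by linarith
      have hsm : ∀ᶠ ε : ℝ in 𝓝[>] 0, ε < γ / (16 * (C / a₀)) :=
        mem_nhdsWithin_of_mem_nhds (Iio_mem_nhds (by
          have : 0 < C := by linarith
          positivity))
      filter_upwards [self_mem_nhdsWithin, hsm] with ε hε0 hε2
      have hε0' : (0 : ℝ) < ε := hε0
      have hCa : 0 < C / a₀ := by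
        have : 0 < C := by linarith
        positivity
      have hCε : C / a₀ * ε ≤ γ / 16 := by
        rw [lt_div_iff₀ (by positivity)] at hε2
        linarith
      have hbr : (1 - γ) / 2 + γ / 20 ≤ 1 / 2 -
          2 * (C / a₀ * r + 2 * Real.exp (-(m / (2 * ρ ^ 2) * r ^ 2))) - ε' / 2 - C / a₀ * ε := by
        rw [hCr]
        linarith
      have h1 := case_two S h hH hC1 hC hρ ht₀.le hK hε hd hr0.le ha₀0 u hu ha hc₀ ε hε0'.le
        (by linarith)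
      refine le_trans ?_ h1
      refine mul_le_mul_of_nonneg_right ?_ hε0'.le
      have h2 : t₁ / 2 ≤ (1 + ε')⁻¹ * t₀ * ((1 - γ) / 2 + γ / 20) := by
        have h3 : (1 - γ) / 2 ≤ (1 - ε') * ((1 - γ) / 2 + γ / 20) := by nlinarith
        have h4 : (1 - ε') * ((1 - γ) / 2 + γ / 20) ≤ (1 + ε')⁻¹ * ((1 - γ) / 2 + γ / 20) :=
          mul_le_mul_of_nonneg_right hθ (by linarith)
        have h5 : t₀ * ((1 - γ) / 2) ≤ t₀ * ((1 + ε')⁻¹ * ((1 - γ) / 2 + γ / 20)) :=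
          mul_le_mul_of_nonneg_left (h3.trans h4) ht₀.le
        calc t₁ / 2 = t₀ * ((1 - γ) / 2) := by
              rw [← hγt]
              ring
          _ ≤ _ := h5
          _ = _ := by ring
      have h6 : (1 + ε')⁻¹ * t₀ * ((1 - γ) / 2 + γ / 20) ≤ (1 + ε')⁻¹ * t₀ * (1 / 2 -
          2 * (C / a₀ * r + 2 * Real.exp (-(m / (2 * ρ ^ 2) * r ^ 2))) - ε' / 2 - C / a₀ * ε) :=
        mul_le_mul_of_nonneg_left hbr (by positivity)
      linarith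
  have := half_enough hH u hc₀ key x
  intro κ' hκ'
  refine this κ' (hκ'.trans_le (le_of_eq ?_))
  ring

end Pool.Agent.T2h28.NB
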