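import Pool.Agent.T2h28.NB.Lim

/-!
# Reduction of KLS to near-Euclidean bodies: the truncated parallel body
-/

set_option autoImplicit false

namespace Pool.Agent.T2h28.NB

open MeasureTheory Set Filter Topology
open scoped ENNReal InnerProductSpace

variable {n m N : ℕ} (S : Split n m N) {K : Set (Euc n)} {p : Euc n}

/-- the truncated parallel body -/
def hat (K : Set (Euc n)) (p : Euc n) (ρ ρ' : ℝ) : Set (Euc N) :=
  Metric.cthickening ρ (S.i '' K) ∩ Metric.closedBall (S.i p) ρ'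

theorem ball_sub (hp : p ∈ K) {ρ ρ' : ℝ} (h : ρ ≤ ρ') :
    Metric.closedBall (S.i p) ρ ⊆ hat S K p ρ ρ' := by
  intro x hx
  exact ⟨Metric.closedBall_subset_cthickening (mem_image_of_mem _ hp) ρ hx,
    Metric.closedBall_subset_closedBall h hx⟩

theorem sub_ball {ρ ρ' : ℝ} : hat S K p ρ ρ' ⊆ Metric.closedBall (S.i p) ρ' := inter_subset_right

theorem hat_body (h : Body K) (hp : p ∈ K) {ρ ρ' : ℝ} (hρ : 0 < ρ) (hρ' : ρ ≤ ρ') :
    Body (hat S K p ρ ρ') where
  comp := (isCompact_closedBall _ _).inter_left Metric.isClosed_cthickening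
  conv := ((h.conv.linear_image S.i.toLinearMap).cthickening ρ).inter (convex_closedBall _ _)
  int := by
    refine ⟨S.i p, ?_⟩
    rw [mem_interior]
    refine ⟨Metric.ball (S.i p) ρ, (Metric.ball_subset_closedBall).trans (ball_sub S hp hρ'),
      Metric.isOpen_ball, Metric.mem_ball_self hρ⟩

theorem hat_mem {R ρ ρ' : ℝ} (hR : K ⊆ Metric.closedBall p R) (hρ : 0 ≤ ρ) (hρ' : 0 ≤ ρ')
    (hRρ : R ^ 2 + ρ ^ 2 ≤ ρ' ^ 2) (x : Euc N) (hx : S.P x ∈ K) (hxQ : ‖S.Q x‖ ≤ ρ) :
    x ∈ hat S K p ρ ρ' := by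
  constructor
  · have h1 : x ∈ Metric.closedBall (S.i (S.P x)) ρ := by
      rw [Metric.mem_closedBall, dist_eq_norm]
      have h2 := S.norm_eq (x - S.i (S.P x))
      rw [map_sub, map_sub, S.Pi, S.Qi, sub_self, sub_zero, norm_zero] at h2
      have h3 : ‖x - S.i (S.P x)‖ ^ 2 ≤ ρ ^ 2 := by
        rw [h2]
        have := pow_le_pow_left₀ (norm_nonneg _) hxQ 2
        linarith
      exact le_of_sq_le_sq h3 hρ
    exact Metric.closedBall_subset_cthickening (mem_image_of_mem _ hx) ρ h1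
  · rw [Metric.mem_closedBall, dist_eq_norm]
    have h2 := S.norm_eq (x - S.i p)
    rw [map_sub, map_sub, S.Pi, S.Qi, sub_zero] at h2
    have h3 : ‖S.P x - p‖ ≤ R := by
      have := hR hx
      rwa [Metric.mem_closedBall, dist_eq_norm] at this
    have h4 : ‖x - S.i p‖ ^ 2 ≤ ρ' ^ 2 := by
      rw [h2]
      have h5 := pow_le_pow_left₀ (norm_nonneg _) hxQ 2
      have h6 := pow_le_pow_left₀ (norm_nonneg _) h3 2
      linarith
    exact le_of_sq_le_sq h4 hρ'

theorem hat_sub (h : Body K) {ρ ρ' : ℝ} (hρ : 0 ≤ ρ) (x : Euc N) (hx : x ∈ hat S K p ρ ρ') :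
    ‖S.Q x‖ ^ 2 ≤ ρ ^ 2 - Metric.infDist (S.P x) K ^ 2 := by
  have hc : IsCompact (S.i '' K) := h.comp.image S.i.continuous
  have h1 := hx.1
  rw [hc.cthickening_eq_biUnion_closedBall hρ] at h1
  simp only [mem_iUnion, Metric.mem_closedBall] at h1
  obtain ⟨a, ⟨b, hb, rfl⟩, hd⟩ := h1
  rw [dist_eq_norm] at hd
  have h2 := S.norm_eq (x - S.i b)
  rw [map_sub, map_sub, S.Pi, S.Qi, sub_zero] at h2
  have h3 := pow_le_pow_left₀ (norm_nonneg _) hd 2
  have h4 : Metric.infDist (S.P x) K ≤ ‖S.P x - b‖ := by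
    rw [← dist_eq_norm]
    exact Metric.infDist_le_dist_of_mem hb
  have h5 := pow_le_pow_left₀ Metric.infDist_nonneg h4 2
  linarith

theorem hat_vol (h : Body K) {ρ ρ' : ℝ} (hρ : 0 < ρ) :
    volume (hat S K p ρ ρ') ≤
      (∫⁻ y : Euc n, ENNReal.ofReal (Real.exp (-(m / (2 * ρ ^ 2) * Metric.infDist y K ^ 2)))) *
        volume (Metric.closedBall (0 : Euc m) ρ) := by
  let T : Set (Euc n × Euc m) := {q | ‖q.2‖ ^ 2 ≤ ρ ^ 2 - Metric.infDist q.1 K ^ 2}
  have hTm : MeasurableSet T := by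
    have h1 : Continuous fun q : Euc n × Euc m => ‖q.2‖ ^ 2 := by fun_prop
    have h2 : Continuous fun q : Euc n × Euc m => ρ ^ 2 - Metric.infDist q.1 K ^ 2 := by
      have : Continuous fun q : Euc n × Euc m => Metric.infDist q.1 K :=
        (Metric.continuous_infDist_pt K).comp continuous_fst
      fun_prop
    exact measurableSet_le h1.measurable h2.measurable
  calc volume (hat S K p ρ ρ') ≤ volume {x : Euc N | (S.P x, S.Q x) ∈ T} :=
        measure_mono fun x hx => hat_sub S h hρ.le x hx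
    _ = ((volume : Measure (Euc n)).prod (volume : Measure (Euc m))) T := S.vol_pre hTm
    _ = ∫⁻ y : Euc n, volume (Prod.mk y ⁻¹' T) := Measure.prod_apply hTm
    _ ≤ ∫⁻ y : Euc n, ENNReal.ofReal (Real.exp (-(m / (2 * ρ ^ 2) * Metric.infDist y K ^ 2))) *
          volume (Metric.closedBall (0 : Euc m) ρ) := by
        refine lintegral_mono fun y => ?_
        have := vol_sec (0 : Euc m) (s := Metric.infDist y K) hρ
        simp only [sub_zero] at this
        exact this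
    _ = _ := lintegral_mul_const' _ _ (isCompact_closedBall _ _).measure_lt_top.ne

/-- the ball as a probability space -/
theorem ball_body {m : ℕ} {ρ : ℝ} (hρ : 0 < ρ) : Body (Metric.closedBall (0 : Euc m) ρ) where
  comp := isCompact_closedBall _ _
  conv := convex_closedBall _ _
  int := ⟨0, by
    rw [mem_interior]
    exact ⟨Metric.ball 0 ρ, Metric.ball_subset_closedBall, Metric.isOpen_ball,
      Metric.mem_ball_self hρ⟩⟩

/-- the uniform measure on the truncated parallel body dominates a multiple of the product -/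
theorem dom (h : Body K) (hp : p ∈ K) {R ρ ρ' ε' : ℝ} (hR : K ⊆ Metric.closedBall p R)
    (hρ : 0 < ρ) (hρ' : ρ ≤ ρ') (hRρ : R ^ 2 + ρ ^ 2 ≤ ρ' ^ 2) (hε : 0 < ε')
    (hI : ∫⁻ y : Euc n, ENNReal.ofReal (Real.exp (-(m / (2 * ρ ^ 2) * Metric.infDist y K ^ 2))) ≤
      ENNReal.ofReal (1 + ε') * volume K) {T : Set (Euc n × Euc m)} (hT : MeasurableSet T) :
    (1 + ε')⁻¹ * ((unif K).prod (unif (Metric.closedBall (0 : Euc m) ρ))).real T ≤
      (unif (hat S K p ρ ρ')).real {x | (S.P x, S.Q x) ∈ T} := by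
  have hB := ball_body (m := m) hρ
  have hH := hat_body S h hp hρ hρ'
  have hv := hat_vol S (p := p) (ρ' := ρ') h hρ
  obtain ⟨B, hBe⟩ : ∃ B : Set (Euc m), B = Metric.closedBall (0 : Euc m) ρ := ⟨_, rfl⟩
  rw [← hBe] at hv hB ⊢
  have hv2 : volume (hat S K p ρ ρ') ≤ ENNReal.ofReal (1 + ε') * volume K * volume B :=
    hv.trans (mul_le_mul_left hI _)
  have hfin : ENNReal.ofReal (1 + ε') * volume K * volume B ≠ ∞ :=
    ENNReal.mul_ne_top (ENNReal.mul_ne_top ENNReal.ofReal_ne_top h.lt_top.ne) hB.lt_top.ne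
  have hv3 : (volume (hat S K p ρ ρ')).toReal ≤ (1 + ε') * (volume K).toReal * (volume B).toReal := by
    have := ENNReal.toReal_mono hfin hv2
    rwa [ENNReal.toReal_mul, ENNReal.toReal_mul, ENNReal.toReal_ofReal (by linarith)] at this
  have hprod : ((unif K).prod (unif B)) T =
      (volume K)⁻¹ * (volume B)⁻¹ *
        ((volume : Measure (Euc n)).prod (volume : Measure (Euc m))) (T ∩ K ×ˢ B) := by
    unfold unif
    rw [Measure.prod_smul_left, Measure.prod_smul_right, Measure.prod_restrict,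
      Measure.smul_apply, Measure.smul_apply, Measure.restrict_apply hT, smul_eq_mul, smul_eq_mul,
      mul_assoc]
  have hsub : {x : Euc N | (S.P x, S.Q x) ∈ T ∩ K ×ˢ B} ⊆
      {x | (S.P x, S.Q x) ∈ T} ∩ hat S K p ρ ρ' := by
    intro x hx
    refine ⟨hx.1, hat_mem S hR hρ.le (hρ.le.trans hρ') hRρ x hx.2.1 ?_⟩
    have h1 : S.Q x ∈ B := hx.2.2
    rw [hBe, mem_closedBall_zero_iff] at h1
    exact h1
  have hmT2 : MeasurableSet (T ∩ K ×ˢ B) :=
    hT.inter (h.comp.measurableSet.prod hB.comp.measurableSet)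
  have hle : ((volume : Measure (Euc n)).prod (volume : Measure (Euc m))) (T ∩ K ×ˢ B) ≤
      volume ({x | (S.P x, S.Q x) ∈ T} ∩ hat S K p ρ ρ') := by
    rw [← S.vol_pre hmT2]
    exact measure_mono hsub
  have hfin2 : volume ({x | (S.P x, S.Q x) ∈ T} ∩ hat S K p ρ ρ') ≠ ∞ :=
    ne_top_of_le_ne_top hH.lt_top.ne (measure_mono inter_subset_right)
  have hle' := ENNReal.toReal_mono hfin2 hle
  rw [unif_real hH, Measure.real, hprod, ENNReal.toReal_mul, ENNReal.toReal_mul,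
    ENNReal.toReal_inv, ENNReal.toReal_inv]
  have a1 := h.real_pos
  have a2 := hB.real_pos
  have a3 := hH.real_pos
  obtain ⟨X, hX⟩ : ∃ X : ℝ, X = (((volume : Measure (Euc n)).prod
    (volume : Measure (Euc m))) (T ∩ K ×ˢ B)).toReal := ⟨_, rfl⟩
  obtain ⟨Y, hY⟩ : ∃ Y : ℝ, Y = (volume ({x | (S.P x, S.Q x) ∈ T} ∩ hat S K p ρ ρ')).toReal :=
    ⟨_, rfl⟩
  have hX0 : 0 ≤ X := by
    rw [hX]
    exact ENNReal.toReal_nonneg
  rw [← hX, ← hY] at hle'
  rw [← hX, ← hY]
  rw [le_div_iff₀ a3]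
  have hpos : 0 < (1 + ε') * (volume K).toReal * (volume B).toReal := by positivity
  calc (1 + ε')⁻¹ * ((volume K).toReal⁻¹ * (volume B).toReal⁻¹ * X) *
        (volume (hat S K p ρ ρ')).toReal
      ≤ (1 + ε')⁻¹ * ((volume K).toReal⁻¹ * (volume B).toReal⁻¹ * X) *
        ((1 + ε') * (volume K).toReal * (volume B).toReal) := by
        refine mul_le_mul_of_nonneg_left hv3 ?_
        positivity
    _ = X := by
        field_simp
    _ ≤ Y := hle'

end Pool.Agent.T2h28.NB
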