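import Pool.Agent.T2h28.NB.Half2

/-!
# Reduction of KLS to near-Euclidean bodies: nearly isotropic near-balls
-/

set_option autoImplicit false

namespace Pool.Agent.T2h28.NB

open MeasureTheory Set Filter Topology
open scoped ENNReal InnerProductSpace

variable {n m N : ℕ} (S : Split n m N) {K : Set (Euc n)} {p : Euc n}

/-- the body `‖z‖ + τ d(y, K) ≤ ρ'`, truncated by a ball -/
def hull (K : Set (Euc n)) (p : Euc n) (τ ρ' ρ'' : ℝ) : Set (Euc N) :=
  {x | ‖S.Q x‖ + τ * Metric.infDist (S.P x) K ≤ ρ'} ∩ Metric.closedBall (S.i p) ρ''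

theorem infDist_convex (h : Body K) (x y : Euc n) (a b : ℝ) (ha : 0 ≤ a) (hb : 0 ≤ b)
    (hab : a + b = 1) :
    Metric.infDist (a • x + b • y) K ≤ a * Metric.infDist x K + b * Metric.infDist y K := by
  have hne : K.Nonempty := h.int.mono interior_subset
  obtain ⟨k, hk, hdk⟩ := h.comp.exists_infDist_eq_dist hne x
  obtain ⟨l, hl, hdl⟩ := h.comp.exists_infDist_eq_dist hne y
  rw [hdk, hdl]
  refine (Metric.infDist_le_dist_of_mem (h.conv hk hl ha hb hab)).trans ?_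
  rw [dist_eq_norm, dist_eq_norm, dist_eq_norm]
  have e : a • x + b • y - (a • k + b • l) = a • (x - k) + b • (y - l) := by
    rw [smul_sub, smul_sub]
    abel
  rw [e]
  refine (norm_add_le _ _).trans (le_of_eq ?_)
  rw [norm_smul, norm_smul, Real.norm_eq_abs, Real.norm_eq_abs, abs_of_nonneg ha, abs_of_nonneg hb]

theorem ball_sub_hull (hp : p ∈ K) {τ ρ ρ' ρ'' : ℝ} (hτ : 0 ≤ τ) (h : ρ ≤ ρ'')
    (hρ' : 0 ≤ ρ') (h1 : ρ ^ 2 * (1 + τ ^ 2) ≤ ρ' ^ 2) :
    Metric.closedBall (S.i p) ρ ⊆ hull S K p τ ρ' ρ'' := by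
  intro x hx
  refine ⟨?_, Metric.closedBall_subset_closedBall h hx⟩
  rw [Metric.mem_closedBall, dist_eq_norm] at hx
  have h2 := S.norm_eq (x - S.i p)
  rw [map_sub, map_sub, S.Pi, S.Qi, sub_zero] at h2
  have h3 : Metric.infDist (S.P x) K ≤ ‖S.P x - p‖ := by
    rw [← dist_eq_norm]
    exact Metric.infDist_le_dist_of_mem hp
  have h4 := pow_le_pow_left₀ (norm_nonneg _) hx 2
  show ‖S.Q x‖ + τ * Metric.infDist (S.P x) K ≤ ρ'
  have h5 : ‖S.Q x‖ + τ * Metric.infDist (S.P x) K ≤ ‖S.Q x‖ + τ * ‖S.P x - p‖ :=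
    add_le_add le_rfl (mul_le_mul_of_nonneg_left h3 hτ)
  refine h5.trans (le_of_sq_le_sq ?_ hρ')
  have h6 : (‖S.Q x‖ + τ * ‖S.P x - p‖) ^ 2 ≤
      (1 + τ ^ 2) * (‖S.Q x‖ ^ 2 + ‖S.P x - p‖ ^ 2) := by
    nlinarith [sq_nonneg (τ * ‖S.Q x‖ - ‖S.P x - p‖)]
  have h7 : (1 + τ ^ 2) * (‖S.Q x‖ ^ 2 + ‖S.P x - p‖ ^ 2) ≤ (1 + τ ^ 2) * ρ ^ 2 :=
    mul_le_mul_of_nonneg_left (by linarith) (by positivity)
  linarith

theorem hull_body (h : Body K) (hp : p ∈ K) {τ ρ ρ' ρ'' : ℝ} (hτ : 0 ≤ τ) (hρ0 : 0 < ρ)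
    (hρρ : ρ ≤ ρ'') (hρ' : 0 ≤ ρ') (h1 : ρ ^ 2 * (1 + τ ^ 2) ≤ ρ' ^ 2) :
    Body (hull S K p τ ρ' ρ'') where
  comp := by
    refine (isCompact_closedBall _ _).inter_left ?_
    have hc1 : Continuous fun x : Euc N => ‖S.Q x‖ := S.Q_cont.norm
    have hc2 : Continuous fun x : Euc N => Metric.infDist (S.P x) K :=
      (Metric.continuous_infDist_pt K).comp S.P_cont
    exact isClosed_le (hc1.add (continuous_const.mul hc2)) continuous_const
  conv := by
    refine Convex.inter ?_ (convex_closedBall _ _)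
    intro x hx y hy a b ha hb hab
    have hx' : ‖S.Q x‖ + τ * Metric.infDist (S.P x) K ≤ ρ' := hx
    have hy' : ‖S.Q y‖ + τ * Metric.infDist (S.P y) K ≤ ρ' := hy
    show ‖S.Q (a • x + b • y)‖ + τ * Metric.infDist (S.P (a • x + b • y)) K ≤ ρ'
    rw [map_add, map_add, map_smul, map_smul, map_smul, map_smul]
    have h2 := infDist_convex h (S.P x) (S.P y) a b ha hb hab
    have h3 : ‖a • S.Q x + b • S.Q y‖ ≤ a * ‖S.Q x‖ + b * ‖S.Q y‖ := by
      refine (norm_add_le _ _).trans (le_of_eq ?_)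
      rw [norm_smul, norm_smul, Real.norm_eq_abs, Real.norm_eq_abs, abs_of_nonneg ha,
        abs_of_nonneg hb]
    have h4 := mul_le_mul_of_nonneg_left h2 hτ
    have h5 := mul_le_mul_of_nonneg_left hx' ha
    have h6 := mul_le_mul_of_nonneg_left hy' hb
    have h7 : a * ρ' + b * ρ' = ρ' := by rw [← add_mul, hab, one_mul]
    nlinarith
  int := by
    refine ⟨S.i p, ?_⟩
    rw [mem_interior]
    exact ⟨Metric.ball (S.i p) ρ, (Metric.ball_subset_closedBall).trans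
      (ball_sub_hull S hp hτ hρρ hρ' h1), Metric.isOpen_ball, Metric.mem_ball_self hρ0⟩

theorem hull_mem {R τ ρ' ρ'' : ℝ} (hR : K ⊆ Metric.closedBall p R) (hρ'' : 0 ≤ ρ'')
    (hRρ : R ^ 2 + ρ' ^ 2 ≤ ρ'' ^ 2) (x : Euc N) (hx : S.P x ∈ K) (hxQ : ‖S.Q x‖ ≤ ρ') :
    x ∈ hull S K p τ ρ' ρ'' := by
  constructor
  · show ‖S.Q x‖ + τ * Metric.infDist (S.P x) K ≤ ρ'
    rw [Metric.infDist_zero_of_mem hx, mul_zero, add_zero]
    exact hxQ
  · rw [Metric.mem_closedBall, dist_eq_norm]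
    have h2 := S.norm_eq (x - S.i p)
    rw [map_sub, map_sub, S.Pi, S.Qi, sub_zero] at h2
    have h3 : ‖S.P x - p‖ ≤ R := by
      have := hR hx
      rwa [Metric.mem_closedBall, dist_eq_norm] at this
    have h4 : ‖x - S.i p‖ ^ 2 ≤ ρ'' ^ 2 := by
      rw [h2]
      have h5 := pow_le_pow_left₀ (norm_nonneg _) hxQ 2
      have h6 := pow_le_pow_left₀ (norm_nonneg _) h3 2
      linarith
    exact le_of_sq_le_sq h4 hρ''

/-- the region which contains the hull -/
def reg (m : ℕ) (K : Set (Euc n)) (τ ρ' : ℝ) : Set (Euc n × Euc m) :=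
  {q | ‖q.2‖ + τ * Metric.infDist q.1 K ≤ ρ'}

theorem reg_meas (τ ρ' : ℝ) : MeasurableSet (reg m K τ ρ') := by
  have h1 : Continuous fun q : Euc n × Euc m => ‖q.2‖ := by fun_prop
  have h2 : Continuous fun q : Euc n × Euc m => Metric.infDist q.1 K :=
    (Metric.continuous_infDist_pt K).comp continuous_fst
  exact measurableSet_le (h1.add (continuous_const.mul h2)).measurable measurable_const

/-- sections of the region -/
theorem sec_eq {ρ' τ d : ℝ} : {z : Euc m | ‖z‖ + τ * d ≤ ρ'} = Metric.closedBall 0 (ρ' - τ * d) := by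
  ext z
  simp only [mem_ofPred_eq, mem_closedBall_zero_iff]
  constructor <;> intro h <;> linarith

theorem vol_sec2 {ρ' s : ℝ} (hρ : 0 < ρ') :
    volume (Metric.closedBall (0 : Euc m) (ρ' - s)) ≤
      ENNReal.ofReal (Real.exp (-(m / ρ' * s))) * volume (Metric.closedBall (0 : Euc m) ρ') := by
  by_cases hs : ρ' - s < 0
  · rw [Metric.closedBall_eq_empty.2 hs, measure_empty]
    exact zero_le
  rw [not_lt] at hs
  rw [Measure.addHaar_closedBall _ _ hs, Measure.addHaar_closedBall _ _ hρ.le,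
    ← mul_assoc, ← ENNReal.ofReal_mul (Real.exp_pos _).le]
  refine mul_le_mul_left (ENNReal.ofReal_le_ofReal ?_) _
  have hfr : Module.finrank ℝ (Euc m) = m := by simp
  rw [hfr]
  have h1 : ρ' - s ≤ Real.exp (-(s / ρ')) * ρ' := by
    have h2 := Real.add_one_le_exp (-(s / ρ'))
    have h3 : (-(s / ρ') + 1) * ρ' = ρ' - s := by
      field_simp
      ring
    rw [← h3]
    exact mul_le_mul_of_nonneg_right h2 hρ.le
  calc (ρ' - s) ^ m ≤ (Real.exp (-(s / ρ')) * ρ') ^ m := pow_le_pow_left₀ hs h1 m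
    _ = Real.exp (-(m / ρ' * s)) * ρ' ^ m := by
        rw [mul_pow, ← Real.exp_nat_mul]
        congr 2
        field_simp

theorem hull_sub_reg {τ ρ' ρ'' : ℝ} (x : Euc N) (hx : x ∈ hull S K p τ ρ' ρ'') :
    (S.P x, S.Q x) ∈ reg m K τ ρ' := hx.1

theorem hull_vol {τ ρ' ρ'' : ℝ} (hρ : 0 < ρ') :
    volume (hull S K p τ ρ' ρ'') ≤
      (∫⁻ y : Euc n, ENNReal.ofReal (Real.exp (-(m / ρ' * (τ * Metric.infDist y K))))) *
        volume (Metric.closedBall (0 : Euc m) ρ') := by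
  calc volume (hull S K p τ ρ' ρ'') ≤ volume {x : Euc N | (S.P x, S.Q x) ∈ reg m K τ ρ'} :=
        measure_mono fun x hx => hx.1
    _ = ((volume : Measure (Euc n)).prod (volume : Measure (Euc m))) (reg m K τ ρ') :=
        S.vol_pre (reg_meas τ ρ')
    _ = ∫⁻ y : Euc n, volume (Prod.mk y ⁻¹' (reg m K τ ρ')) := Measure.prod_apply (reg_meas τ ρ')
    _ ≤ ∫⁻ y : Euc n, ENNReal.ofReal (Real.exp (-(m / ρ' * (τ * Metric.infDist y K)))) *
          volume (Metric.closedBall (0 : Euc m) ρ') := by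
        refine lintegral_mono fun y => ?_
        have e : Prod.mk y ⁻¹' (reg m K τ ρ') =
            Metric.closedBall (0 : Euc m) (ρ' - τ * Metric.infDist y K) :=
          sec_eq (m := m) (ρ' := ρ') (τ := τ) (d := Metric.infDist y K)
        show volume (Prod.mk y ⁻¹' (reg m K τ ρ')) ≤ _
        rw [e]
        exact vol_sec2 hρ
    _ = _ := lintegral_mul_const' _ _ (isCompact_closedBall _ _).measure_lt_top.ne

/-- domination from volumes -/
theorem dom_of (h : Body K) {ρ ε' : ℝ} (hρ : 0 < ρ) (hε : 0 < ε') {H : Set (Euc N)} (hH : Body H)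
    (hmem : ∀ x : Euc N, S.P x ∈ K → ‖S.Q x‖ ≤ ρ → x ∈ H)
    (hv : volume H ≤ ENNReal.ofReal (1 + ε') * volume K *
      volume (Metric.closedBall (0 : Euc m) ρ)) : Dom S K ρ H ε' := by
  intro T hT
  have hB := ball_body (m := m) hρ
  obtain ⟨B, hBe⟩ : ∃ B : Set (Euc m), B = Metric.closedBall (0 : Euc m) ρ := ⟨_, rfl⟩
  rw [← hBe] at hv hB ⊢
  have hfin : ENNReal.ofReal (1 + ε') * volume K * volume B ≠ ∞ :=
    ENNReal.mul_ne_top (ENNReal.mul_ne_top ENNReal.ofReal_ne_top h.lt_top.ne) hB.lt_top.ne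
  have hv3 : (volume H).toReal ≤ (1 + ε') * (volume K).toReal * (volume B).toReal := by
    have := ENNReal.toReal_mono hfin hv
    rwa [ENNReal.toReal_mul, ENNReal.toReal_mul, ENNReal.toReal_ofReal (by linarith)] at this
  have hprod : ((unif K).prod (unif B)) T =
      (volume K)⁻¹ * (volume B)⁻¹ *
        ((volume : Measure (Euc n)).prod (volume : Measure (Euc m))) (T ∩ K ×ˢ B) := by
    unfold unif
    rw [Measure.prod_smul_left, Measure.prod_smul_right, Measure.prod_restrict,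
      Measure.smul_apply, Measure.smul_apply, Measure.restrict_apply hT, smul_eq_mul, smul_eq_mul,
      mul_assoc]
  have hsub : {x : Euc N | (S.P x, S.Q x) ∈ T ∩ K ×ˢ B} ⊆
      {x | (S.P x, S.Q x) ∈ T} ∩ H := by
    intro x hx
    refine ⟨hx.1, hmem x hx.2.1 ?_⟩
    have h1 : S.Q x ∈ B := hx.2.2
    rw [hBe, mem_closedBall_zero_iff] at h1
    exact h1
  have hmT2 : MeasurableSet (T ∩ K ×ˢ B) :=
    hT.inter (h.comp.measurableSet.prod hB.comp.measurableSet)
  have hle : ((volume : Measure (Euc n)).prod (volume : Measure (Euc m))) (T ∩ K ×ˢ B) ≤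
      volume ({x | (S.P x, S.Q x) ∈ T} ∩ H) := by
    rw [← S.vol_pre hmT2]
    exact measure_mono hsub
  have hfin2 : volume ({x | (S.P x, S.Q x) ∈ T} ∩ H) ≠ ∞ :=
    ne_top_of_le_ne_top hH.lt_top.ne (measure_mono inter_subset_right)
  have hle' := ENNReal.toReal_mono hfin2 hle
  rw [unif_real hH, Measure.real, hprod, ENNReal.toReal_mul, ENNReal.toReal_mul,
    ENNReal.toReal_inv, ENNReal.toReal_inv]
  have a1 := h.real_pos
  have a2 := hB.real_pos
  have a3 := hH.real_pos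
  obtain ⟨X, hX⟩ : ∃ X : ℝ, X = (((volume : Measure (Euc n)).prod
    (volume : Measure (Euc m))) (T ∩ K ×ˢ B)).toReal := ⟨_, rfl⟩
  obtain ⟨Y, hY⟩ : ∃ Y : ℝ, Y = (volume ({x | (S.P x, S.Q x) ∈ T} ∩ H)).toReal := ⟨_, rfl⟩
  have hX0 : 0 ≤ X := by
    rw [hX]
    exact ENNReal.toReal_nonneg
  rw [← hX, ← hY] at hle'
  rw [← hX, ← hY]
  rw [le_div_iff₀ a3]
  have hpos : 0 < (1 + ε') * (volume K).toReal * (volume B).toReal := by positivity
  calc (1 + ε')⁻¹ * ((volume K).toReal⁻¹ * (volume B).toReal⁻¹ * X) * (volume H).toReal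
      ≤ (1 + ε')⁻¹ * ((volume K).toReal⁻¹ * (volume B).toReal⁻¹ * X) *
        ((1 + ε') * (volume K).toReal * (volume B).toReal) := by
        refine mul_le_mul_of_nonneg_left hv3 ?_
        positivity
    _ = X := by
        field_simp
    _ ≤ Y := hle'

/-- volume from below -/
theorem vol_ge (h : Body K) {ρ : ℝ} {H : Set (Euc N)}
    (hmem : ∀ x : Euc N, S.P x ∈ K → ‖S.Q x‖ ≤ ρ → x ∈ H) :
    volume K * volume (Metric.closedBall (0 : Euc m) ρ) ≤ volume H := by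
  have h1 : ((volume : Measure (Euc n)).prod (volume : Measure (Euc m)))
      (K ×ˢ Metric.closedBall (0 : Euc m) ρ) = volume K * volume (Metric.closedBall (0 : Euc m) ρ) :=
    Measure.prod_prod _ _
  rw [← h1, ← S.vol_pre (h.comp.measurableSet.prod (isCompact_closedBall _ _).measurableSet)]
  refine measure_mono fun x hx => hmem x hx.1 ?_
  have h2 : S.Q x ∈ Metric.closedBall (0 : Euc m) ρ := hx.2
  rwa [mem_closedBall_zero_iff] at h2

end Pool.Agent.T2h28.NB
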