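import Pool.Agent.T2h28.NB.Fin
import Pool.Agent.Y211.FF.Half

/-!
# Reduction of KLS to near-Euclidean bodies: halfspaces and variances
-/

set_option autoImplicit false

namespace Pool.Agent.T2h28.NB

open MeasureTheory Set Filter Topology
open scoped ENNReal InnerProductSpace

theorem sup_aux (a t I : ℝ≥0∞) (h : ∀ r : ℝ, 0 < r → ENNReal.ofReal r ≤ t →
    a * ENNReal.ofReal r ≤ I) : a * t ≤ I := by
  rw [mul_comm]
  refine ENNReal.mul_le_of_forall_lt fun t' ht' a' ha' => ?_
  have htop : t' ≠ ∞ := (ht'.trans_le le_top).ne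
  by_cases h0 : t' = 0
  · rw [h0, zero_mul]
    exact zero_le
  have h1 := h t'.toReal (ENNReal.toReal_pos h0 htop) (by rw [ENNReal.ofReal_toReal htop]; exact ht'.le)
  rw [ENNReal.ofReal_toReal htop] at h1
  refine le_trans ?_ h1
  rw [mul_comm]
  exact mul_le_mul_left ha'.le _

/-- from variances to halfspaces -/
theorem kls_of_klv : ∃ c₁ : ℝ, 0 < c₁ ∧ ∀ (n : ℕ) (K : Set (Euc n)), Body K → ∀ c : ℝ, 0 ≤ c →
    KLV c K → KLS (c₁ * c) K := by
  obtain ⟨C, hC, HH⟩ := Pool.Agent.Y211.FF.half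
  have hsC : 0 < Real.sqrt C := Real.sqrt_pos.2 hC
  refine ⟨1 / Real.sqrt C, by positivity, fun n K h c hc H => ?_⟩
  intro t ht A hA
  rw [mul_assoc, mul_comm t, ← mul_assoc]
  refine sup_aux _ _ _ fun r hr hrt => ?_
  have hv : ∀ u : Euc n, ‖u‖ = 1 → Vr K u ≤ (Real.sqrt C / r) ^ 2 := by
    intro u hu
    have hu0 : u ≠ 0 := by
      intro h0
      rw [h0, norm_zero] at hu
      exact zero_ne_one hu
    obtain ⟨m, hm⟩ := HH (Fin n) K h.comp h.conv h.int (unif K) rfl u (ENNReal.ofReal r) hu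
      fun b => (mul_le_mul_left hrt _).trans (ht u b hu0)
    have h1 := (mul_le_mul_right (Vr_le h u m) (ENNReal.ofReal r ^ 2)).trans hm
    rw [← ENNReal.ofReal_pow hr.le, ← ENNReal.ofReal_mul (by positivity),
      ENNReal.ofReal_le_ofReal_iff hC.le] at h1
    rw [div_pow, Real.sq_sqrt hC.le, le_div_iff₀ (by positivity)]
    linarith
  have key := H (Real.sqrt C / r) (by positivity) hv A hA
  refine le_trans (le_of_eq ?_) key
  have e : ENNReal.ofReal (c / (Real.sqrt C / r)) =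
      ENNReal.ofReal (1 / Real.sqrt C * c) * ENNReal.ofReal r := by
    rw [← ENNReal.ofReal_mul (by positivity)]
    congr 1
    field_simp
  rw [e]
  ring

end Pool.Agent.T2h28.NB
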