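import Pool.Agent.T2h28.NB.Base
import Pool.Agent.H212R2.KLS.T1

/-!
# Reduction of KLS to near-Euclidean bodies: halfspaces
-/

set_option autoImplicit false

namespace Pool.Agent.T2h28.NB

open MeasureTheory Set Filter Topology
open scoped ENNReal InnerProductSpace

/-- convex body -/
structure Body {n : ℕ} (K : Set (Euc n)) : Prop where
  comp : IsCompact K
  conv : Convex ℝ K
  int : (interior K).Nonempty

variable {n : ℕ} {K : Set (Euc n)}

theorem Body.pos (h : Body K) : 0 < volume K :=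
  (isOpen_interior.measure_pos _ h.int).trans_le (measure_mono interior_subset)

theorem Body.lt_top (h : Body K) : volume K < ∞ := h.comp.measure_lt_top

theorem Body.real_pos (h : Body K) : 0 < (volume K).toReal :=
  ENNReal.toReal_pos h.pos.ne' h.lt_top.ne

theorem Body.prob (h : Body K) : IsProbabilityMeasure (unif K) := by
  constructor
  unfold unif
  rw [Measure.smul_apply, Measure.restrict_apply_univ, smul_eq_mul,
    ENNReal.inv_mul_cancel h.pos.ne' h.lt_top.ne]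

theorem unif_apply (h : Body K) (A : Set (Euc n)) :
    unif K A = (volume K)⁻¹ * volume (A ∩ K) := by
  unfold unif
  rw [Measure.smul_apply, Measure.restrict_apply' h.comp.measurableSet, smul_eq_mul]

theorem unif_real (h : Body K) (A : Set (Euc n)) :
    (unif K).real A = (volume (A ∩ K)).toReal / (volume K).toReal := by
  rw [Measure.real, unif_apply h, ENNReal.toReal_mul, ENNReal.toReal_inv]
  field_simp

/-- the slabs of a body -/
theorem slab (h : Body K) : ∃ C : ℝ, 1 ≤ C ∧ ∀ u : Euc n, ‖u‖ = 1 → ∀ x η : ℝ, 0 ≤ η →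
    (unif K).real {y | x < ⟪u, y⟫_ℝ ∧ ⟪u, y⟫_ℝ ≤ x + η} ≤ C * η := by
  have hp := h.prob
  obtain ⟨R, hR⟩ := h.comp.isBounded.subset_closedBall (0 : Euc n)
  obtain ⟨V, hV⟩ : ∃ V : ℝ, V = (volume (Metric.closedBall (0 : Euc n) (R + 1))).toReal := ⟨_, rfl⟩
  have hVt : volume (Metric.closedBall (0 : Euc n) (R + 1)) < ∞ :=
    (isCompact_closedBall _ _).measure_lt_top
  have hKV : (volume K).toReal ≤ V := by
    rw [hV]
    refine ENNReal.toReal_mono hVt.ne (measure_mono (hR.trans ?_))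
    exact Metric.closedBall_subset_closedBall (by linarith)
  have hK0 := h.real_pos
  have hV0 : 0 < V := hK0.trans_le hKV
  refine ⟨2 * V / (volume K).toReal, ?_, ?_⟩
  · rw [le_div_iff₀ hK0]
    linarith
  intro u hu x η hη
  have hC1 : 1 ≤ 2 * V / (volume K).toReal := by
    rw [le_div_iff₀ hK0]
    linarith
  rcases eq_or_lt_of_le hη with he | hη0
  · have : {y : Euc n | x < ⟪u, y⟫_ℝ ∧ ⟪u, y⟫_ℝ ≤ x + η} = ∅ := by
      ext y
      simp only [mem_ofPred_eq, mem_empty_iff_false, iff_false, not_and, not_le]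
      intro h1
      linarith
    rw [this, measureReal_empty, ← he]
    simp
  by_cases hη1 : 1 < η
  · have h1 : (unif K).real {y | x < ⟪u, y⟫_ℝ ∧ ⟪u, y⟫_ℝ ≤ x + η} ≤ 1 := measureReal_le_one
    nlinarith
  rw [not_lt] at hη1
  obtain ⟨k, hk⟩ : ∃ k : ℕ, k = ⌊1 / η⌋₊ := ⟨_, rfl⟩
  have hinv : 1 ≤ 1 / η := by
    rw [le_div_iff₀ hη0]
    linarith
  have hk1 : 1 ≤ k := by
    rw [hk, Nat.one_le_floor_iff]
    exact hinv
  have hkR : (1 : ℝ) ≤ k := by exact_mod_cast hk1
  have hkη : (k : ℝ) * η ≤ 1 := by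
    have h1 : (k : ℝ) ≤ 1 / η := by
      rw [hk]
      exact Nat.floor_le (by positivity)
    rwa [le_div_iff₀ hη0] at h1
  have hk2 : 1 ≤ 2 * k * η := by
    have h1 : 1 / η < k + 1 := by
      rw [hk]
      exact Nat.lt_floor_add_one _
    rw [div_lt_iff₀ hη0] at h1
    nlinarith
  obtain ⟨S, hS⟩ : ∃ S : Set (Euc n), S = {y | x < ⟪u, y⟫_ℝ ∧ ⟪u, y⟫_ℝ ≤ x + η} ∩ K := ⟨_, rfl⟩
  have hmS0 : MeasurableSet {y : Euc n | x < ⟪u, y⟫_ℝ ∧ ⟪u, y⟫_ℝ ≤ x + η} := by
    have hc : Continuous fun y : Euc n => ⟪u, y⟫_ℝ := by fun_prop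
    exact (measurableSet_lt measurable_const hc.measurable).inter
      (measurableSet_le hc.measurable measurable_const)
  have hmS : MeasurableSet S := by
    rw [hS]
    exact hmS0.inter h.comp.measurableSet
  let T : ℕ → Set (Euc n) := fun j => (fun y => y + (-(j * η)) • u) ⁻¹' S
  have huu : ⟪u, u⟫_ℝ = 1 := by
    rw [real_inner_self_eq_norm_sq, hu, one_pow]
  have hmT : ∀ j, MeasurableSet (T j) := fun j => by
    have : Continuous fun y : Euc n => y + (-(j * η)) • u := by fun_prop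
    exact this.measurable hmS
  have hvT : ∀ j, volume (T j) = volume S := fun j => measure_preimage_add_right _ _ _
  have hslab : ∀ j, ∀ y ∈ T j, x + j * η < ⟪u, y⟫_ℝ ∧ ⟪u, y⟫_ℝ ≤ x + (j + 1) * η := by
    intro j y hy
    have hy' : y + (-(j * η)) • u ∈ S := hy
    rw [hS] at hy'
    have h1 := hy'.1
    simp only [mem_ofPred_eq, inner_add_right, inner_smul_right, huu] at h1
    constructor
    · linarith [h1.1]
    · linarith [h1.2]
  have hdis : (↑(Finset.range k) : Set ℕ).PairwiseDisjoint T := by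
    intro i _ j _ hij
    refine Set.disjoint_left.2 fun y hi hj => ?_
    have h1 := hslab i y hi
    have h2 := hslab j y hj
    rcases lt_or_gt_of_ne hij with hlt | hlt
    · have h3 : (i : ℝ) + 1 ≤ j := by exact_mod_cast hlt
      have h4 : ((i : ℝ) + 1) * η ≤ j * η := mul_le_mul_of_nonneg_right h3 hη
      linarith [h1.2, h2.1]
    · have h3 : (j : ℝ) + 1 ≤ i := by exact_mod_cast hlt
      have h4 : ((j : ℝ) + 1) * η ≤ i * η := mul_le_mul_of_nonneg_right h3 hη
      linarith [h2.2, h1.1]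
  have hsub : (⋃ j ∈ Finset.range k, T j) ⊆ Metric.closedBall (0 : Euc n) (R + 1) := by
    intro y hy
    simp only [mem_iUnion] at hy
    obtain ⟨j, hj, hy⟩ := hy
    have hy' : y + (-(j * η)) • u ∈ S := hy
    rw [hS] at hy'
    have h1 := hR hy'.2
    rw [mem_closedBall_zero_iff] at h1 ⊢
    have hjk : (j : ℝ) ≤ k := by
      have := Finset.mem_range.1 hj
      exact_mod_cast this.le
    have h2 : ‖((j : ℝ) * η) • u‖ ≤ 1 := by
      rw [norm_smul, hu, mul_one, Real.norm_eq_abs, abs_of_nonneg (by positivity)]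
      exact (mul_le_mul_of_nonneg_right hjk hη).trans hkη
    calc ‖y‖ = ‖(y + (-(j * η)) • u) + ((j : ℝ) * η) • u‖ := by
          congr 1
          rw [neg_smul]
          abel
      _ ≤ ‖y + (-(j * η)) • u‖ + ‖((j : ℝ) * η) • u‖ := norm_add_le _ _
      _ ≤ R + 1 := add_le_add h1 h2
  have hsum : (k : ℝ≥0∞) * volume S ≤ volume (Metric.closedBall (0 : Euc n) (R + 1)) := by
    calc (k : ℝ≥0∞) * volume S = ∑ j ∈ Finset.range k, volume (T j) := by
          simp only [hvT, Finset.sum_const, Finset.card_range, nsmul_eq_mul]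
      _ = volume (⋃ j ∈ Finset.range k, T j) := by
          rw [measure_biUnion_finset hdis fun j _ => hmT j]
      _ ≤ _ := measure_mono hsub
  have hreal : (k : ℝ) * (volume S).toReal ≤ V := by
    have := ENNReal.toReal_mono hVt.ne hsum
    rw [ENNReal.toReal_mul, ENNReal.toReal_natCast, ← hV] at this
    exact this
  rw [unif_real h, ← hS]
  have hSn : 0 ≤ (volume S).toReal := ENNReal.toReal_nonneg
  rw [div_mul_eq_mul_div, div_le_div_iff_of_pos_right hK0]
  have : (volume S).toReal ≤ 2 * k * η * (volume S).toReal := by nlinarith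
  nlinarith

/-- distribution function of a functional -/
noncomputable def Fd (K : Set (Euc n)) (u : Euc n) (x : ℝ) : ℝ := (unif K).real {y | ⟪u, y⟫_ℝ ≤ x}

theorem meas_hs (u : Euc n) (x : ℝ) : MeasurableSet {y : Euc n | ⟪u, y⟫_ℝ ≤ x} := by
  have hc : Continuous fun y : Euc n => ⟪u, y⟫_ℝ := by fun_prop
  exact measurableSet_le hc.measurable measurable_const

theorem meas_hs' (u : Euc n) (x : ℝ) : MeasurableSet {y : Euc n | ⟪u, y⟫_ℝ < x} := by
  have hc : Continuous fun y : Euc n => ⟪u, y⟫_ℝ := by fun_prop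
  exact measurableSet_lt hc.measurable measurable_const

theorem Fd_mono (h : Body K) (u : Euc n) : Monotone (Fd K u) := by
  have := h.prob
  intro x y hxy
  exact measureReal_mono (fun z hz => le_trans hz hxy) (measure_ne_top _ _)

theorem Fd_nonneg (u : Euc n) (x : ℝ) : 0 ≤ Fd K u x := measureReal_nonneg

theorem Fd_le_one (h : Body K) (u : Euc n) (x : ℝ) : Fd K u x ≤ 1 := by
  have := h.prob
  exact measureReal_le_one

theorem Fd_sub (h : Body K) (u : Euc n) (x η : ℝ) (hη : 0 ≤ η) :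
    Fd K u (x + η) - Fd K u x = (unif K).real {y | x < ⟪u, y⟫_ℝ ∧ ⟪u, y⟫_ℝ ≤ x + η} := by
  have := h.prob
  have e : {y : Euc n | x < ⟪u, y⟫_ℝ ∧ ⟪u, y⟫_ℝ ≤ x + η} =
      {y | ⟪u, y⟫_ℝ ≤ x + η} \ {y | ⟪u, y⟫_ℝ ≤ x} := by
    ext y
    simp only [mem_ofPred_eq, Set.mem_sdiff, not_le]
    exact and_comm
  have hsub : {y : Euc n | ⟪u, y⟫_ℝ ≤ x} ⊆ {y | ⟪u, y⟫_ℝ ≤ x + η} := fun y hy =>
    show ⟪u, y⟫_ℝ ≤ x + η from le_trans hy (by linarith)
  rw [e, measureReal_sdiff hsub (meas_hs u x)]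
  rfl

theorem Fd_lt (h : Body K) (u : Euc n) (hu : ‖u‖ = 1) (x : ℝ) :
    (unif K).real {y | ⟪u, y⟫_ℝ < x} = Fd K u x := by
  have := h.prob
  obtain ⟨C, hC, H⟩ := slab h
  refine le_antisymm (measureReal_mono (fun y (hy : ⟪u, y⟫_ℝ < x) =>
    show ⟪u, y⟫_ℝ ≤ x from hy.le) (measure_ne_top _ _)) ?_
  refine le_of_forall_pos_le_add fun δ hδ => ?_
  have h1 := H u hu (x - δ / C) (δ / C) (by positivity)
  have h2 := Fd_sub h u (x - δ / C) (δ / C) (by positivity)
  rw [← h2, sub_add_cancel, mul_div_cancel₀ _ (by positivity)] at h1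
  have h3 : Fd K u (x - δ / C) ≤ (unif K).real {y | ⟪u, y⟫_ℝ < x} := by
    refine measureReal_mono (fun y hy => ?_) (measure_ne_top _ _)
    have hy' : ⟪u, y⟫_ℝ ≤ x - δ / C := hy
    have : 0 < δ / C := by positivity
    show ⟪u, y⟫_ℝ < x
    linarith
  linarith

theorem thick_hs (u : Euc n) (hu : ‖u‖ = 1) (x ε : ℝ) (hε : 0 < ε) :
    Metric.thickening ε {y : Euc n | ⟪u, y⟫_ℝ ≤ x} = {y | ⟪u, y⟫_ℝ < x + ε} := by
  ext y
  rw [Metric.mem_thickening_iff]
  constructor
  · rintro ⟨z, hz, hd⟩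
    have hz' : ⟪u, z⟫_ℝ ≤ x := hz
    show ⟪u, y⟫_ℝ < x + ε
    have h1 : ⟪u, y⟫_ℝ - ⟪u, z⟫_ℝ ≤ dist y z := by
      rw [← inner_sub_right, dist_eq_norm]
      refine (real_inner_le_norm _ _).trans ?_
      rw [hu, one_mul]
    linarith
  · intro hy
    have hy' : ⟪u, y⟫_ℝ < x + ε := hy
    have huu : ⟪u, u⟫_ℝ = 1 := by
      rw [real_inner_self_eq_norm_sq, hu, one_pow]
    by_cases hyx : ⟪u, y⟫_ℝ ≤ x
    · exact ⟨y, hyx, by simpa using hε⟩
    · rw [not_le] at hyx
      refine ⟨y - (⟪u, y⟫_ℝ - x) • u, ?_, ?_⟩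
      · show ⟪u, y - (⟪u, y⟫_ℝ - x) • u⟫_ℝ ≤ x
        rw [inner_sub_right, inner_smul_right, huu]
        linarith
      · rw [dist_eq_norm, sub_sub_cancel, norm_smul, hu, mul_one, Real.norm_eq_abs,
          abs_of_pos (by linarith)]
        linarith

theorem real_thick (h : Body K) (u : Euc n) (hu : ‖u‖ = 1) (x ε : ℝ) (hε : 0 < ε) :
    (unif K).real (Metric.thickening ε {y : Euc n | ⟪u, y⟫_ℝ ≤ x}) = Fd K u (x + ε) := by
  rw [thick_hs u hu x ε hε, Fd_lt h u hu]

/-- lower bound of the boundary measure of a halfspace in terms of the distribution function -/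
theorem low_hs (h : Body K) (u : Euc n) (hu : ‖u‖ = 1) (x κ : ℝ) :
    Low (unif K) {y : Euc n | ⟪u, y⟫_ℝ ≤ x} κ ↔
      ∀ κ' < κ, ∀ᶠ ε : ℝ in 𝓝[>] 0, κ' * ε ≤ Fd K u (x + ε) - Fd K u x := by
  unfold Low
  refine forall_congr' fun κ' => forall_congr' fun _ => ?_
  refine eventually_congr ?_
  filter_upwards [self_mem_nhdsWithin] with ε hε
  rw [real_thick h u hu x ε hε]
  rfl

theorem Fd_lip (h : Body K) : ∃ C : ℝ, 1 ≤ C ∧ ∀ u : Euc n, ‖u‖ = 1 → ∀ x η : ℝ, 0 ≤ η →
    Fd K u (x + η) ≤ Fd K u x + C * η := by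
  obtain ⟨C, hC, H⟩ := slab h
  refine ⟨C, hC, fun u hu x η hη => ?_⟩
  have h1 := Fd_sub h u x η hη
  have h2 := H u hu x η hη
  linarith

/-- logarithmic concavity, in terms of volumes -/
theorem logc (h : Body K) {S : ℝ → Set (Euc n)} (hS : ∀ x, MeasurableSet (S x))
    (hc : ∀ s x y, 0 ≤ s → s ≤ 1 → ∀ a ∈ S x, ∀ b ∈ S y,
      (1 - s) • a + s • b ∈ S ((1 - s) * x + s * y)) (s x y : ℝ) (hs : 0 < s) (hs1 : s < 1) :
    (unif K).real (S x) ^ (1 - s) * (unif K).real (S y) ^ s ≤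
      (unif K).real (S ((1 - s) * x + s * y)) := by
  have hp := h.prob
  have hs1' : 0 < 1 - s := by linarith
  have hmK := h.comp.measurableSet
  have key := Pool.Agent.H212R2.KLS.PL (volume : Measure (Euc n)) s hs hs1
    ((S x ∩ K).indicator 1) ((S y ∩ K).indicator 1) ((S ((1 - s) * x + s * y) ∩ K).indicator 1)
    (measurable_one.indicator ((hS _).inter hmK)) (measurable_one.indicator ((hS _).inter hmK))
    (measurable_one.indicator ((hS _).inter hmK)) (by
      intro a b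
      by_cases ha : a ∈ S x ∩ K
      · by_cases hb : b ∈ S y ∩ K
        · have : (1 - s) • a + s • b ∈ S ((1 - s) * x + s * y) ∩ K :=
            ⟨hc s x y hs.le hs1.le a ha.1 b hb.1, h.conv ha.2 hb.2 hs1'.le hs.le (by ring)⟩
          rw [indicator_of_mem ha, indicator_of_mem hb, indicator_of_mem this]
          simp
        · rw [indicator_of_notMem hb, ENNReal.zero_rpow_of_pos hs, mul_zero]
          exact zero_le
      · rw [indicator_of_notMem ha, ENNReal.zero_rpow_of_pos hs1', zero_mul]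
        exact zero_le)
  rw [lintegral_indicator_one ((hS _).inter hmK), lintegral_indicator_one ((hS _).inter hmK),
    lintegral_indicator_one ((hS _).inter hmK)] at key
  have hfin : ∀ z, volume (S z ∩ K) ≠ ∞ := fun z =>
    ne_top_of_le_ne_top h.lt_top.ne (measure_mono inter_subset_right)
  have key2 := ENNReal.toReal_mono (hfin _) key
  rw [ENNReal.toReal_mul, ← ENNReal.toReal_rpow, ← ENNReal.toReal_rpow] at key2
  rw [unif_real h, unif_real h, unif_real h]
  have hK0 := h.real_pos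
  have hn : ∀ z, 0 ≤ (volume (S z ∩ K)).toReal := fun z => ENNReal.toReal_nonneg
  rw [Real.div_rpow (hn _) hK0.le, Real.div_rpow (hn _) hK0.le, div_mul_div_comm,
    ← Real.rpow_add hK0, sub_add_cancel, Real.rpow_one]
  exact div_le_div_of_nonneg_right key2 hK0.le

/-- four point form of logarithmic concavity -/
theorem four {G : ℝ → ℝ} (hG : ∀ x, 0 ≤ G x)
    (hlc : ∀ s x y, 0 < s → s < 1 → G x ^ (1 - s) * G y ^ s ≤ G ((1 - s) * x + s * y))
    {c d ε : ℝ} (hcd : c ≤ d) (hε : 0 < ε) : G c * G (d + ε) ≤ G (c + ε) * G d := by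
  rcases eq_or_lt_of_le hcd with rfl | hlt
  · rw [mul_comm]
  have hpos : 0 < d + ε - c := by linarith
  let s := ε / (d + ε - c)
  have hs0 : 0 < s := by positivity
  have hs1 : s < 1 := by
    rw [div_lt_one hpos]
    linarith
  have e1 : (1 - s) * c + s * (d + ε) = c + ε := by
    have : s * (d + ε - c) = ε := div_mul_cancel₀ _ hpos.ne'
    linarith
  have e2 : (1 - (1 - s)) * c + (1 - s) * (d + ε) = d := by
    have : s * (d + ε - c) = ε := div_mul_cancel₀ _ hpos.ne'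
    linarith
  have h1 := hlc s c (d + ε) hs0 hs1
  have h2 := hlc (1 - s) c (d + ε) (by linarith) (by linarith)
  rw [e1] at h1
  rw [e2, sub_sub_cancel] at h2
  have h3 := mul_le_mul h1 h2 (by have := hG c; have := hG (d + ε); positivity) (hG _)
  refine le_trans (le_of_eq ?_) h3
  have ha := hG c
  have hb := hG (d + ε)
  have e3 : G c ^ (1 - s) * G c ^ s = G c := by
    rw [← Real.rpow_add_of_nonneg ha (by linarith) hs0.le, sub_add_cancel, Real.rpow_one]
  have e4 : G (d + ε) ^ s * G (d + ε) ^ (1 - s) = G (d + ε) := by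
    rw [← Real.rpow_add_of_nonneg hb hs0.le (by linarith), add_sub_cancel, Real.rpow_one]
  calc G c * G (d + ε) = (G c ^ (1 - s) * G c ^ s) * (G (d + ε) ^ s * G (d + ε) ^ (1 - s)) := by
        rw [e3, e4]
    _ = _ := by ring

theorem Fd_logc (h : Body K) (u : Euc n) (s x y : ℝ) (hs : 0 < s) (hs1 : s < 1) :
    Fd K u x ^ (1 - s) * Fd K u y ^ s ≤ Fd K u ((1 - s) * x + s * y) := by
  refine logc h (S := fun x => {y | ⟪u, y⟫_ℝ ≤ x}) (fun x => meas_hs u x) ?_ s x y hs hs1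
  intro s x y h0 h1 a ha b hb
  have ha' : ⟪u, a⟫_ℝ ≤ x := ha
  have hb' : ⟪u, b⟫_ℝ ≤ y := hb
  show ⟪u, (1 - s) • a + s • b⟫_ℝ ≤ (1 - s) * x + s * y
  rw [inner_add_right, inner_smul_right, inner_smul_right]
  have h2 : 0 ≤ 1 - s := by linarith
  nlinarith [mul_le_mul_of_nonneg_left ha' h2, mul_le_mul_of_nonneg_left hb' h0]

theorem Fd_logc' (h : Body K) (u : Euc n) (s x y : ℝ) (hs : 0 < s) (hs1 : s < 1) :
    (1 - Fd K u x) ^ (1 - s) * (1 - Fd K u y) ^ s ≤ 1 - Fd K u ((1 - s) * x + s * y) := by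
  have hp := h.prob
  have e : ∀ x, 1 - Fd K u x = (unif K).real {y | x < ⟪u, y⟫_ℝ} := by
    intro x
    have h1 := probReal_compl_eq_one_sub (μ := unif K) (meas_hs u x)
    have h2 : {y : Euc n | ⟪u, y⟫_ℝ ≤ x}ᶜ = {y | x < ⟪u, y⟫_ℝ} := by
      ext y
      simp
    rw [h2] at h1
    exact h1.symm
  rw [e, e, e]
  have hm : ∀ x, MeasurableSet {y : Euc n | x < ⟪u, y⟫_ℝ} := fun x => by
    have hc : Continuous fun y : Euc n => ⟪u, y⟫_ℝ := by fun_prop
    exact measurableSet_lt measurable_const hc.measurable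
  refine logc h (S := fun x => {y | x < ⟪u, y⟫_ℝ}) hm ?_ s x y hs hs1
  intro s x y h0 h1 a ha b hb
  have ha' : x < ⟪u, a⟫_ℝ := ha
  have hb' : y < ⟪u, b⟫_ℝ := hb
  show (1 - s) * x + s * y < ⟪u, (1 - s) • a + s • b⟫_ℝ
  rw [inner_add_right, inner_smul_right, inner_smul_right]
  have h2 : 0 ≤ 1 - s := by linarith
  rcases eq_or_lt_of_le h0 with rfl | h0'
  · simp
    exact ha'
  · nlinarith [mul_le_mul_of_nonneg_left ha'.le h2, mul_lt_mul_of_pos_left hb' h0']

/-- halfspaces of measure one half are enough -/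
theorem half_enough (h : Body K) (u : Euc n) {c₀ κ : ℝ} (hc₀ : Fd K u c₀ = 1 / 2)
    (hκ : ∀ κ' < κ, ∀ᶠ ε : ℝ in 𝓝[>] 0, κ' * ε ≤ Fd K u (c₀ + ε) - Fd K u c₀) (c : ℝ) :
    ∀ κ' < 2 * κ * min (Fd K u c) (1 - Fd K u c), ∀ᶠ ε : ℝ in 𝓝[>] 0,
      κ' * ε ≤ Fd K u (c + ε) - Fd K u c := by
  have hmono := Fd_mono h u
  intro κ' hκ'
  have hF0 : 0 ≤ Fd K u c := Fd_nonneg u c
  have hF1 : Fd K u c ≤ 1 := Fd_le_one h u c
  by_cases hneg : κ' < 0
  · filter_upwards [self_mem_nhdsWithin] with ε hε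
    have hε' : (0 : ℝ) < ε := hε
    have h1 := hmono (show c ≤ c + ε by linarith)
    nlinarith
  rw [not_lt] at hneg
  have hm0 : 0 ≤ min (Fd K u c) (1 - Fd K u c) := le_min hF0 (by linarith)
  have hm : 0 < min (Fd K u c) (1 - Fd K u c) := by
    rcases eq_or_lt_of_le hm0 with he | hlt
    · rw [← he, mul_zero] at hκ'
      linarith
    · exact hlt
  obtain ⟨m, hm'⟩ : ∃ m, m = min (Fd K u c) (1 - Fd K u c) := ⟨_, rfl⟩
  rw [← hm'] at hκ' hm
  have h1 : κ' / (2 * m) < κ := by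
    rw [div_lt_iff₀ (by positivity)]
    linarith
  filter_upwards [hκ _ h1, self_mem_nhdsWithin] with ε h2 hε
  have hε' : (0 : ℝ) < ε := hε
  have h2' : κ' * ε ≤ 2 * m * (Fd K u (c₀ + ε) - Fd K u c₀) := by
    have h3 : κ' / (2 * m) * ε * (2 * m) ≤ (Fd K u (c₀ + ε) - Fd K u c₀) * (2 * m) :=
      mul_le_mul_of_nonneg_right h2 (by positivity)
    have h4 : κ' / (2 * m) * ε * (2 * m) = κ' * ε := by
      field_simp
    linarith
  have hd0 : 0 ≤ Fd K u (c₀ + ε) - Fd K u c₀ := by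
    have := hmono (show c₀ ≤ c₀ + ε by linarith)
    linarith
  rcases le_total c c₀ with hcc | hcc
  · have h3 := four (G := Fd K u) (fun x => Fd_nonneg u x) (fun s x y => Fd_logc h u s x y) hcc hε'
    rw [hc₀] at h3 h2' hd0
    have hmF : m ≤ Fd K u c := by
      rw [hm']
      exact min_le_left _ _
    nlinarith [mul_le_mul_of_nonneg_right hmF hd0]
  · have h3 := four (G := fun x => 1 - Fd K u x)
      (fun x => by have := Fd_le_one h u x; linarith)
      (fun s x y => Fd_logc' h u s x y) hcc hε'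
    rw [hc₀] at h3 h2' hd0
    have hmF : m ≤ 1 - Fd K u c := by
      rw [hm']
      exact min_le_right _ _
    nlinarith [mul_le_mul_of_nonneg_right hmF hd0]

/-- spread: if the distribution function increases from `1/2` to `4/5` on `[c₀, c₀ + 2 w]` -/
theorem spread (h : Body K) (u : Euc n) {c₀ w : ℝ} (hw : 0 < w) (hc₀ : Fd K u c₀ = 1 / 2)
    (h1 : 4 / 5 ≤ Fd K u (c₀ + 2 * w)) (ε : ℝ) (hε : 0 < ε) (hεw : ε < 2 * w) :
    1 / (10 * w) * ε ≤ Fd K u (c₀ + ε) - Fd K u c₀ := by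
  let s := ε / (2 * w)
  have hs0 : 0 < s := by positivity
  have hs1 : s < 1 := by
    rw [div_lt_one (by positivity)]
    exact hεw
  have h2 := Fd_logc h u s c₀ (c₀ + 2 * w) hs0 hs1
  have e1 : (1 - s) * c₀ + s * (c₀ + 2 * w) = c₀ + ε := by
    have : s * (2 * w) = ε := div_mul_cancel₀ _ (by positivity)
    linarith
  rw [e1, hc₀] at h2
  have h3 : (4 / 5 : ℝ) ^ s ≤ Fd K u (c₀ + 2 * w) ^ s := Real.rpow_le_rpow (by norm_num) h1 hs0.le
  have h4 : (1 / 2 : ℝ) ^ (1 - s) * (4 / 5 : ℝ) ^ s ≤ Fd K u (c₀ + ε) :=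
    (mul_le_mul_of_nonneg_left h3 (by positivity)).trans h2
  have h5 : (1 / 2 : ℝ) ^ (1 - s) * (4 / 5 : ℝ) ^ s = 1 / 2 * (8 / 5 : ℝ) ^ s := by
    rw [Real.rpow_sub (by norm_num), Real.rpow_one, div_mul_eq_mul_div, mul_div_assoc,
      ← Real.div_rpow (by norm_num) (by norm_num)]
    norm_num
  have h6 : 1 + 2 / 5 * s ≤ (8 / 5 : ℝ) ^ s := by
    have h7 : (8 / 5 : ℝ) ^ s = Real.exp (Real.log (8 / 5) * s) := by
      rw [Real.rpow_def_of_pos (by norm_num)]
    have h8 : 2 / 5 ≤ Real.log (8 / 5) := by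
      have h9 : Real.exp (2 / 5) ≤ 8 / 5 := by
        have := Real.exp_bound' (x := 2 / 5) (by norm_num) (by norm_num) (n := 4) (by norm_num)
        refine this.trans ?_
        norm_num [Finset.sum_range_succ, Nat.factorial]
      have := Real.log_le_log (Real.exp_pos _) h9
      rwa [Real.log_exp] at this
    rw [h7]
    have h10 := Real.add_one_le_exp (Real.log (8 / 5) * s)
    nlinarith
  have h11 : 1 / (10 * w) * ε = s / 5 := by
    show 1 / (10 * w) * ε = ε / (2 * w) / 5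
    field_simp
    ring
  rw [h11, hc₀]
  rw [h5] at h4
  linarith

end Pool.Agent.T2h28.NB
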