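import Pool.Agent.T2h28.NB.Half2

/-!
# Reduction of KLS to near-Euclidean bodies: conclusion
-/

set_option autoImplicit false

namespace Pool.Agent.T2h28.NB

open MeasureTheory Set Filter Topology
open scoped ENNReal InnerProductSpace

/-- the inequality of Kannan, Lovasz and Simonovits with constant `c` -/
def KLS {n : ℕ} (c : ℝ) (K : Set (Euc n)) : Prop :=
  ∀ t : ℝ≥0∞, (∀ (u : Euc n) (b : ℝ), u ≠ 0 →
      t * min (unif K {x | ⟪u, x⟫_ℝ ≤ b}) (1 - unif K {x | ⟪u, x⟫_ℝ ≤ b}) ≤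
        bdry (unif K) {x | ⟪u, x⟫_ℝ ≤ b}) →
    ∀ A : Set (Euc n), MeasurableSet A →
      ENNReal.ofReal c * t * min (unif K A) (1 - unif K A) ≤ bdry (unif K) A

theorem min_ofReal {n : ℕ} {K : Set (Euc n)} (h : Body K) (A : Set (Euc n)) :
    min (unif K A) (1 - unif K A) =
      ENNReal.ofReal (min ((unif K).real A) (1 - (unif K).real A)) := by
  have := h.prob
  have e : unif K A = ENNReal.ofReal ((unif K).real A) := (ofReal_measureReal).symm
  rw [e, ← ENNReal.ofReal_one, ← ENNReal.ofReal_sub _ measureReal_nonneg]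
  exact (ENNReal.ofReal_min _ _).symm

/-- the inequality for sets, in real numbers, from the one for halfspaces -/
theorem KLS.low {N : ℕ} {H : Set (Euc N)} (hH : Body H) {c t₁ : ℝ} (hc : 0 ≤ c) (ht : 0 ≤ t₁)
    (hk : KLS c H) (hs : ∀ u : Euc N, ‖u‖ = 1 → ∀ x, Low (unif H) {y : Euc N | ⟪u, y⟫_ℝ ≤ x}
        (t₁ * min (Fd H u x) (1 - Fd H u x))) (A : Set (Euc N)) (hA : MeasurableSet A) :
    Low (unif H) A (c * t₁ * min ((unif H).real A) (1 - (unif H).real A)) := by
  have hp := hH.prob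
  have key := hk (ENNReal.ofReal t₁) (by
    intro u b hu
    have hpos : 0 < ‖u‖ := norm_pos_iff.2 hu
    have hset : {x : Euc N | ⟪u, x⟫_ℝ ≤ b} = {x | ⟪‖u‖⁻¹ • u, x⟫_ℝ ≤ ‖u‖⁻¹ * b} := by
      ext x
      show ⟪u, x⟫_ℝ ≤ b ↔ ⟪‖u‖⁻¹ • u, x⟫_ℝ ≤ ‖u‖⁻¹ * b
      rw [inner_smul_left]
      simp only [conj_trivial]
      exact (mul_le_mul_iff_right₀ (by positivity)).symm
    rw [hset, min_ofReal hH, ← ENNReal.ofReal_mul ht]
    exact bdry_of_low (hs _ (norm_unit u hu) _)) A hA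
  rw [min_ofReal hH, ← ENNReal.ofReal_mul hc, ← ENNReal.ofReal_mul (by positivity)] at key
  exact low_of_bdry key

theorem thick_un {X : Type*} [NormedAddCommGroup X] [NormedSpace ℝ X] (A : Set X) {r η : ℝ}
    (hr : 0 ≤ r) (hη : 0 < η) :
    Metric.thickening η (A ∪ Metric.thickening r A) = A ∪ Metric.thickening (r + η) A := by
  have h2 : A ⊆ Metric.thickening (r + η) A := Metric.self_subset_thickening (by linarith) A
  rw [union_eq_self_of_subset_left h2]
  rcases eq_or_lt_of_le hr with rfl | hr0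
  · rw [Metric.thickening_of_nonpos le_rfl, union_empty, zero_add]
  · have h1 : A ⊆ Metric.thickening r A := Metric.self_subset_thickening hr0 A
    rw [union_eq_self_of_subset_left h1, thickening_thickening hη hr0, add_comm]

/-- finite form of the inequality for cylinders -/
theorem cyl_fin {n m N : ℕ} (S : Split n m N) {H : Set (Euc N)} (hH : Body H) {κ₀ : ℝ}
    (hκ : 0 ≤ κ₀)
    (hs : ∀ A : Set (Euc N), MeasurableSet A →
      Low (unif H) A (κ₀ * min ((unif H).real A) (1 - (unif H).real A)))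
    (A : Set (Euc n)) (hA : MeasurableSet A) (ε : ℝ) (hε : 0 < ε) :
    κ₀ * min ((unif H).real (S.cyl A)) (1 - (unif H).real (S.cyl (Metric.thickening ε A))) * ε ≤
      (unif H).real (S.cyl (Metric.thickening ε A)) - (unif H).real (S.cyl A) := by
  have hp := hH.prob
  let φ : ℝ → ℝ := fun r => (unif H).real (S.cyl (A ∪ Metric.thickening r A))
  have hm : ∀ r s, 0 ≤ r → r ≤ s → s ≤ ε → φ r ≤ φ s := by
    intro r s _ hrs _
    refine measureReal_mono (fun x hx => ?_) (measure_ne_top _ _)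
    exact union_subset_union_right A (Metric.thickening_mono hrs A) hx
  have e0 : φ 0 = (unif H).real (S.cyl A) := by
    show (unif H).real (S.cyl (A ∪ Metric.thickening 0 A)) = _
    rw [Metric.thickening_of_nonpos le_rfl, union_empty]
  have e1 : φ ε = (unif H).real (S.cyl (Metric.thickening ε A)) := by
    show (unif H).real (S.cyl (A ∪ Metric.thickening ε A)) = _
    rw [union_eq_self_of_subset_left (Metric.self_subset_thickening hε A)]
  rw [← e0, ← e1]
  refine dini hε.le hm ?_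
  intro r hr hrε κ' hκ'
  have hmeas : MeasurableSet (S.cyl (A ∪ Metric.thickening r A)) :=
    S.meas_cyl (hA.union Metric.isOpen_thickening.measurableSet)
  have h1 := hs _ hmeas κ' (hκ'.trans_le (by
    refine mul_le_mul_of_nonneg_left (min_le_min (hm 0 r le_rfl hr hrε.le) ?_) hκ
    have := hm r ε hr hrε.le le_rfl
    linarith))
  filter_upwards [h1, self_mem_nhdsWithin] with η h2 hη
  rw [S.thick_cyl, thick_un A hr hη] at h2
  exact h2

/-- from truncated parallel bodies to `K`: one set, finite form -/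
theorem base_fin {n : ℕ} {K : Set (Euc n)} (h : Body K) {m N : ℕ} (S : Split n m N)
    {H : Set (Euc N)} (hH : Body H) {κ₀ ρ ε' : ℝ} (hκ : 0 ≤ κ₀) (hρ : 0 < ρ) (hε' : 0 < ε')
    (hd : Dom S K ρ H ε')
    (hs : ∀ A : Set (Euc N), MeasurableSet A →
      Low (unif H) A (κ₀ * min ((unif H).real A) (1 - (unif H).real A)))
    (A : Set (Euc n)) (hA : MeasurableSet A) (ε : ℝ) (hε : 0 < ε) :
    κ₀ * min ((unif K).real A) (1 - (unif K).real (Metric.thickening ε A)) * ε ≤
      (unif K).real (Metric.thickening ε A) - (unif K).real A + ε' := by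
  have hpK := h.prob
  have hpH := hH.prob
  have hpB := (ball_body (m := m) hρ).prob
  have key := cyl_fin S hH hκ hs A hA ε hε
  have hdom : ∀ B : Set (Euc n), MeasurableSet B →
      (1 + ε')⁻¹ * (unif K).real B ≤ (unif H).real (S.cyl B) := by
    intro B hB
    have h1 := hd (B ×ˢ univ) (hB.prod MeasurableSet.univ)
    rw [measureReal_prod_prod, probReal_univ, mul_one] at h1
    refine h1.trans (le_of_eq ?_)
    congr 1
    ext x
    simp [Split.cyl]
  have hT : MeasurableSet (Metric.thickening ε A) := Metric.isOpen_thickening.measurableSet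
  have h1 := hdom A hA
  have h2 := hdom (Metric.thickening ε A)ᶜ hT.compl
  have e : S.cyl (Metric.thickening ε A)ᶜ = (S.cyl (Metric.thickening ε A))ᶜ := rfl
  rw [e, probReal_compl_eq_one_sub hT, probReal_compl_eq_one_sub (S.meas_cyl hT)] at h2
  have hθ : 0 < (1 + ε')⁻¹ := by positivity
  have h3 : (1 + ε')⁻¹ * min ((unif K).real A) (1 - (unif K).real (Metric.thickening ε A)) ≤
      min ((unif H).real (S.cyl A)) (1 - (unif H).real (S.cyl (Metric.thickening ε A))) := by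
    refine le_min ?_ ?_
    · exact (mul_le_mul_of_nonneg_left (min_le_left _ _) hθ.le).trans h1
    · exact (mul_le_mul_of_nonneg_left (min_le_right _ _) hθ.le).trans h2
  have h4 : κ₀ * ((1 + ε')⁻¹ * min ((unif K).real A)
      (1 - (unif K).real (Metric.thickening ε A))) * ε ≤
      1 - (1 + ε')⁻¹ * (1 - (unif K).real (Metric.thickening ε A)) -
        (1 + ε')⁻¹ * (unif K).real A := by
    have h5 := mul_le_mul_of_nonneg_right (mul_le_mul_of_nonneg_left h3 hκ) hε.le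
    linarith
  have h6 := mul_le_mul_of_nonneg_left h4 (show 0 ≤ 1 + ε' by linarith)
  have e2 : (1 + ε') * (κ₀ * ((1 + ε')⁻¹ * min ((unif K).real A)
      (1 - (unif K).real (Metric.thickening ε A))) * ε) =
      κ₀ * min ((unif K).real A) (1 - (unif K).real (Metric.thickening ε A)) * ε := by
    field_simp
  have e3 : (1 + ε') * (1 - (1 + ε')⁻¹ * (1 - (unif K).real (Metric.thickening ε A)) -
        (1 + ε')⁻¹ * (unif K).real A) =
      (unif K).real (Metric.thickening ε A) - (unif K).real A + ε' := by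
    field_simp
    ring
  rw [e2, e3] at h6
  exact h6

/-- from the finite form to the boundary measure -/
theorem low_of_fin {n : ℕ} {K : Set (Euc n)} (h : Body K) {κ₀ : ℝ} (hκ : 0 ≤ κ₀)
    (A : Set (Euc n)) (hA : MeasurableSet A)
    (hf : ∀ ε : ℝ, 0 < ε →
      κ₀ * min ((unif K).real A) (1 - (unif K).real (Metric.thickening ε A)) * ε ≤
      (unif K).real (Metric.thickening ε A) - (unif K).real A) :
    Low (unif K) A (κ₀ * min ((unif K).real A) (1 - (unif K).real A)) := by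
  have hp := h.prob
  intro κ' hκ'
  have ht : Tendsto (fun ε : ℝ => (unif K).real (Metric.thickening ε A)) (𝓝[>] 0)
      (𝓝 ((unif K).real (closure A))) :=
    (ENNReal.tendsto_toReal (measure_ne_top _ _)).comp
      (tendsto_measure_thickening ⟨1, one_pos, measure_ne_top _ _⟩)
  have hle : (unif K).real A ≤ (unif K).real (closure A) :=
    measureReal_mono subset_closure (measure_ne_top _ _)
  rcases eq_or_lt_of_le hle with he | hlt
  · rw [← he] at ht
    have h1 : Tendsto (fun ε : ℝ => κ₀ * min ((unif K).real A)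
        (1 - (unif K).real (Metric.thickening ε A))) (𝓝[>] 0)
        (𝓝 (κ₀ * min ((unif K).real A) (1 - (unif K).real A))) :=
      (tendsto_const_nhds.min (tendsto_const_nhds.sub ht)).const_mul κ₀
    filter_upwards [h1.eventually_const_lt hκ', self_mem_nhdsWithin] with ε h2 hε
    have hε' : (0 : ℝ) < ε := hε
    exact (mul_le_mul_of_nonneg_right h2.le hε'.le).trans (hf ε hε')
  · have hd : 0 < (unif K).real (closure A) - (unif K).real A := by linarith
    have hsm : ∀ᶠ ε : ℝ in 𝓝[>] 0,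
        ε < ((unif K).real (closure A) - (unif K).real A) / (|κ'| + 1) :=
      mem_nhdsWithin_of_mem_nhds (Iio_mem_nhds (by positivity))
    filter_upwards [hsm, self_mem_nhdsWithin] with ε h2 hε
    have hε' : (0 : ℝ) < ε := hε
    rw [lt_div_iff₀ (by positivity)] at h2
    have h3 : (unif K).real (closure A) ≤ (unif K).real (Metric.thickening ε A) :=
      measureReal_mono (Metric.closure_subset_thickening hε' A) (measure_ne_top _ _)
    have h4 : κ' * ε ≤ |κ'| * ε := mul_le_mul_of_nonneg_right (le_abs_self _) hε'.le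
    nlinarith

/-- existence of the truncated parallel bodies -/
theorem exists_hat {n : ℕ} {K : Set (Euc n)} (h : Body K) {p : Euc n} (hp : p ∈ K) {R : ℝ}
    (hR : K ⊆ Metric.closedBall p R) (hR0 : 0 < R) {D : ℕ → ℝ} (hD : ¬ BddAbove (range D))
    {ε' : ℝ} (hε : 0 < ε') (Λ : ℝ) :
    ∃ (m N : ℕ) (S : Split n m N) (ρ : ℝ), 0 < ρ ∧ 0 ≤ D N ∧ Λ ≤ m / (2 * ρ ^ 2) ∧
      Body (hat S K p ρ ((1 + D N / N) * ρ)) ∧
      Dom S K ρ (hat S K p ρ ((1 + D N / N) * ρ)) ε' := by
  obtain ⟨Λ₁, hΛ₁, hL⟩ := lim_out h hε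
  obtain ⟨Λ', hΛ'⟩ : ∃ Λ' : ℝ, Λ' = max (max Λ Λ₁) 1 := ⟨_, rfl⟩
  have hΛ'1 : 1 ≤ Λ' := by rw [hΛ']; exact le_max_right _ _
  have hΛ'2 : Λ ≤ Λ' := by rw [hΛ']; exact (le_max_left _ _).trans (le_max_left _ _)
  have hΛ'3 : Λ₁ ≤ Λ' := by rw [hΛ']; exact (le_max_right _ _).trans (le_max_left _ _)
  obtain ⟨N, hN, hDN⟩ : ∃ N : ℕ, 2 * n + 1 ≤ N ∧ 2 * R ^ 2 * Λ' ≤ D N := by
    by_contra hcon
    push Not at hcon
    apply hD
    obtain ⟨M, hM⟩ := ((Finset.range (2 * n + 1)).image D).bddAbove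
    refine ⟨max M (2 * R ^ 2 * Λ'), ?_⟩
    rintro _ ⟨k, rfl⟩
    by_cases hk : 2 * n + 1 ≤ k
    · exact (hcon k hk).le.trans (le_max_right _ _)
    · refine le_trans (hM ?_) (le_max_left _ _)
      simp only [Finset.coe_image, Finset.coe_range, mem_image, mem_Iio]
      exact ⟨k, by omega, rfl⟩
  obtain ⟨m, hm⟩ : ∃ m : ℕ, n + m = N := ⟨N - n, by omega⟩
  obtain ⟨S⟩ := exists_split n m N hm
  have hDpos : 0 < D N := lt_of_lt_of_le (by positivity) hDN
  have hNpos : (0 : ℝ) < N := by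
    have : 0 < N := by omega
    exact_mod_cast this
  obtain ⟨ρ, hρe⟩ : ∃ ρ : ℝ, ρ = Real.sqrt (N * R ^ 2 / (2 * D N)) := ⟨_, rfl⟩
  have hρ2 : ρ ^ 2 = N * R ^ 2 / (2 * D N) := by
    rw [hρe, Real.sq_sqrt (by positivity)]
  have hρ : 0 < ρ := by
    rw [hρe]
    exact Real.sqrt_pos.2 (by positivity)
  have hmN : (N : ℝ) ≤ 2 * m := by
    have : N ≤ 2 * m := by omega
    exact_mod_cast this
  have hl : Λ' ≤ m / (2 * ρ ^ 2) := by
    rw [hρ2, le_div_iff₀ (by positivity)]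
    have h1 : Λ' * (2 * (N * R ^ 2 / (2 * D N))) = (2 * R ^ 2 * Λ') * N / (2 * D N) := by
      field_simp
    rw [h1, div_le_iff₀ (by positivity)]
    have h2 : 2 * R ^ 2 * Λ' * N ≤ D N * (2 * m) := by
      have h3 : 0 ≤ (m : ℝ) := Nat.cast_nonneg _
      calc 2 * R ^ 2 * Λ' * N ≤ D N * N := mul_le_mul_of_nonneg_right hDN hNpos.le
        _ ≤ D N * (2 * m) := mul_le_mul_of_nonneg_left hmN hDpos.le
    linarith
  have hδ : 0 ≤ D N / N := by positivity
  have hρρ : ρ ≤ (1 + D N / N) * ρ := by nlinarith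
  have hRρ : R ^ 2 + ρ ^ 2 ≤ ((1 + D N / N) * ρ) ^ 2 := by
    have h1 : 2 * (D N / N) * ρ ^ 2 = R ^ 2 := by
      rw [hρ2]
      field_simp
    have h2 : ((1 + D N / N) * ρ) ^ 2 = ρ ^ 2 + 2 * (D N / N) * ρ ^ 2 + (D N / N) ^ 2 * ρ ^ 2 := by
      ring
    rw [h2, h1]
    have : 0 ≤ (D N / N) ^ 2 * ρ ^ 2 := by positivity
    linarith
  refine ⟨m, N, S, ρ, hρ, hDpos.le, hΛ'2.trans hl, hat_body S h hp hρ hρρ, ?_⟩
  intro T hT
  exact dom S h hp hR hρ hρρ hRρ hε (hL _ (hΛ'3.trans hl)) hT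

/-- **Core of the reduction.** If KLS holds with constant `c` for the truncated parallel bodies of all
isometric copies of `K` then it holds with the same constant for `K`. -/
theorem core {n : ℕ} {K : Set (Euc n)} (h : Body K) {p : Euc n} (hp : p ∈ K) {D : ℕ → ℝ}
    (hD : ¬ BddAbove (range D)) (c : ℝ)
    (H : ∀ (N : ℕ) (i : Euc n →ₗᵢ[ℝ] Euc N) (r : ℝ), 0 < r → 0 ≤ D N →
      KLS c (Metric.cthickening r (i '' K) ∩ Metric.closedBall (i p) ((1 + D N / N) * r))) :
    KLS c K := by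
  have hprob := h.prob
  by_cases hc : c ≤ 0
  · intro t _ A _
    rw [ENNReal.ofReal_of_nonpos hc, zero_mul, zero_mul]
    exact zero_le
  rw [not_le] at hc
  obtain ⟨R₀, hR₀⟩ := h.comp.isBounded.subset_closedBall p
  obtain ⟨R, hR1, hR0⟩ : ∃ R : ℝ, R₀ ≤ R ∧ 0 < R := ⟨max R₀ 1, le_max_left _ _, by positivity⟩
  have hR : K ⊆ Metric.closedBall p R := hR₀.trans (Metric.closedBall_subset_closedBall hR1)
  intro t ht A hA
  rw [mul_comm (ENNReal.ofReal c) t, mul_assoc]
  refine ENNReal.mul_le_of_forall_lt fun t₁' ht₁ m' hm' => ?_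
  have ht₁top : t₁' ≠ ∞ := (ht₁.trans_le le_top).ne
  obtain ⟨t₁, ht₁0, ht₁e⟩ : ∃ t₁ : ℝ, 0 ≤ t₁ ∧ ENNReal.ofReal t₁ = t₁' :=
    ⟨t₁'.toReal, ENNReal.toReal_nonneg, ENNReal.ofReal_toReal ht₁top⟩
  obtain ⟨t₀, ht₀0, ht₀1, ht₀2⟩ : ∃ t₀ : ℝ, 0 ≤ t₀ ∧ t₁ < t₀ ∧ ENNReal.ofReal t₀ ≤ t := by
    obtain ⟨q, hq, h1, h2⟩ := ENNReal.lt_iff_exists_real_btwn.1 ht₁
    refine ⟨q, hq, ?_, h2.le⟩
    rw [← ht₁e] at h1
    exact (ENNReal.ofReal_lt_ofReal_iff_of_nonneg ht₁0).1 h1
  have hK : ∀ u : Euc n, ‖u‖ = 1 → ∀ x, Low (unif K) {y : Euc n | ⟪u, y⟫_ℝ ≤ x}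
      (t₀ * min (Fd K u x) (1 - Fd K u x)) := by
    intro u hu x
    have hu0 : u ≠ 0 := by
      intro h0
      rw [h0, norm_zero] at hu
      exact zero_ne_one hu
    have h1 := (mul_le_mul_left ht₀2 _).trans (ht u x hu0)
    rw [min_ofReal h, ← ENNReal.ofReal_mul ht₀0] at h1
    exact low_of_bdry h1
  obtain ⟨ε₁, Λ, hε₁, hΛ, hmain⟩ := half_main h hR hR0.le ht₁0 ht₀1 hK
  have hfin : ∀ ε : ℝ, 0 < ε →
      c * t₁ * min ((unif K).real A) (1 - (unif K).real (Metric.thickening ε A)) * ε ≤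
      (unif K).real (Metric.thickening ε A) - (unif K).real A := by
    intro ε hε
    refine le_of_forall_pos_le_add fun ε₂ hε₂ => ?_
    obtain ⟨m, N, S, ρ, hρ, hDN, hl, hB, hd⟩ := exists_hat h hp hR hR0 hD
      (ε' := min ε₁ ε₂) (lt_min hε₁ hε₂) Λ
    have h1 := hmain m N S _ ρ (min ε₁ ε₂) hB hρ hl (lt_min hε₁ hε₂) (min_le_left _ _) hd
    have h2 := H N S.i ρ hρ hDN
    have h3 := fun (A : Set (Euc N)) (hA : MeasurableSet A) =>
      KLS.low hB hc.le ht₁0 h2 h1 A hA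
    have h4 := base_fin h S hB (κ₀ := c * t₁) (by positivity) hρ (lt_min hε₁ hε₂) hd h3 A hA ε hε
    exact h4.trans (add_le_add le_rfl (min_le_right _ _))
  have hlow := low_of_fin h (κ₀ := c * t₁) (by positivity) A hA hfin
  have hb := bdry_of_low hlow
  refine le_trans ?_ hb
  have e : ENNReal.ofReal (c * t₁ * min ((unif K).real A) (1 - (unif K).real A)) =
      t₁' * (ENNReal.ofReal c * min (unif K A) (1 - unif K A)) := by
    rw [min_ofReal h, ← ht₁e, ← ENNReal.ofReal_mul hc.le, ← ENNReal.ofReal_mul ht₁0]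
    congr 1
    ring
  rw [e]
  exact mul_le_mul_right hm'.le _

end Pool.Agent.T2h28.NB
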