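import Pool.Agent.T2h28.NB.Var
import Pool.Agent.T2h28.NB.Main

/-!
# Reduction of KLS to near-Euclidean bodies: nearly isotropic bodies
-/

set_option autoImplicit false

namespace Pool.Agent.T2h28.NB

open MeasureTheory Set Filter Topology
open scoped ENNReal InnerProductSpace

variable {n m N : ℕ} {K : Set (Euc n)} {p : Euc n}

/-- the inequality of Kannan, Lovasz and Simonovits in terms of the largest variance -/
def KLV {n : ℕ} (c : ℝ) (K : Set (Euc n)) : Prop :=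
  ∀ s : ℝ, 0 < s → (∀ u : Euc n, ‖u‖ = 1 → Vr K u ≤ s ^ 2) →
    ∀ A : Set (Euc n), MeasurableSet A →
      ENNReal.ofReal (c / s) * min (unif K A) (1 - unif K A) ≤ bdry (unif K) A

/-- isotropic up to the factor `1 + ε` -/
def NIso {n : ℕ} (ε : ℝ) (K : Set (Euc n)) : Prop :=
  ∃ v : ℝ, 0 < v ∧ ∀ u : Euc n, ‖u‖ = 1 → v ≤ Vr K u ∧ Vr K u ≤ (1 + ε) * v

/-- existence of the hulls -/
theorem exists_hull (h : Body K) (hp : p ∈ K) {R : ℝ}
    (hR : K ⊆ Metric.closedBall p R) (hR0 : 0 < R) {σ2 : ℝ} (hσ : 0 < σ2)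
    (hiso : ∀ a : Euc n, Vr K a = ‖a‖ ^ 2 * σ2) {D : ℕ → ℝ} (hD : ¬ BddAbove (range D))
    {ε' : ℝ} (hε : 0 < ε') :
    ∃ (m N : ℕ) (S : Split n m N) (τ ρ ρ' : ℝ), 0 < ρ ∧ 0 < ρ' ∧ 0 ≤ D N ∧ 0 ≤ τ ∧
      Body (hull S K p τ ρ' ((1 + D N / N) * ρ)) ∧
      Metric.closedBall (S.i p) ρ ⊆ hull S K p τ ρ' ((1 + D N / N) * ρ) ∧
      Dom S K ρ' (hull S K p τ ρ' ((1 + D N / N) * ρ)) ε' ∧
      ∀ u : Euc N, ‖u‖ = 1 → (1 + ε')⁻¹ * σ2 ≤ Vr (hull S K p τ ρ' ((1 + D N / N) * ρ)) u ∧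
        Vr (hull S K p τ ρ' ((1 + D N / N) * ρ)) u ≤ σ2 + ε' := by
  obtain ⟨Λ, hΛ0, hΛ⟩ := lim_w h hp hR (C := (1 + R) ^ 2 + σ2) (by positivity) hε
  obtain ⟨N, hN, hDN⟩ : ∃ N : ℕ, 2 * n + 2 ≤ N ∧
      max (2 * R ^ 2 / σ2) (2 * Λ ^ 2 * (R ^ 2 + 8 * σ2)) ≤ D N := by
    by_contra hcon
    push Not at hcon
    apply hD
    obtain ⟨M, hM⟩ := ((Finset.range (2 * n + 2)).image D).bddAbove
    refine ⟨max M (max (2 * R ^ 2 / σ2) (2 * Λ ^ 2 * (R ^ 2 + 8 * σ2))), ?_⟩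
    rintro _ ⟨k, rfl⟩
    by_cases hk : 2 * n + 2 ≤ k
    · exact (hcon k hk).le.trans (le_max_right _ _)
    · refine le_trans (hM ?_) (le_max_left _ _)
      simp only [Finset.coe_image, Finset.coe_range, mem_image, mem_Iio]
      exact ⟨k, by omega, rfl⟩
  have hD1 : 2 * R ^ 2 / σ2 ≤ D N := (le_max_left _ _).trans hDN
  have hD2 : 2 * Λ ^ 2 * (R ^ 2 + 8 * σ2) ≤ D N := (le_max_right _ _).trans hDN
  have hDpos : 0 < D N := lt_of_lt_of_le (by positivity) hD1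
  obtain ⟨m, hm⟩ : ∃ m : ℕ, n + m = N := ⟨N - n, by omega⟩
  have hm1 : 1 ≤ m := by omega
  obtain ⟨S⟩ := exists_split n m N hm
  have hmpos : (0 : ℝ) < m := by exact_mod_cast hm1
  have hNpos : (0 : ℝ) < N := by
    have : 0 < N := by omega
    exact_mod_cast this
  have hmN : (N : ℝ) ≤ 2 * m := by
    have : N ≤ 2 * m := by omega
    exact_mod_cast this
  have hv1 := vm_le hm1
  have hv2 := vm_ge hm1
  have hv0 : 0 < vm m := lt_of_lt_of_le (by positivity) hv2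
  -- the radii
  obtain ⟨ρ', hρ'e⟩ : ∃ ρ' : ℝ, ρ' = Real.sqrt (σ2 / vm m) := ⟨_, rfl⟩
  have hρ'0 : 0 < ρ' := by
    rw [hρ'e]
    exact Real.sqrt_pos.2 (by positivity)
  have hρ'2 : ρ' ^ 2 = σ2 / vm m := by
    rw [hρ'e, Real.sq_sqrt (by positivity)]
  have hρσ : ρ' ^ 2 * vm m = σ2 := by
    rw [hρ'2]
    field_simp
  have hlow : m * σ2 ≤ ρ' ^ 2 := by
    rw [hρ'2, le_div_iff₀ hv0]
    have h1 : vm m * m ≤ 1 := by
      rwa [le_div_iff₀ hmpos] at hv1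
    nlinarith
  have hupp : ρ' ^ 2 ≤ 8 * m * σ2 := by
    rw [hρ'2, div_le_iff₀ hv0]
    have h1 : 1 ≤ vm m * (8 * m) := by
      rwa [div_le_iff₀ (by positivity)] at hv2
    nlinarith
  obtain ⟨δ, hδ⟩ : ∃ δ : ℝ, δ = D N / N := ⟨_, rfl⟩
  have hδ0 : 0 < δ := by rw [hδ]; positivity
  obtain ⟨r2, hr2⟩ : ∃ r2 : ℝ, r2 = Real.sqrt (R ^ 2 + ρ' ^ 2) := ⟨_, rfl⟩
  have hr20 : 0 < r2 := by
    rw [hr2]
    exact Real.sqrt_pos.2 (by positivity)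
  have hr2sq : r2 ^ 2 = R ^ 2 + ρ' ^ 2 := by
    rw [hr2, Real.sq_sqrt (by positivity)]
  obtain ⟨ρ, hρe⟩ : ∃ ρ : ℝ, ρ = r2 / (1 + δ) := ⟨_, rfl⟩
  have hρ0 : 0 < ρ := by rw [hρe]; positivity
  have hρr : (1 + δ) * ρ = r2 := by
    rw [hρe]
    field_simp
  have hDδ : D N ≤ 2 * m * δ := by
    rw [hδ, mul_div_assoc', le_div_iff₀ hNpos]
    calc D N * N ≤ D N * (2 * m) := mul_le_mul_of_nonneg_left hmN hDpos.le
      _ = 2 * m * D N := by ring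
  have hkey : R ^ 2 ≤ δ * ρ' ^ 2 := by
    have h1 : 2 * R ^ 2 ≤ D N * σ2 := by
      rwa [div_le_iff₀ hσ] at hD1
    have h2 : D N * σ2 ≤ 2 * m * δ * σ2 := mul_le_mul_of_nonneg_right hDδ hσ.le
    have h3 : δ * (m * σ2) ≤ δ * ρ' ^ 2 := mul_le_mul_of_nonneg_left hlow hδ0.le
    nlinarith
  obtain ⟨τ2, hτ2⟩ : ∃ τ2 : ℝ, τ2 = ρ' ^ 2 / ρ ^ 2 - 1 := ⟨_, rfl⟩
  have hτ2' : δ * ρ' ^ 2 / r2 ^ 2 ≤ τ2 := by
    have e : τ2 = (ρ' ^ 2 * (1 + δ) ^ 2 - r2 ^ 2) / r2 ^ 2 := by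
      rw [hτ2, hρe, div_pow]
      field_simp
    rw [e]
    refine div_le_div_of_nonneg_right ?_ (by positivity)
    rw [hr2sq]
    nlinarith [mul_pos hδ0 hδ0, sq_nonneg ρ', mul_nonneg (mul_pos hδ0 hδ0).le (sq_nonneg ρ')]
  have hτ20 : 0 ≤ τ2 := le_trans (by positivity) hτ2'
  obtain ⟨τ, hτ⟩ : ∃ τ : ℝ, τ = Real.sqrt τ2 := ⟨_, rfl⟩
  have hτ0 : 0 ≤ τ := by rw [hτ]; exact Real.sqrt_nonneg _
  have hτsq : τ ^ 2 = τ2 := by rw [hτ, Real.sq_sqrt hτ20]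
  have hball : ρ ^ 2 * (1 + τ ^ 2) ≤ ρ' ^ 2 := by
    rw [hτsq, hτ2]
    have : ρ ^ 2 * (1 + (ρ' ^ 2 / ρ ^ 2 - 1)) = ρ' ^ 2 := by
      field_simp
      ring
    rw [this]
  have hρρ : ρ ≤ (1 + δ) * ρ := by nlinarith
  have hl : Λ ≤ m / ρ' * τ := by
    refine le_of_sq_le_sq ?_ (by positivity)
    rw [mul_pow, hτsq, div_pow]
    have h1 : (m : ℝ) ^ 2 / ρ' ^ 2 * (δ * ρ' ^ 2 / r2 ^ 2) ≤ m ^ 2 / ρ' ^ 2 * τ2 :=
      mul_le_mul_of_nonneg_left hτ2' (by positivity)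
    refine le_trans ?_ h1
    have e : (m : ℝ) ^ 2 / ρ' ^ 2 * (δ * ρ' ^ 2 / r2 ^ 2) = m ^ 2 * δ / r2 ^ 2 := by
      field_simp
    rw [e, le_div_iff₀ (by positivity), hr2sq]
    have h2 : R ^ 2 + ρ' ^ 2 ≤ m * (R ^ 2 + 8 * σ2) := by
      have h3 : (1 : ℝ) ≤ m := by exact_mod_cast hm1
      nlinarith [sq_nonneg R]
    have h3 : Λ ^ 2 * (R ^ 2 + ρ' ^ 2) ≤ Λ ^ 2 * (m * (R ^ 2 + 8 * σ2)) :=
      mul_le_mul_of_nonneg_left h2 (sq_nonneg _)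
    have h4 : Λ ^ 2 * (m * (R ^ 2 + 8 * σ2)) * 2 ≤ m * D N := by
      have := mul_le_mul_of_nonneg_left hD2 hmpos.le
      linarith
    have h5 : m * D N ≤ m * (2 * m * δ) := mul_le_mul_of_nonneg_left hDδ hmpos.le
    nlinarith
  have hlw := hΛ _ hl
  have hbody : Body (hull S K p τ ρ' ((1 + δ) * ρ)) :=
    hull_body S h hp hτ0 hρ0 hρρ hρ'0.le hball
  have hmem : ∀ x : Euc N, S.P x ∈ K → ‖S.Q x‖ ≤ ρ' → x ∈ hull S K p τ ρ' ((1 + δ) * ρ) := by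
    intro x hx1 hx2
    refine hull_mem S hR (by positivity) ?_ x hx1 hx2
    rw [hρr, hr2sq]
  have hdom : Dom S K ρ' (hull S K p τ ρ' ((1 + δ) * ρ)) ε' := by
    refine dom_of S h hρ'0 hε hbody hmem ?_
    refine (hull_vol S hρ'0).trans (mul_le_mul_left ?_ _)
    have h1 := lim_out2 h (p := p) (l := m / ρ' * τ) hε (C := (1 + R) ^ 2 + σ2) (by nlinarith) hlw
    refine le_trans (le_of_eq ?_) h1
    refine lintegral_congr fun y => ?_
    rw [mul_assoc (m / ρ' : ℝ) τ]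
  refine ⟨m, N, S, τ, ρ, ρ', hρ0, hρ'0, hDpos.le, hτ0, ?_⟩
  rw [← hδ]
  refine ⟨hbody, ball_sub_hull S hp hτ0 hρρ hρ'0.le hball, hdom, fun u hu => ⟨?_, ?_⟩⟩
  · exact var_low S hm1 h hσ hiso hρ'0 hρσ hε hbody hdom u hu
  · exact var_up S hm1 h hp hR hσ hiso hτ0 hρ'0 hρσ hε hbody (fun x hx => hx.1) hmem hlw u hu

/-- **the reduction for isotropic bodies** -/
theorem core_iso (h : Body K) (hp : p ∈ K) {σ2 : ℝ} (hσ : 0 < σ2)
    (hiso : ∀ a : Euc n, Vr K a = ‖a‖ ^ 2 * σ2) {D : ℕ → ℝ} (hD : ¬ BddAbove (range D))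
    {ε : ℝ} (hε : 0 < ε) {c : ℝ} (hc : 0 < c)
    (H : ∀ (m N : ℕ) (S : Split n m N) (τ ρ ρ' : ℝ), 0 < ρ →
      Body (hull S K p τ ρ' ((1 + D N / N) * ρ)) →
      Metric.closedBall (S.i p) ρ ⊆ hull S K p τ ρ' ((1 + D N / N) * ρ) →
      NIso ε (hull S K p τ ρ' ((1 + D N / N) * ρ)) → KLV c (hull S K p τ ρ' ((1 + D N / N) * ρ)))
    (A : Set (Euc n)) (hA : MeasurableSet A) :
    Low (unif K) A (c / Real.sqrt σ2 * min ((unif K).real A) (1 - (unif K).real A)) := by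
  have hprob := h.prob
  obtain ⟨R₀, hR₀⟩ := h.comp.isBounded.subset_closedBall p
  obtain ⟨R, hR1, hR0⟩ : ∃ R : ℝ, R₀ ≤ R ∧ 0 < R := ⟨max R₀ 1, le_max_left _ _, by positivity⟩
  have hR : K ⊆ Metric.closedBall p R := hR₀.trans (Metric.closedBall_subset_closedBall hR1)
  obtain ⟨ε₀, hε₀⟩ : ∃ ε₀ : ℝ, ε₀ = min 1 (ε * σ2 / (2 + σ2)) := ⟨_, rfl⟩
  have hε₀0 : 0 < ε₀ := by rw [hε₀]; exact lt_min one_pos (by positivity)
  have hfin : ∀ ε₁ : ℝ, 0 < ε₁ → ∀ ε' : ℝ, 0 < ε' → ε' < ε₀ →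
      c / Real.sqrt (σ2 + ε') *
        min ((unif K).real A) (1 - (unif K).real (Metric.thickening ε₁ A)) * ε₁ ≤
      (unif K).real (Metric.thickening ε₁ A) - (unif K).real A + ε' := by
    intro ε₁ hε₁ ε' hε' hε'0
    obtain ⟨m, N, S, τ, ρ, ρ', hρ, hρ', hDN, hτ, hB, hbs, hd, hv⟩ :=
      exists_hull h hp hR hR0 hσ hiso hD hε'
    have hni : NIso ε (hull S K p τ ρ' ((1 + D N / N) * ρ)) := by
      refine ⟨(1 + ε')⁻¹ * σ2, by positivity, fun u hu => ⟨(hv u hu).1, (hv u hu).2.trans ?_⟩⟩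
      have h1 : ε' < 1 := hε'0.trans_le (by rw [hε₀]; exact min_le_left _ _)
      have h2 : ε' * (2 + σ2) ≤ ε * σ2 := by
        have h3 : ε' ≤ ε * σ2 / (2 + σ2) := (hε'0.trans_le (by rw [hε₀]; exact min_le_right _ _)).le
        rwa [le_div_iff₀ (by positivity)] at h3
      have h4 : (1 + ε) * ((1 + ε')⁻¹ * σ2) = (1 + ε) * σ2 / (1 + ε') := by
        field_simp
      rw [h4, le_div_iff₀ (by positivity)]
      nlinarith
    have h2 := H m N S τ ρ ρ' hρ hB hbs hni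
    have hs : ∀ A : Set (Euc N), MeasurableSet A →
        Low (unif (hull S K p τ ρ' ((1 + D N / N) * ρ))) A (c / Real.sqrt (σ2 + ε') *
          min ((unif (hull S K p τ ρ' ((1 + D N / N) * ρ))).real A)
            (1 - (unif (hull S K p τ ρ' ((1 + D N / N) * ρ))).real A)) := by
      intro A hA
      have h3 := h2 (Real.sqrt (σ2 + ε')) (Real.sqrt_pos.2 (by positivity)) (fun u hu => by
        rw [Real.sq_sqrt (by positivity)]
        exact (hv u hu).2) A hA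
      rw [min_ofReal hB, ← ENNReal.ofReal_mul (by positivity)] at h3
      have := hB.prob
      exact low_of_bdry h3
    exact base_fin h S hB (κ₀ := c / Real.sqrt (σ2 + ε')) (by positivity) hρ' hε' hd hs A hA ε₁ hε₁
  refine low_of_fin h (κ₀ := c / Real.sqrt σ2) (by positivity) A hA fun ε₁ hε₁ => ?_
  have ht : Tendsto (fun ε' : ℝ => (unif K).real (Metric.thickening ε₁ A) - (unif K).real A + ε' -
      c / Real.sqrt (σ2 + ε') *
        min ((unif K).real A) (1 - (unif K).real (Metric.thickening ε₁ A)) * ε₁) (𝓝[>] 0)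
      (𝓝 ((unif K).real (Metric.thickening ε₁ A) - (unif K).real A + 0 -
      c / Real.sqrt (σ2 + 0) *
        min ((unif K).real A) (1 - (unif K).real (Metric.thickening ε₁ A)) * ε₁)) := by
    have hc0 : ContinuousAt (fun ε' : ℝ => (unif K).real (Metric.thickening ε₁ A) -
      (unif K).real A + ε' - c / Real.sqrt (σ2 + ε') *
        min ((unif K).real A) (1 - (unif K).real (Metric.thickening ε₁ A)) * ε₁) 0 := by
      have hne : Real.sqrt (σ2 + 0) ≠ 0 := by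
        rw [add_zero]
        exact (Real.sqrt_pos.2 hσ).ne'
      have h1 : ContinuousAt (fun ε' : ℝ => Real.sqrt (σ2 + ε')) 0 :=
        (Real.continuous_sqrt.comp (continuous_const.add continuous_id)).continuousAt
      have h2 : ContinuousAt (fun ε' : ℝ => c / Real.sqrt (σ2 + ε')) 0 :=
        continuousAt_const.div h1 hne
      exact (continuousAt_const.add continuousAt_id).sub
        ((h2.mul continuousAt_const).mul continuousAt_const)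
    exact hc0.tendsto.mono_left nhdsWithin_le_nhds
  rw [add_zero, add_zero] at ht
  have h0 : 0 ≤ (unif K).real (Metric.thickening ε₁ A) - (unif K).real A -
      c / Real.sqrt σ2 *
        min ((unif K).real A) (1 - (unif K).real (Metric.thickening ε₁ A)) * ε₁ := by
    refine ge_of_tendsto ht ?_
    have h1 : ∀ᶠ ε' : ℝ in 𝓝[>] 0, ε' < ε₀ :=
      mem_nhdsWithin_of_mem_nhds (Iio_mem_nhds hε₀0)
    filter_upwards [h1, self_mem_nhdsWithin] with ε' h2 h3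
    have := hfin ε₁ hε₁ ε' h3 h2
    linarith
  linarith

end Pool.Agent.T2h28.NB
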