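import Pool.Agent.T2h28.NB.Split

/-!
# Reduction of KLS to near-Euclidean bodies: the volume outside of the body
-/

set_option autoImplicit false

namespace Pool.Agent.T2h28.NB

open MeasureTheory Set Filter Topology
open scoped ENNReal InnerProductSpace

variable {n : ℕ} {K : Set (Euc n)}

theorem gauss_fin (p : Euc n) : ∫⁻ y : Euc n, ENNReal.ofReal (Real.exp (-(1 / 2 * ‖y - p‖ ^ 2))) < ∞ := by
  have h1 : Integrable (fun y : Euc n => Real.exp (-(1 / 2) * ‖y‖ ^ 2)) := by
    by_contra h
    have h2 := integral_undef h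
    rw [GaussianFourier.integral_rexp_neg_mul_sq_norm (by norm_num)] at h2
    have h3 : 0 < (Real.pi / (1 / 2)) ^ ((Module.finrank ℝ (Euc n) : ℝ) / 2) := by positivity
    exact h3.ne' h2
  have h2 : Integrable (fun y : Euc n => Real.exp (-(1 / 2 * ‖y - p‖ ^ 2))) := by
    have := h1.comp_sub_right p
    refine this.congr (ae_of_all _ fun y => ?_)
    simp only [neg_mul]
  exact h2.lintegral_lt_top

/-- the mass outside of `K` tends to zero -/
theorem lim_out (h : Body K) {ε' : ℝ} (hε : 0 < ε') : ∃ Λ : ℝ, 0 < Λ ∧ ∀ l : ℝ, Λ ≤ l →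
    ∫⁻ y : Euc n, ENNReal.ofReal (Real.exp (-(l * Metric.infDist y K ^ 2))) ≤
      ENNReal.ofReal (1 + ε') * volume K := by
  have hne : K.Nonempty := h.int.mono interior_subset
  obtain ⟨p, hp⟩ := hne
  obtain ⟨R, hR⟩ := h.comp.isBounded.subset_closedBall p
  have hR0 : 0 ≤ R := by
    have := hR hp
    rw [Metric.mem_closedBall, dist_self] at this
    exact this
  have hcont : Continuous fun y : Euc n => Metric.infDist y K := Metric.continuous_infDist_pt K
  have hdist : ∀ y : Euc n, ‖y - p‖ ≤ Metric.infDist y K + R := by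
    intro y
    obtain ⟨a, ha, hd⟩ := h.comp.exists_infDist_eq_dist ⟨p, hp⟩ y
    rw [hd, ← dist_eq_norm]
    exact (dist_triangle y a p).trans (add_le_add le_rfl (hR ha))
  have hT : Tendsto (fun l : ℝ => ∫⁻ y : Euc n,
      ENNReal.ofReal (Real.exp (-(l * Metric.infDist y K ^ 2)))) atTop
      (𝓝 (∫⁻ y : Euc n, K.indicator 1 y)) := by
    refine tendsto_lintegral_filter_of_dominated_convergence
      (fun y => ENNReal.ofReal (Real.exp (-(Metric.infDist y K ^ 2)))) ?_ ?_ ?_ ?_
    · filter_upwards with l
      have : Continuous fun y : Euc n => Real.exp (-(l * Metric.infDist y K ^ 2)) := by fun_prop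
      exact this.measurable.ennreal_ofReal
    · filter_upwards [eventually_ge_atTop (1 : ℝ)] with l hl
      refine ae_of_all _ fun y => ENNReal.ofReal_le_ofReal (Real.exp_le_exp.2 ?_)
      have := sq_nonneg (Metric.infDist y K)
      nlinarith
    · have hb : ∀ y : Euc n, ENNReal.ofReal (Real.exp (-(Metric.infDist y K ^ 2))) ≤
          ENNReal.ofReal (Real.exp (R ^ 2)) *
            ENNReal.ofReal (Real.exp (-(1 / 2 * ‖y - p‖ ^ 2))) := by
        intro y
        rw [← ENNReal.ofReal_mul (Real.exp_pos _).le, ← Real.exp_add]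
        refine ENNReal.ofReal_le_ofReal (Real.exp_le_exp.2 ?_)
        have h1 := hdist y
        have h2 : ‖y - p‖ ^ 2 ≤ (Metric.infDist y K + R) ^ 2 :=
          pow_le_pow_left₀ (norm_nonneg _) h1 2
        nlinarith [sq_nonneg (Metric.infDist y K - R)]
      refine (lt_of_le_of_lt (lintegral_mono hb) ?_).ne
      rw [lintegral_const_mul' _ _ ENNReal.ofReal_ne_top]
      exact ENNReal.mul_lt_top ENNReal.ofReal_lt_top (gauss_fin p)
    · refine ae_of_all _ fun y => ?_
      by_cases hy : y ∈ K
      · rw [indicator_of_mem hy, Metric.infDist_zero_of_mem hy]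
        simp
      · rw [indicator_of_notMem hy]
        have hd : 0 < Metric.infDist y K := by
          refine (h.comp.isClosed.notMem_iff_infDist_pos ⟨p, hp⟩).1 hy
        have h1 : Tendsto (fun l : ℝ => Real.exp (-(l * Metric.infDist y K ^ 2))) atTop (𝓝 0) := by
          refine Real.tendsto_exp_neg_atTop_nhds_zero.comp ?_
          exact tendsto_id.atTop_mul_const (by positivity)
        have h2 := ENNReal.tendsto_ofReal h1
        rwa [ENNReal.ofReal_zero] at h2
  rw [lintegral_indicator_one h.comp.measurableSet] at hT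
  have hlt : volume K < ENNReal.ofReal (1 + ε') * volume K := by
    have h1 : (1 : ℝ≥0∞) < ENNReal.ofReal (1 + ε') := by
      rw [ENNReal.one_lt_ofReal]
      linarith
    calc volume K = 1 * volume K := (one_mul _).symm
      _ < ENNReal.ofReal (1 + ε') * volume K :=
        ENNReal.mul_lt_mul_left h.pos.ne' h.lt_top.ne h1
  have h1 := hT.eventually_lt_const hlt
  obtain ⟨Λ, hΛ⟩ := eventually_atTop.1 h1
  exact ⟨max Λ 1, by positivity, fun l hl => (hΛ l ((le_max_left _ _).trans hl)).le⟩

end Pool.Agent.T2h28.NB
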