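import Pool.Agent.T2h28.NB.Mom

/-!
# Reduction of KLS to near-Euclidean bodies: weighted volumes outside of the body
-/

set_option autoImplicit false

namespace Pool.Agent.T2h28.NB

open MeasureTheory Set Filter Topology
open scoped ENNReal InnerProductSpace

variable {n : ℕ} {K : Set (Euc n)}

theorem poly_exp (k : ℕ) (t : ℝ) (ht : 0 ≤ t) :
    (1 + t) ^ k * Real.exp (-t) ≤ k.factorial * Real.exp 1 := by
  have h1 := Real.pow_div_factorial_le_exp (1 + t) (by linarith) k
  have hk : (0 : ℝ) < k.factorial := by exact_mod_cast k.factorial_pos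
  rw [div_le_iff₀ hk] at h1
  have h2 : (1 + t) ^ k * Real.exp (-t) ≤ Real.exp (1 + t) * k.factorial * Real.exp (-t) :=
    mul_le_mul_of_nonneg_right h1 (Real.exp_pos _).le
  refine h2.trans (le_of_eq ?_)
  have h3 : Real.exp (1 + t) * Real.exp (-t) = Real.exp 1 := by
    rw [← Real.exp_add]
    congr 1
    ring
  rw [← h3]
  ring

theorem exp_norm_fin (p : Euc n) (C : ℝ) (hC : 0 ≤ C) :
    ∫⁻ y : Euc n, ENNReal.ofReal (C * (1 + ‖y - p‖) ^ 2 * Real.exp (-‖y - p‖)) < ∞ := by
  have h0 : Integrable (fun y : Euc n => (1 + ‖y‖) ^ (-((n : ℝ) + 1))) :=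
    integrable_one_add_norm (by simp)
  have h1 : Integrable (fun y : Euc n => (1 + ‖y - p‖) ^ (-((n : ℝ) + 1))) := h0.comp_sub_right p
  refine lt_of_le_of_lt ?_ ((h1.const_mul (C * ((n + 3).factorial * Real.exp 1))).lintegral_lt_top)
  refine lintegral_mono fun y => ENNReal.ofReal_le_ofReal ?_
  obtain ⟨t, ht⟩ : ∃ t : ℝ, t = ‖y - p‖ := ⟨_, rfl⟩
  have ht0 : 0 ≤ t := by rw [ht]; exact norm_nonneg _
  show C * (1 + ‖y - p‖) ^ 2 * Real.exp (-‖y - p‖) ≤
    C * ((n + 3).factorial * Real.exp 1) * (1 + ‖y - p‖) ^ (-((n : ℝ) + 1))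
  rw [← ht]
  have h2 := poly_exp (n + 3) t ht0
  have hp : 0 < 1 + t := by linarith
  have h3 : (1 + t) ^ (-((n : ℝ) + 1)) = ((1 + t) ^ (n + 1))⁻¹ := by
    rw [Real.rpow_neg hp.le]
    congr 1
    exact_mod_cast Real.rpow_natCast (1 + t) (n + 1)
  rw [h3]
  have h4 : (1 + t) ^ 2 * Real.exp (-t) = (1 + t) ^ (n + 3) * Real.exp (-t) * ((1 + t) ^ (n + 1))⁻¹ := by
    have : (1 + t) ^ (n + 3) = (1 + t) ^ 2 * (1 + t) ^ (n + 1) := by ring
    rw [this]
    field_simp
  rw [mul_assoc, h4, mul_assoc C]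
  refine mul_le_mul_of_nonneg_left ?_ hC
  exact mul_le_mul_of_nonneg_right h2 (by positivity)

/-- the weighted mass outside of `K` tends to zero -/
theorem lim_w (h : Body K) {p : Euc n} (hp : p ∈ K) {R : ℝ} (hR : K ⊆ Metric.closedBall p R)
    {C : ℝ} (hC : 0 ≤ C) {ε' : ℝ} (hε : 0 < ε') : ∃ Λ : ℝ, 0 < Λ ∧ ∀ l : ℝ, Λ ≤ l →
    ∫⁻ y in Kᶜ, ENNReal.ofReal (C * (1 + ‖y - p‖) ^ 2 * Real.exp (-(l * Metric.infDist y K))) ≤
      ENNReal.ofReal ε' * volume K := by
  have hR0 : 0 ≤ R := by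
    have := hR hp
    rw [Metric.mem_closedBall, dist_self] at this
    exact this
  have hcont : Continuous fun y : Euc n => Metric.infDist y K := Metric.continuous_infDist_pt K
  have hdist : ∀ y : Euc n, ‖y - p‖ ≤ Metric.infDist y K + R := by
    intro y
    obtain ⟨a, ha, hd⟩ := h.comp.exists_infDist_eq_dist ⟨p, hp⟩ y
    rw [hd, ← dist_eq_norm]
    exact (dist_triangle y a p).trans (add_le_add le_rfl (hR ha))
  have hT : Tendsto (fun l : ℝ => ∫⁻ y in Kᶜ,
      ENNReal.ofReal (C * (1 + ‖y - p‖) ^ 2 * Real.exp (-(l * Metric.infDist y K)))) atTop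
      (𝓝 (∫⁻ y in Kᶜ, 0)) := by
    refine tendsto_lintegral_filter_of_dominated_convergence
      (fun y => ENNReal.ofReal (C * (1 + ‖y - p‖) ^ 2 * Real.exp (-(Metric.infDist y K)))) ?_ ?_ ?_ ?_
    · filter_upwards with l
      have : Continuous fun y : Euc n =>
        C * (1 + ‖y - p‖) ^ 2 * Real.exp (-(l * Metric.infDist y K)) := by fun_prop
      exact this.measurable.ennreal_ofReal
    · filter_upwards [eventually_ge_atTop (1 : ℝ)] with l hl
      refine ae_of_all _ fun y => ENNReal.ofReal_le_ofReal ?_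
      refine mul_le_mul_of_nonneg_left (Real.exp_le_exp.2 ?_) (by positivity)
      have := Metric.infDist_nonneg (x := y) (s := K)
      nlinarith
    · refine (lt_of_le_of_lt ?_ (exp_norm_fin p (C * Real.exp R) (by positivity))).ne
      refine (lintegral_mono' Measure.restrict_le_self le_rfl).trans (lintegral_mono fun y => ?_)
      refine ENNReal.ofReal_le_ofReal ?_
      have h1 : Real.exp (-(Metric.infDist y K)) ≤ Real.exp R * Real.exp (-‖y - p‖) := by
        rw [← Real.exp_add]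
        refine Real.exp_le_exp.2 ?_
        have := hdist y
        linarith
      calc C * (1 + ‖y - p‖) ^ 2 * Real.exp (-(Metric.infDist y K))
          ≤ C * (1 + ‖y - p‖) ^ 2 * (Real.exp R * Real.exp (-‖y - p‖)) :=
            mul_le_mul_of_nonneg_left h1 (by positivity)
        _ = C * Real.exp R * (1 + ‖y - p‖) ^ 2 * Real.exp (-‖y - p‖) := by ring
    · rw [ae_restrict_iff' h.comp.measurableSet.compl]
      refine ae_of_all _ fun y hy => ?_
      have hd : 0 < Metric.infDist y K :=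
        (h.comp.isClosed.notMem_iff_infDist_pos ⟨p, hp⟩).1 hy
      have h1 : Tendsto (fun l : ℝ => C * (1 + ‖y - p‖) ^ 2 *
          Real.exp (-(l * Metric.infDist y K))) atTop (𝓝 (C * (1 + ‖y - p‖) ^ 2 * 0)) := by
        refine Tendsto.const_mul _ (Real.tendsto_exp_neg_atTop_nhds_zero.comp ?_)
        exact tendsto_id.atTop_mul_const hd
      rw [mul_zero] at h1
      have h2 := ENNReal.tendsto_ofReal h1
      rwa [ENNReal.ofReal_zero] at h2
  rw [lintegral_zero] at hT
  have hlt : 0 < ENNReal.ofReal ε' * volume K :=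
    ENNReal.mul_pos (ENNReal.ofReal_pos.2 hε).ne' h.pos.ne'
  have h1 := hT.eventually_lt_const hlt
  obtain ⟨Λ, hΛ⟩ := eventually_atTop.1 h1
  exact ⟨max Λ 1, by positivity, fun l hl => (hΛ l ((le_max_left _ _).trans hl)).le⟩

/-- the mass outside of `K` tends to zero (exponential decay) -/
theorem lim_out2 (h : Body K) {p : Euc n} {l ε' : ℝ} (hε : 0 < ε') {C : ℝ} (hC : 1 ≤ C)
    (hl : ∫⁻ y in Kᶜ, ENNReal.ofReal (C * (1 + ‖y - p‖) ^ 2 * Real.exp (-(l * Metric.infDist y K))) ≤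
      ENNReal.ofReal ε' * volume K) :
    ∫⁻ y : Euc n, ENNReal.ofReal (Real.exp (-(l * Metric.infDist y K))) ≤
      ENNReal.ofReal (1 + ε') * volume K := by
  rw [← lintegral_add_compl _ h.comp.measurableSet, ENNReal.ofReal_add zero_le_one hε.le,
    ENNReal.ofReal_one, add_mul, one_mul]
  refine add_le_add ?_ (le_trans (lintegral_mono fun y => ENNReal.ofReal_le_ofReal ?_) hl)
  · rw [setLIntegral_congr_fun (g := fun _ => 1) h.comp.measurableSet]
    · simp
    · intro y hy
      show ENNReal.ofReal (Real.exp (-(l * Metric.infDist y K))) = 1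
      rw [Metric.infDist_zero_of_mem hy]
      simp
  · have h1 : 1 ≤ C * (1 + ‖y - p‖) ^ 2 := by
      have h2 : 1 ≤ (1 + ‖y - p‖) ^ 2 := one_le_pow₀ (by have := norm_nonneg (y - p); linarith)
      nlinarith
    exact le_mul_of_one_le_left (Real.exp_pos _).le h1

end Pool.Agent.T2h28.NB
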