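import Pool.Agent.T2h28.NB.Hat2

/-!
# Reduction of KLS to near-Euclidean bodies: second moments of balls
-/

set_option autoImplicit false

namespace Pool.Agent.T2h28.NB

open MeasureTheory Set Filter Topology
open scoped ENNReal InnerProductSpace Pointwise

variable {m : ℕ}

theorem vol_ball_pos {r : ℝ} (hr : 0 < r) : 0 < (volume (Metric.closedBall (0 : Euc m) r)).toReal :=
  (ball_body (m := m) hr).real_pos

/-- the variance of a coordinate of the unit ball -/
noncomputable def vm (m : ℕ) : ℝ :=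
  (∫ z in Metric.closedBall (0 : Euc m) 1, ‖z‖ ^ 2) /
    (m * (volume (Metric.closedBall (0 : Euc m) 1)).toReal)

theorem int_on {f : Euc m → ℝ} (hf : Continuous f) (r : ℝ) :
    IntegrableOn f (Metric.closedBall (0 : Euc m) r) :=
  hf.continuousOn.integrableOn_compact (isCompact_closedBall _ _)

theorem rot {b b' : Euc m} (h : ‖b‖ = ‖b'‖) (r : ℝ) :
    ∫ z in Metric.closedBall (0 : Euc m) r, ⟪b, z⟫_ℝ ^ 2 =
      ∫ z in Metric.closedBall (0 : Euc m) r, ⟪b', z⟫_ℝ ^ 2 := by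
  let T : Euc m ≃ₗᵢ[ℝ] Euc m := (ℝ ∙ (b - b'))ᗮ.reflection
  have hT : T b = b' := Submodule.reflection_sub h
  have hpre : T ⁻¹' Metric.closedBall (0 : Euc m) r = Metric.closedBall (0 : Euc m) r := by
    ext z
    simp only [mem_preimage, mem_closedBall_zero_iff, LinearIsometryEquiv.norm_map]
  have h1 := T.measurePreserving.setIntegral_preimage_emb
    T.toHomeomorph.measurableEmbedding (fun z => ⟪b', z⟫_ℝ ^ 2) (Metric.closedBall (0 : Euc m) r)
  rw [hpre] at h1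
  rw [← h1]
  refine integral_congr_ae (ae_of_all _ fun z => ?_)
  show ⟪b, z⟫_ℝ ^ 2 = ⟪b', T z⟫_ℝ ^ 2
  rw [← hT, LinearIsometryEquiv.inner_map_map]

theorem int_one (hm : 1 ≤ m) (b : Euc m) :
    ∫ z in Metric.closedBall (0 : Euc m) 1, ⟪b, z⟫_ℝ ^ 2 =
      ‖b‖ ^ 2 * vm m * (volume (Metric.closedBall (0 : Euc m) 1)).toReal := by
  have hv := vol_ball_pos (m := m) one_pos
  have hm0 : (0 : ℝ) < m := by exact_mod_cast hm
  let e := EuclideanSpace.basisFun (Fin m) ℝ
  have he : ∀ i, ‖e i‖ = 1 := fun i => e.orthonormal.1 i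
  obtain ⟨I, hI⟩ : ∃ I : ℝ, I = ∫ z in Metric.closedBall (0 : Euc m) 1, ⟪e ⟨0, hm⟩, z⟫_ℝ ^ 2 :=
    ⟨_, rfl⟩
  have hall : ∀ i, ∫ z in Metric.closedBall (0 : Euc m) 1, ⟪e i, z⟫_ℝ ^ 2 = I := by
    intro i
    rw [hI]
    exact rot (by rw [he, he]) 1
  have hsum : ∫ z in Metric.closedBall (0 : Euc m) 1, ‖z‖ ^ 2 = m * I := by
    have h1 : ∀ z : Euc m, ‖z‖ ^ 2 = ∑ i, ⟪e i, z⟫_ℝ ^ 2 := by
      intro z
      rw [← e.sum_sq_norm_inner_right z]
      refine Finset.sum_congr rfl fun i _ => ?_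
      rw [Real.norm_eq_abs, sq_abs]
    simp_rw [h1]
    rw [integral_finsetSum _ fun i _ => int_on (by fun_prop) 1]
    simp_rw [hall]
    simp
  have h2 : ∫ z in Metric.closedBall (0 : Euc m) 1, ⟪b, z⟫_ℝ ^ 2 = ‖b‖ ^ 2 * I := by
    rw [rot (b := b) (b' := ‖b‖ • e ⟨0, hm⟩) (by rw [norm_smul, he, norm_norm, mul_one]) 1, hI,
      ← integral_const_mul]
    refine integral_congr_ae (ae_of_all _ fun z => ?_)
    show ⟪‖b‖ • e ⟨0, hm⟩, z⟫_ℝ ^ 2 = ‖b‖ ^ 2 * ⟪e ⟨0, hm⟩, z⟫_ℝ ^ 2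
    rw [inner_smul_left, mul_pow]
    simp
  rw [h2]
  unfold vm
  rw [hsum]
  field_simp

theorem smul_ball {r : ℝ} (hr : 0 < r) :
    r • Metric.closedBall (0 : Euc m) 1 = Metric.closedBall (0 : Euc m) r := by
  ext z
  rw [mem_smul_set_iff_inv_smul_mem₀ hr.ne', mem_closedBall_zero_iff, mem_closedBall_zero_iff,
    norm_smul, norm_inv, Real.norm_eq_abs, abs_of_pos hr, inv_mul_le_iff₀ hr, mul_one]

theorem vol_ball {r : ℝ} (hr : 0 < r) : (volume (Metric.closedBall (0 : Euc m) r)).toReal =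
    r ^ m * (volume (Metric.closedBall (0 : Euc m) 1)).toReal := by
  rw [← smul_ball hr, Measure.addHaar_smul]
  have hfr : Module.finrank ℝ (Euc m) = m := by simp
  rw [hfr, ENNReal.toReal_mul, ENNReal.toReal_ofReal (abs_nonneg _),
    abs_of_pos (pow_pos hr m)]

theorem int_sq (hm : 1 ≤ m) (b : Euc m) {r : ℝ} (hr : 0 < r) :
    ∫ z in Metric.closedBall (0 : Euc m) r, ⟪b, z⟫_ℝ ^ 2 =
      ‖b‖ ^ 2 * r ^ 2 * vm m * (volume (Metric.closedBall (0 : Euc m) r)).toReal := by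
  have h1 := Measure.setIntegral_comp_smul_of_pos (volume : Measure (Euc m))
    (fun z => ⟪b, z⟫_ℝ ^ 2) (Metric.closedBall (0 : Euc m) 1) hr
  rw [smul_ball hr] at h1
  have hfr : Module.finrank ℝ (Euc m) = m := by simp
  rw [hfr, smul_eq_mul] at h1
  have h2 : ∫ z in Metric.closedBall (0 : Euc m) 1, ⟪b, r • z⟫_ℝ ^ 2 =
      r ^ 2 * (‖b‖ ^ 2 * vm m * (volume (Metric.closedBall (0 : Euc m) 1)).toReal) := by
    rw [← int_one hm b, ← integral_const_mul]
    refine integral_congr_ae (ae_of_all _ fun z => ?_)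
    show ⟪b, r • z⟫_ℝ ^ 2 = r ^ 2 * ⟪b, z⟫_ℝ ^ 2
    rw [inner_smul_right, mul_pow]
  rw [h2] at h1
  have hrm : r ^ m ≠ 0 := (pow_pos hr m).ne'
  rw [eq_inv_mul_iff_mul_eq₀ hrm] at h1
  rw [← h1, vol_ball hr]
  ring

theorem int_lin (b : Euc m) (r : ℝ) : ∫ z in Metric.closedBall (0 : Euc m) r, ⟪b, z⟫_ℝ = 0 := by
  have hpre : (LinearIsometryEquiv.neg ℝ : Euc m ≃ₗᵢ[ℝ] Euc m) ⁻¹' Metric.closedBall (0 : Euc m) r =
      Metric.closedBall (0 : Euc m) r := by
    ext z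
    simp only [mem_preimage, mem_closedBall_zero_iff, LinearIsometryEquiv.norm_map]
  have h1 := (LinearIsometryEquiv.neg ℝ : Euc m ≃ₗᵢ[ℝ] Euc m).measurePreserving.setIntegral_preimage_emb
    (LinearIsometryEquiv.neg ℝ : Euc m ≃ₗᵢ[ℝ] Euc m).toHomeomorph.measurableEmbedding
    (fun z => ⟪b, z⟫_ℝ) (Metric.closedBall (0 : Euc m) r)
  rw [hpre] at h1
  have h2 : ∫ z in Metric.closedBall (0 : Euc m) r,
      ⟪b, (LinearIsometryEquiv.neg ℝ : Euc m ≃ₗᵢ[ℝ] Euc m) z⟫_ℝ =
      -∫ z in Metric.closedBall (0 : Euc m) r, ⟪b, z⟫_ℝ := by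
    rw [← integral_neg]
    refine integral_congr_ae (ae_of_all _ fun z => ?_)
    show ⟪b, -z⟫_ℝ = -⟪b, z⟫_ℝ
    rw [inner_neg_right]
  rw [h2] at h1
  linarith

theorem inner_eq (hm : 1 ≤ m) (b : Euc m) (s : ℝ) {r : ℝ} (hr : 0 < r) :
    ∫⁻ z in Metric.closedBall (0 : Euc m) r, ENNReal.ofReal ((s + ⟪b, z⟫_ℝ) ^ 2) =
      ENNReal.ofReal (s ^ 2 + ‖b‖ ^ 2 * r ^ 2 * vm m) *
        volume (Metric.closedBall (0 : Euc m) r) := by
  have hvt : volume (Metric.closedBall (0 : Euc m) r) ≠ ∞ :=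
    (isCompact_closedBall _ _).measure_lt_top.ne
  rw [← ofReal_integral_eq_lintegral_ofReal (int_on (by fun_prop) r)
    (ae_of_all _ fun z => sq_nonneg _)]
  have h1 : ∫ z in Metric.closedBall (0 : Euc m) r, (s + ⟪b, z⟫_ℝ) ^ 2 =
      (s ^ 2 + ‖b‖ ^ 2 * r ^ 2 * vm m) * (volume (Metric.closedBall (0 : Euc m) r)).toReal := by
    have h2 : ∀ z : Euc m, (s + ⟪b, z⟫_ℝ) ^ 2 = (s ^ 2 + 2 * s * ⟪b, z⟫_ℝ) + ⟪b, z⟫_ℝ ^ 2 := by
      intro z
      ring
    simp_rw [h2]
    rw [integral_add (int_on (by fun_prop) r) (int_on (by fun_prop) r),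
      integral_add (int_on (by fun_prop) r) (int_on (by fun_prop) r), integral_const_mul,
      int_lin, int_sq hm b hr]
    simp only [integral_const, MeasurableSet.univ, measureReal_restrict_apply, univ_inter,
      smul_eq_mul]
    rw [Measure.real]
    ring
  rw [h1, ENNReal.ofReal_mul' ENNReal.toReal_nonneg, ENNReal.ofReal_toReal hvt]

theorem vm_le (hm : 1 ≤ m) : vm m ≤ 1 / m := by
  have hv := vol_ball_pos (m := m) one_pos
  have hm0 : (0 : ℝ) < m := by exact_mod_cast hm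
  unfold vm
  have h1 : ∫ z in Metric.closedBall (0 : Euc m) 1, ‖z‖ ^ 2 ≤
      (volume (Metric.closedBall (0 : Euc m) 1)).toReal := by
    have h2 : ∫ z in Metric.closedBall (0 : Euc m) 1, ‖z‖ ^ 2 ≤
        ∫ z in Metric.closedBall (0 : Euc m) 1, (1 : ℝ) := by
      refine setIntegral_mono_on (int_on (by fun_prop) 1) (int_on (by fun_prop) 1)
        (isCompact_closedBall _ _).measurableSet fun z hz => ?_
      rw [mem_closedBall_zero_iff] at hz
      exact pow_le_one₀ (norm_nonneg _) hz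
    refine h2.trans (le_of_eq ?_)
    simp [Measure.real]
  rw [div_le_div_iff₀ (by positivity) hm0, one_mul]
  calc (∫ z in Metric.closedBall (0 : Euc m) 1, ‖z‖ ^ 2) * m
      ≤ (volume (Metric.closedBall (0 : Euc m) 1)).toReal * m :=
        mul_le_mul_of_nonneg_right h1 hm0.le
    _ = _ := mul_comm _ _

theorem vm_ge (hm : 1 ≤ m) : 1 / (8 * m) ≤ vm m := by
  have hv := vol_ball_pos (m := m) one_pos
  have hm0 : (0 : ℝ) < m := by exact_mod_cast hm
  unfold vm
  have hvol : (volume (Metric.closedBall (0 : Euc m) (1 / 2))).toReal ≤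
      (volume (Metric.closedBall (0 : Euc m) 1)).toReal / 2 := by
    rw [vol_ball (show (0 : ℝ) < 1 / 2 by norm_num)]
    have h1 : ((1 : ℝ) / 2) ^ m ≤ (1 / 2) ^ 1 := pow_le_pow_of_le_one (by norm_num) (by norm_num) hm
    rw [pow_one] at h1
    nlinarith
  have hmS : MeasurableSet (Metric.closedBall (0 : Euc m) 1 \ Metric.closedBall (0 : Euc m) (1 / 2)) :=
    (isCompact_closedBall _ _).measurableSet.diff (isCompact_closedBall _ _).measurableSet
  have h1 : (volume (Metric.closedBall (0 : Euc m) 1)).toReal / 8 ≤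
      ∫ z in Metric.closedBall (0 : Euc m) 1, ‖z‖ ^ 2 := by
    have h2 : ∫ z in Metric.closedBall (0 : Euc m) 1 \ Metric.closedBall (0 : Euc m) (1 / 2),
        (1 / 4 : ℝ) ≤ ∫ z in Metric.closedBall (0 : Euc m) 1, ‖z‖ ^ 2 := by
      have h3 : ∫ z in Metric.closedBall (0 : Euc m) 1 \ Metric.closedBall (0 : Euc m) (1 / 2),
          (1 / 4 : ℝ) ≤
          ∫ z in Metric.closedBall (0 : Euc m) 1 \ Metric.closedBall (0 : Euc m) (1 / 2),
            ‖z‖ ^ 2 := by
        refine setIntegral_mono_on ((int_on (by fun_prop) 1).mono_set sdiff_subset)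
          ((int_on (by fun_prop) 1).mono_set sdiff_subset) hmS fun z hz => ?_
        have h4 := hz.2
        rw [mem_closedBall_zero_iff, not_le] at h4
        nlinarith
      refine h3.trans (setIntegral_mono_set (int_on (by fun_prop) 1)
        (ae_of_all _ fun z => sq_nonneg _) ?_)
      exact (sdiff_subset).eventuallyLE
    refine le_trans ?_ h2
    simp only [integral_const, MeasurableSet.univ, measureReal_restrict_apply, univ_inter,
      smul_eq_mul]
    rw [measureReal_sdiff (Metric.closedBall_subset_closedBall (by norm_num))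
      (isCompact_closedBall _ _).measurableSet (isCompact_closedBall _ _).measure_lt_top.ne]
    have h5 : volume.real (Metric.closedBall (0 : Euc m) (1 / 2)) ≤
      volume.real (Metric.closedBall (0 : Euc m) 1) / 2 := hvol
    have h6 : (volume (Metric.closedBall (0 : Euc m) 1)).toReal =
      volume.real (Metric.closedBall (0 : Euc m) 1) := rfl
    rw [h6]
    linarith
  rw [div_le_div_iff₀ (by positivity) (by positivity), one_mul]
  nlinarith

end Pool.Agent.T2h28.NB
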