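import Pool.Agent.T2h28.NB.Fin

/-!
# Reduction of KLS to outer parallel bodies of large radius
-/

set_option autoImplicit false

namespace Pool.Agent.T2h28.NB

open MeasureTheory Set Filter Topology
open scoped ENNReal InnerProductSpace

/-- outer parallel bodies `L + r B` with `L` in a ball of radius `√(2 δ) r` about a point of `L` -/
def Par {N : ℕ} (δ : ℝ) (K : Set (Euc N)) : Prop :=
  ∃ (L : Set (Euc N)) (x : Euc N) (r : ℝ), IsCompact L ∧ Convex ℝ L ∧ x ∈ L ∧ 0 < r ∧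
    L ⊆ Metric.closedBall x (Real.sqrt (2 * δ) * r) ∧ K = Metric.cthickening r L

/-- the general form of the reduction -/
theorem core_gen {n : ℕ} {K : Set (Euc n)} (h : Body K) (c : ℝ)
    (H : ∀ (ε' Λ : ℝ), 0 < ε' → ∃ (m N : ℕ) (S : Split n m N) (ρ : ℝ) (L : Set (Euc N)), 0 < ρ ∧
      Λ ≤ m / (2 * ρ ^ 2) ∧ Body L ∧ Dom S K ρ L ε' ∧ KLS c L) :
    KLS c K := by
  have hprob := h.prob
  by_cases hc : c ≤ 0
  · intro t _ A _
    rw [ENNReal.ofReal_of_nonpos hc, zero_mul, zero_mul]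
    exact zero_le
  rw [not_le] at hc
  obtain ⟨p, hp⟩ := h.int
  obtain ⟨R₀, hR₀⟩ := h.comp.isBounded.subset_closedBall p
  obtain ⟨R, hR1, hR0⟩ : ∃ R : ℝ, R₀ ≤ R ∧ 0 < R := ⟨max R₀ 1, le_max_left _ _, by positivity⟩
  have hR : K ⊆ Metric.closedBall p R := hR₀.trans (Metric.closedBall_subset_closedBall hR1)
  intro t ht A hA
  rw [mul_comm (ENNReal.ofReal c) t, mul_assoc]
  refine ENNReal.mul_le_of_forall_lt fun t₁' ht₁ m' hm' => ?_
  have ht₁top : t₁' ≠ ∞ := (ht₁.trans_le le_top).ne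
  obtain ⟨t₁, ht₁0, ht₁e⟩ : ∃ t₁ : ℝ, 0 ≤ t₁ ∧ ENNReal.ofReal t₁ = t₁' :=
    ⟨t₁'.toReal, ENNReal.toReal_nonneg, ENNReal.ofReal_toReal ht₁top⟩
  obtain ⟨t₀, ht₀0, ht₀1, ht₀2⟩ : ∃ t₀ : ℝ, 0 ≤ t₀ ∧ t₁ < t₀ ∧ ENNReal.ofReal t₀ ≤ t := by
    obtain ⟨q, hq, h1, h2⟩ := ENNReal.lt_iff_exists_real_btwn.1 ht₁
    refine ⟨q, hq, ?_, h2.le⟩
    rw [← ht₁e] at h1
    exact (ENNReal.ofReal_lt_ofReal_iff_of_nonneg ht₁0).1 h1
  have hK : ∀ u : Euc n, ‖u‖ = 1 → ∀ x, Low (unif K) {y : Euc n | ⟪u, y⟫_ℝ ≤ x}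
      (t₀ * min (Fd K u x) (1 - Fd K u x)) := by
    intro u hu x
    have hu0 : u ≠ 0 := by
      intro h0
      rw [h0, norm_zero] at hu
      exact zero_ne_one hu
    have h1 := (mul_le_mul_left ht₀2 _).trans (ht u x hu0)
    rw [min_ofReal h, ← ENNReal.ofReal_mul ht₀0] at h1
    exact low_of_bdry h1
  obtain ⟨ε₁, Λ, hε₁, hΛ, hmain⟩ := half_main h hR hR0.le ht₁0 ht₀1 hK
  have hfin : ∀ ε : ℝ, 0 < ε →
      c * t₁ * min ((unif K).real A) (1 - (unif K).real (Metric.thickening ε A)) * ε ≤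
      (unif K).real (Metric.thickening ε A) - (unif K).real A := by
    intro ε hε
    refine le_of_forall_pos_le_add fun ε₂ hε₂ => ?_
    obtain ⟨m, N, S, ρ, L, hρ, hl, hB, hd, h2⟩ := H (min ε₁ ε₂) Λ (lt_min hε₁ hε₂)
    have h1 := hmain m N S _ ρ (min ε₁ ε₂) hB hρ hl (lt_min hε₁ hε₂) (min_le_left _ _) hd
    have h3 := fun (A : Set (Euc N)) (hA : MeasurableSet A) =>
      KLS.low hB hc.le ht₁0 h2 h1 A hA
    have h4 := base_fin h S hB (κ₀ := c * t₁) (by positivity) hρ (lt_min hε₁ hε₂) hd h3 A hA ε hε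
    exact h4.trans (add_le_add le_rfl (min_le_right _ _))
  have hlow := low_of_fin h (κ₀ := c * t₁) (by positivity) A hA hfin
  have hb := bdry_of_low hlow
  refine le_trans ?_ hb
  have e : ENNReal.ofReal (c * t₁ * min ((unif K).real A) (1 - (unif K).real A)) =
      t₁' * (ENNReal.ofReal c * min (unif K A) (1 - unif K A)) := by
    rw [min_ofReal h, ← ht₁e, ← ENNReal.ofReal_mul hc.le, ← ENNReal.ofReal_mul ht₁0]
    congr 1
    ring
  rw [e]
  exact mul_le_mul_right hm'.le _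

/-- existence of the parallel bodies -/
theorem exists_par {n : ℕ} {K : Set (Euc n)} (h : Body K) {p : Euc n} (hp : p ∈ K) {R : ℝ}
    (hR : K ⊆ Metric.closedBall p R) (hR0 : 0 < R) {D : ℕ → ℝ} (hD : ¬ BddAbove (range D))
    {ε' : ℝ} (hε : 0 < ε') (Λ : ℝ) :
    ∃ (m N : ℕ) (S : Split n m N) (ρ : ℝ), 0 < ρ ∧ R = Real.sqrt (2 * (D N / N)) * ρ ∧
      Λ ≤ m / (2 * ρ ^ 2) ∧ Body (Metric.cthickening ρ (S.i '' K)) ∧
      Dom S K ρ (Metric.cthickening ρ (S.i '' K)) ε' := by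
  obtain ⟨Λ₁, hΛ₁, hL⟩ := lim_out h hε
  obtain ⟨Λ', hΛ'⟩ : ∃ Λ' : ℝ, Λ' = max (max Λ Λ₁) 1 := ⟨_, rfl⟩
  have hΛ'1 : 1 ≤ Λ' := by rw [hΛ']; exact le_max_right _ _
  have hΛ'2 : Λ ≤ Λ' := by rw [hΛ']; exact (le_max_left _ _).trans (le_max_left _ _)
  have hΛ'3 : Λ₁ ≤ Λ' := by rw [hΛ']; exact (le_max_right _ _).trans (le_max_left _ _)
  obtain ⟨N, hN, hDN⟩ : ∃ N : ℕ, 2 * n + 1 ≤ N ∧ 2 * R ^ 2 * Λ' ≤ D N := by
    by_contra hcon
    push Not at hcon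
    apply hD
    obtain ⟨M, hM⟩ := ((Finset.range (2 * n + 1)).image D).bddAbove
    refine ⟨max M (2 * R ^ 2 * Λ'), ?_⟩
    rintro _ ⟨k, rfl⟩
    by_cases hk : 2 * n + 1 ≤ k
    · exact (hcon k hk).le.trans (le_max_right _ _)
    · refine le_trans (hM ?_) (le_max_left _ _)
      simp only [Finset.coe_image, Finset.coe_range, mem_image, mem_Iio]
      exact ⟨k, by omega, rfl⟩
  obtain ⟨m, hm⟩ : ∃ m : ℕ, n + m = N := ⟨N - n, by omega⟩
  obtain ⟨S⟩ := exists_split n m N hm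
  have hDpos : 0 < D N := lt_of_lt_of_le (by positivity) hDN
  have hNpos : (0 : ℝ) < N := by
    have : 0 < N := by omega
    exact_mod_cast this
  obtain ⟨ρ, hρe⟩ : ∃ ρ : ℝ, ρ = Real.sqrt (N * R ^ 2 / (2 * D N)) := ⟨_, rfl⟩
  have hρ2 : ρ ^ 2 = N * R ^ 2 / (2 * D N) := by
    rw [hρe, Real.sq_sqrt (by positivity)]
  have hρ : 0 < ρ := by
    rw [hρe]
    exact Real.sqrt_pos.2 (by positivity)
  have hmN : (N : ℝ) ≤ 2 * m := by
    have : N ≤ 2 * m := by omega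
    exact_mod_cast this
  have hl : Λ' ≤ m / (2 * ρ ^ 2) := by
    rw [hρ2, le_div_iff₀ (by positivity)]
    have h1 : Λ' * (2 * (N * R ^ 2 / (2 * D N))) = (2 * R ^ 2 * Λ') * N / (2 * D N) := by
      field_simp
    rw [h1, div_le_iff₀ (by positivity)]
    have h2 : 2 * R ^ 2 * Λ' * N ≤ D N * (2 * m) := by
      have h3 : 0 ≤ (m : ℝ) := Nat.cast_nonneg _
      calc 2 * R ^ 2 * Λ' * N ≤ D N * N := mul_le_mul_of_nonneg_right hDN hNpos.le
        _ ≤ D N * (2 * m) := mul_le_mul_of_nonneg_left hmN hDpos.le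
    linarith
  have hRe : R = Real.sqrt (2 * (D N / N)) * ρ := by
    rw [hρe, ← Real.sqrt_mul (by positivity)]
    have h1 : 2 * (D N / N) * (N * R ^ 2 / (2 * D N)) = R ^ 2 := by
      field_simp
    rw [h1, Real.sqrt_sq hR0.le]
  have hρρ : ρ ≤ R + ρ := by linarith
  have hRρ : R ^ 2 + ρ ^ 2 ≤ (R + ρ) ^ 2 := by nlinarith
  have hhat : hat S K p ρ (R + ρ) = Metric.cthickening ρ (S.i '' K) := by
    refine inter_eq_left.2 ?_
    have hc : IsCompact (S.i '' K) := h.comp.image S.i.continuous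
    intro x hx
    rw [hc.cthickening_eq_biUnion_closedBall hρ.le] at hx
    simp only [mem_iUnion, Metric.mem_closedBall] at hx
    obtain ⟨a, ⟨b, hb, rfl⟩, hd⟩ := hx
    rw [Metric.mem_closedBall]
    have h1 : dist (S.i b) (S.i p) ≤ R := by
      rw [S.i.isometry.dist_eq]
      exact hR hb
    have h2 := dist_triangle x (S.i b) (S.i p)
    linarith
  have hb := hat_body S h hp hρ hρρ
  rw [hhat] at hb
  refine ⟨m, N, S, ρ, hρ, hRe, hΛ'2.trans hl, hb, ?_⟩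
  intro T hT
  have := dom S h hp hR hρ hρρ hRρ hε (hL _ (hΛ'3.trans hl)) hT
  rw [hhat] at this
  exact this

variable {n m N : ℕ} {K : Set (Euc n)}

/-- from parallel bodies to all bodies -/
theorem par_all (h : Body K) {D : ℕ → ℝ} (hD : ¬ BddAbove (range D)) {c : ℝ}
    (H : ∀ (N : ℕ) (L : Set (Euc N)), Body L → Par (D N / N) L → (Sym K → Sym L) → KLS c L) :
    KLS c K := by
  obtain ⟨p, hp, hp0⟩ := exists_center h
  obtain ⟨R₀, hR₀⟩ := h.comp.isBounded.subset_closedBall p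
  obtain ⟨R, hR1, hR0⟩ : ∃ R : ℝ, R₀ ≤ R ∧ 0 < R := ⟨max R₀ 1, le_max_left _ _, by positivity⟩
  have hR : K ⊆ Metric.closedBall p R := hR₀.trans (Metric.closedBall_subset_closedBall hR1)
  refine core_gen h c fun ε' Λ hε' => ?_
  obtain ⟨m, N, S, ρ, hρ, hRe, hl, hb, hd⟩ := exists_par h hp hR hR0 hD hε' Λ
  refine ⟨m, N, S, ρ, _, hρ, hl, hb, hd, H N _ hb ⟨S.i '' K, S.i p, ρ, h.comp.image S.i.continuous,
    h.conv.linear_image S.i.toLinearMap, mem_image_of_mem _ hp, hρ, ?_, rfl⟩ ?_⟩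
  · rintro _ ⟨b, hb, rfl⟩
    rw [Metric.mem_closedBall, S.i.isometry.dist_eq, ← hRe]
    exact hR hb
  · intro hs x hx
    have h1 : (fun x : Euc N => -x) '' (S.i '' K) = S.i '' K := by
      ext x
      constructor
      · rintro ⟨_, ⟨b, hb, rfl⟩, rfl⟩
        exact ⟨-b, hs b hb, map_neg _ _⟩
      · rintro ⟨b, hb, rfl⟩
        exact ⟨S.i (-b), mem_image_of_mem _ (hs b hb), by rw [map_neg]; exact neg_neg _⟩
    have h2 := hx
    rw [Metric.mem_cthickening_iff] at h2 ⊢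
    have h3 := Metric.infEDist_image (t := S.i '' K) (x := x) (Φ := fun x : Euc N => -x)
      (LinearIsometryEquiv.neg ℝ).isometry
    rw [h1] at h3
    rw [h3]
    exact h2

end Pool.Agent.T2h28.NB
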