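import Pool.Agent.T2h28.NB.Mom

/-!
# Volumes of star-shaped sets in polar coordinates
-/

set_option autoImplicit false

namespace Pool.Agent.T2h28.NB

open MeasureTheory Set Filter Topology
open scoped ENNReal InnerProductSpace

variable {n : ℕ}

/-- directions -/
abbrev Sph (n : ℕ) : Type := Metric.sphere (0 : Euc n) 1

theorem vol_polar (hn : 1 ≤ n) {K : Set (Euc n)} (hK : MeasurableSet K) :
    volume K = ∫⁻ θ : Sph n, Measure.volumeIoiPow (n - 1)
      {r : Ioi (0 : ℝ) | (r : ℝ) • (θ : Euc n) ∈ K} ∂(volume : Measure (Euc n)).toSphere := by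
  have : Nonempty (Fin n) := ⟨⟨0, hn⟩⟩
  have : Nontrivial (Euc n) := inferInstance
  have hfr : Module.finrank ℝ (Euc n) = n := by simp
  have hmp := (volume : Measure (Euc n)).measurePreserving_homeomorphUnitSphereProd
  rw [hfr] at hmp
  have hB : MeasurableSet {p : Sph n × Ioi (0 : ℝ) | (p.2 : ℝ) • (p.1 : Euc n) ∈ K} := by
    have hc : Continuous fun p : Sph n × Ioi (0 : ℝ) => (p.2 : ℝ) • (p.1 : Euc n) := by fun_prop
    exact hc.measurable hK
  have h1 := hmp.measure_preimage hB.nullMeasurableSet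
  rw [Measure.prod_apply hB] at h1
  have h2 : (homeomorphUnitSphereProd (Euc n)) ⁻¹'
      {p : Sph n × Ioi (0 : ℝ) | (p.2 : ℝ) • (p.1 : Euc n) ∈ K} =
      (Subtype.val : ({0}ᶜ : Set (Euc n)) → Euc n) ⁻¹' K := by
    ext x
    have hx : (x : Euc n) ≠ 0 := x.2
    have hn0 : ‖(x : Euc n)‖ ≠ 0 := norm_ne_zero_iff.2 hx
    simp only [mem_preimage, mem_ofPred_eq, homeomorphUnitSphereProd_apply_snd_coe,
      homeomorphUnitSphereProd_apply_fst_coe]
    rw [smul_smul, mul_inv_cancel₀ hn0, one_smul]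
  rw [h2, comap_subtype_coe_apply (measurableSet_singleton _).compl,
    Subtype.image_preimage_coe] at h1
  have h3 : volume (({0}ᶜ : Set (Euc n)) ∩ K) = volume K := by
    rw [inter_comm, ← sdiff_eq, measure_sdiff_null (measure_singleton _)]
  rw [← h3, h1]
  rfl

theorem star_le (hn : 1 ≤ n) {W : Set (Euc n)} (hW : MeasurableSet W) {g : Sph n → ℝ}
    (hg : ∀ θ, 0 < g θ) (h : ∀ (θ : Sph n) (r : ℝ), 0 < r → r • (θ : Euc n) ∈ W → r < g θ) :
    volume W ≤ ∫⁻ θ : Sph n, ENNReal.ofReal (g θ ^ n / n) ∂(volume : Measure (Euc n)).toSphere := by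
  rw [vol_polar hn hW]
  refine lintegral_mono fun θ => ?_
  have h1 : {r : Ioi (0 : ℝ) | (r : ℝ) • (θ : Euc n) ∈ W} ⊆ Iio ⟨g θ, hg θ⟩ := by
    intro r hr
    exact h θ r r.2 hr
  refine (measure_mono h1).trans (le_of_eq ?_)
  rw [Measure.volumeIoiPow_apply_Iio]
  have h2 : n - 1 + 1 = n := Nat.sub_add_cancel hn
  have h3 : ((n - 1 : ℕ) : ℝ) + 1 = n := by exact_mod_cast h2
  rw [h2, h3]

theorem star_ge (hn : 1 ≤ n) {K : Set (Euc n)} (hK : MeasurableSet K) {g : Sph n → ℝ}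
    (hg : ∀ θ, 0 < g θ) (h : ∀ (θ : Sph n) (r : ℝ), 0 < r → r < g θ → r • (θ : Euc n) ∈ K) :
    ∫⁻ θ : Sph n, ENNReal.ofReal (g θ ^ n / n) ∂(volume : Measure (Euc n)).toSphere ≤ volume K := by
  rw [vol_polar hn hK]
  refine lintegral_mono fun θ => ?_
  have h1 : Iio ⟨g θ, hg θ⟩ ⊆ {r : Ioi (0 : ℝ) | (r : ℝ) • (θ : Euc n) ∈ K} := by
    intro r hr
    exact h θ r r.2 hr
  refine le_trans (le_of_eq ?_) (measure_mono h1)
  rw [Measure.volumeIoiPow_apply_Iio]
  have h2 : n - 1 + 1 = n := Nat.sub_add_cancel hn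
  have h3 : ((n - 1 : ℕ) : ℝ) + 1 = n := by exact_mod_cast h2
  rw [h2, h3]

/-- radial geometric means: if `r² < λ² g(θ) s` for all `r θ ∈ W` and `K` contains the radial set of
`g` then `|W|² ≤ λ^{2n} |K| |s B|` -/
theorem star_mean (hn : 1 ≤ n) {W K : Set (Euc n)} (hW : MeasurableSet W) (hK : MeasurableSet K)
    {g : Sph n → ℝ} (hg : ∀ θ, 0 < g θ) {s l : ℝ} (hs : 0 < s) (hl : 0 < l)
    (hWg : ∀ (θ : Sph n) (r : ℝ), 0 < r → r • (θ : Euc n) ∈ W → r ^ 2 < l ^ 2 * (g θ * s))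
    (hKg : ∀ (θ : Sph n) (r : ℝ), 0 < r → r < g θ → r • (θ : Euc n) ∈ K)
    (hK0 : 0 < (volume K).toReal) (hKt : volume K ≠ ∞) :
    volume W ^ 2 ≤ ENNReal.ofReal (l ^ (2 * n)) *
      (volume K * volume (Metric.closedBall (0 : Euc n) s)) := by
  have hB := ball_body (m := n) hs
  obtain ⟨a, ha⟩ : ∃ a : ℝ, a = (volume K).toReal := ⟨_, rfl⟩
  obtain ⟨b, hb⟩ : ∃ b : ℝ, b = (volume (Metric.closedBall (0 : Euc n) s)).toReal := ⟨_, rfl⟩
  have ha0 : 0 < a := by rw [ha]; exact hK0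
  have hb0 : 0 < b := by rw [hb]; exact hB.real_pos
  have hKa : volume K = ENNReal.ofReal a := by rw [ha, ENNReal.ofReal_toReal hKt]
  have hBb : volume (Metric.closedBall (0 : Euc n) s) = ENNReal.ofReal b := by
    rw [hb, ENNReal.ofReal_toReal hB.lt_top.ne]
  obtain ⟨t, ht⟩ : ∃ t : ℝ, t = Real.sqrt (b / a) := ⟨_, rfl⟩
  have ht0 : 0 < t := by rw [ht]; exact Real.sqrt_pos.2 (by positivity)
  have ht2 : t ^ 2 = b / a := by rw [ht, Real.sq_sqrt (by positivity)]
  have hn0 : (0 : ℝ) < n := by exact_mod_cast hn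
  have h1 := star_le hn hW (g := fun θ => l * Real.sqrt (g θ * s))
    (fun θ => mul_pos hl (Real.sqrt_pos.2 (mul_pos (hg θ) hs))) (fun θ r hr hrW => by
      have h2 := hWg θ r hr hrW
      have h3 : l ^ 2 * (g θ * s) = (l * Real.sqrt (g θ * s)) ^ 2 := by
        rw [mul_pow, Real.sq_sqrt (mul_pos (hg θ) hs).le]
      rw [h3] at h2
      exact lt_of_pow_lt_pow_left₀ 2 (by positivity) h2)
  have h2 := star_ge hn hK hg hKg
  have h3 := star_ge (K := Metric.closedBall (0 : Euc n) s) (g := fun _ => s) hn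
    (isCompact_closedBall _ _).measurableSet (fun _ => hs) (fun θ r hr hrs => by
      rw [mem_closedBall_zero_iff, norm_smul, Real.norm_eq_abs, abs_of_pos hr]
      have h4 : ‖(θ : Euc n)‖ = 1 := by
        have := θ.2
        rwa [mem_sphere_zero_iff_norm] at this
      rw [h4, mul_one]
      exact hrs.le)
  have hpt : ∀ θ : Sph n, ENNReal.ofReal ((l * Real.sqrt (g θ * s)) ^ n / n) ≤
      ENNReal.ofReal (l ^ n * t / 2) * ENNReal.ofReal (g θ ^ n / n) +
        ENNReal.ofReal (l ^ n / (2 * t)) * ENNReal.ofReal (s ^ n / n) := by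
    intro θ
    have hgθ := hg θ
    rw [← ENNReal.ofReal_mul (by positivity), ← ENNReal.ofReal_mul (by positivity),
      ← ENNReal.ofReal_add (by positivity) (by positivity)]
    refine ENNReal.ofReal_le_ofReal ?_
    obtain ⟨X, hX⟩ : ∃ X : ℝ, X = Real.sqrt (g θ ^ n) := ⟨_, rfl⟩
    obtain ⟨Y, hY⟩ : ∃ Y : ℝ, Y = Real.sqrt (s ^ n) := ⟨_, rfl⟩
    have hX2 : X ^ 2 = g θ ^ n := by rw [hX, Real.sq_sqrt (by positivity)]
    have hY2 : Y ^ 2 = s ^ n := by rw [hY, Real.sq_sqrt (by positivity)]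
    have e1 : Real.sqrt (g θ * s) ^ n = X * Y := by
      rw [hX, hY, ← Real.sqrt_mul (by positivity), ← mul_pow]
      have : Real.sqrt ((g θ * s) ^ n) = Real.sqrt (g θ * s) ^ n := by
        rw [Real.sqrt_eq_iff_mul_self_eq (by positivity) (by positivity), ← mul_pow,
          Real.mul_self_sqrt (by positivity)]
      rw [this]
    rw [mul_pow, e1, ← hX2, ← hY2]
    have h5 : X * Y ≤ t / 2 * X ^ 2 + 1 / (2 * t) * Y ^ 2 := by
      have h6 : t / 2 * X ^ 2 + 1 / (2 * t) * Y ^ 2 - X * Y = (t * X - Y) ^ 2 / (2 * t) := by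
        field_simp
        ring
      have h7 : 0 ≤ (t * X - Y) ^ 2 / (2 * t) := by positivity
      linarith
    have h8 : l ^ n * (X * Y) / n ≤ l ^ n * (t / 2 * X ^ 2 + 1 / (2 * t) * Y ^ 2) / n :=
      div_le_div_of_nonneg_right (mul_le_mul_of_nonneg_left h5 (by positivity)) hn0.le
    refine h8.trans (le_of_eq ?_)
    field_simp
  have h4 : volume W ≤ ENNReal.ofReal (l ^ n * t / 2) * volume K +
      ENNReal.ofReal (l ^ n / (2 * t)) * volume (Metric.closedBall (0 : Euc n) s) := by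
    refine h1.trans ((lintegral_mono hpt).trans ?_)
    rw [lintegral_add_right _ measurable_const, lintegral_const_mul' _ _ ENNReal.ofReal_ne_top,
      lintegral_const_mul' _ _ ENNReal.ofReal_ne_top]
    exact add_le_add (mul_le_mul_right h2 _) (mul_le_mul_right h3 _)
  have h5 : volume W ≤ ENNReal.ofReal (l ^ n * Real.sqrt (a * b)) := by
    refine h4.trans (le_of_eq ?_)
    rw [hKa, hBb, ← ENNReal.ofReal_mul (by positivity), ← ENNReal.ofReal_mul (by positivity),
      ← ENNReal.ofReal_add (by positivity) (by positivity)]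
    congr 1
    have e2 : Real.sqrt (a * b) = t * a := by
      rw [Real.sqrt_eq_iff_mul_self_eq (by positivity) (by positivity)]
      have : t * a * (t * a) = t ^ 2 * a ^ 2 := by ring
      rw [this, ht2]
      field_simp
    have e3 : b = t ^ 2 * a := by
      rw [ht2]
      field_simp
    rw [e2, e3]
    field_simp
    ring
  calc volume W ^ 2 ≤ ENNReal.ofReal (l ^ n * Real.sqrt (a * b)) ^ 2 := by gcongr
    _ = ENNReal.ofReal (l ^ (2 * n)) * (ENNReal.ofReal a * ENNReal.ofReal b) := by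
        rw [← ENNReal.ofReal_pow (by positivity), ← ENNReal.ofReal_mul (by positivity),
          ← ENNReal.ofReal_mul (by positivity)]
        congr 1
        rw [mul_pow, Real.sq_sqrt (by positivity), ← pow_mul, mul_comm n 2]
    _ = _ := by rw [hKa, hBb]

end Pool.Agent.T2h28.NB
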