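import Pool.Agent.T2h28.NB.Iso

/-!
# Reduction of KLS to near-Euclidean bodies: isotropic position
-/

set_option autoImplicit false

namespace Pool.Agent.T2h28.NB

open MeasureTheory Set Filter Topology
open scoped ENNReal InnerProductSpace

variable {n : ℕ} {K : Set (Euc n)}

theorem Vr_smul (c : ℝ) (u : Euc n) : Vr K (c • u) = c ^ 2 * Vr K u := by
  unfold Vr
  rw [← ProbabilityTheory.variance_const_mul]
  congr 1
  funext x
  rw [inner_smul_left]
  simp

theorem Vr_pos1 (h : Body K) (u : Euc n) (hu : ‖u‖ = 1) : 0 < Vr K u := by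
  have hprob := h.prob
  refine lt_of_le_of_ne (Vr_nonneg u) fun h0 => ?_
  have h1 := sq_int h u (mn K u)
  rw [← h0, sub_self] at h1
  have hm : Measurable fun x : Euc n => ENNReal.ofReal ((⟪u, x⟫_ℝ - mn K u) ^ 2) := by
    have : Continuous fun x : Euc n => (⟪u, x⟫_ℝ - mn K u) ^ 2 := by fun_prop
    exact this.measurable.ennreal_ofReal
  have h2 : ∫⁻ x, ENNReal.ofReal ((⟪u, x⟫_ℝ - mn K u) ^ 2) ∂(unif K) = 0 := by
    rw [h1]
    simp
  rw [lintegral_eq_zero_iff hm] at h2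
  obtain ⟨C, hC1, hC⟩ := slab h
  have h3 := hC u hu (mn K u - 1 / (2 * C)) (1 / (2 * C)) (by positivity)
  have h4 : (unif K).real {y : Euc n | mn K u - 1 / (2 * C) < ⟪u, y⟫_ℝ ∧
      ⟪u, y⟫_ℝ ≤ mn K u - 1 / (2 * C) + 1 / (2 * C)} = 1 := by
    have hc : Continuous fun y : Euc n => ⟪u, y⟫_ℝ := by fun_prop
    have hms : MeasurableSet {y : Euc n | mn K u - 1 / (2 * C) < ⟪u, y⟫_ℝ ∧
      ⟪u, y⟫_ℝ ≤ mn K u - 1 / (2 * C) + 1 / (2 * C)} :=
      (measurableSet_lt measurable_const hc.measurable).inter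
        (measurableSet_le hc.measurable measurable_const)
    rw [Measure.real, (mem_ae_iff_prob_eq_one hms).1 ?_]
    · simp
    · filter_upwards [h2] with y hy
      have h5 : (⟪u, y⟫_ℝ - mn K u) ^ 2 = 0 := by
        have h6 : ENNReal.ofReal ((⟪u, y⟫_ℝ - mn K u) ^ 2) = 0 := hy
        rw [ENNReal.ofReal_eq_zero] at h6
        exact le_antisymm h6 (sq_nonneg _)
      have h6 : ⟪u, y⟫_ℝ = mn K u := by
        have := pow_eq_zero_iff (two_ne_zero) |>.1 h5
        linarith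
      have hpos : 0 < 1 / (2 * C) := by positivity
      constructor
      · rw [h6]
        linarith
      · rw [h6]
        linarith
  rw [h4] at h3
  have h5 : C * (1 / (2 * C)) = 1 / 2 := by
    field_simp
  rw [h5] at h3
  norm_num at h3

theorem Vr_pos (h : Body K) (u : Euc n) (hu : u ≠ 0) : 0 < Vr K u := by
  have hn : 0 < ‖u‖ := norm_pos_iff.2 hu
  have h1 := Vr_pos1 h (‖u‖⁻¹ • u) (by rw [norm_smul, norm_inv, norm_norm, inv_mul_cancel₀ hn.ne'])
  rw [Vr_smul] at h1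
  exact pos_of_mul_pos_right h1 (by positivity)

/-- an injective linear map into an inner product space has the norms of an automorphism -/
theorem exists_T {H : Type*} [NormedAddCommGroup H] [InnerProductSpace ℝ H]
    (Q : Euc n →ₗ[ℝ] H) (hQ : Function.Injective Q) :
    ∃ T : Euc n ≃L[ℝ] Euc n, ∀ x, ‖T x‖ = ‖Q x‖ := by
  have hfr : Module.finrank ℝ (LinearMap.range Q) = n := by
    rw [LinearMap.finrank_range_of_inj hQ, finrank_euclideanSpace]
    simp
  let b := stdOrthonormalBasis ℝ (LinearMap.range Q)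
  let J : LinearMap.range Q ≃ₗᵢ[ℝ] Euc n := (b.reindex (finCongr hfr)).repr
  let T0 : Euc n ≃ₗ[ℝ] Euc n := (LinearEquiv.ofInjective Q hQ).trans J.toLinearEquiv
  refine ⟨T0.toContinuousLinearEquiv, fun x => ?_⟩
  have h1 : ‖T0 x‖ = ‖LinearEquiv.ofInjective Q hQ x‖ := by
    simp only [T0]
    exact J.norm_map _
  have h2 : ‖LinearEquiv.ofInjective Q hQ x‖ = ‖Q x‖ := rfl
  rw [← h2, ← h1]
  rfl

/-- a linear map with the norms of the standard deviations -/
theorem exists_std (h : Body K) : ∃ T : Euc n ≃L[ℝ] Euc n, ∀ u, ‖T u‖ ^ 2 = Vr K u := by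
  have hprob := h.prob
  have hc : ∀ u : Euc n, Continuous fun x : Euc n => ⟪u, x⟫_ℝ := fun u => by fun_prop
  have hmem : ∀ u : Euc n, MemLp (fun x : Euc n => ⟪u, x⟫_ℝ - mn K u) 2 (unif K) := fun u =>
    unif_memLp h (by fun_prop) 2
  have hadd : ∀ u v : Euc n, mn K (u + v) = mn K u + mn K v := by
    intro u v
    unfold mn
    rw [← integral_add (unif_int h (hc u)) (unif_int h (hc v))]
    simp_rw [inner_add_left]
  have hsmul : ∀ (c : ℝ) (u : Euc n), mn K (c • u) = c * mn K u := by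
    intro c u
    unfold mn
    rw [← integral_const_mul]
    simp_rw [inner_smul_left]
    simp
  let Q : Euc n →ₗ[ℝ] Lp ℝ 2 (unif K) :=
    { toFun := fun u => (hmem u).toLp _
      map_add' := by
        intro u v
        rw [← MemLp.toLp_add]
        congr 1
        funext x
        simp only [Pi.add_apply]
        rw [hadd, inner_add_left]
        ring
      map_smul' := by
        intro c u
        rw [RingHom.id_apply, ← MemLp.toLp_const_smul]
        congr 1
        funext x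
        simp only [Pi.smul_apply, smul_eq_mul]
        rw [hsmul, inner_smul_left]
        simp only [conj_trivial]
        ring }
  have hQ : ∀ u, ‖Q u‖ ^ 2 = Vr K u := by
    intro u
    rw [← real_inner_self_eq_norm_sq, L2.inner_def]
    have h1 := (hmem u).coeFn_toLp
    have h2 : ∫ x, ⟪(Q u : Euc n → ℝ) x, (Q u : Euc n → ℝ) x⟫_ℝ ∂(unif K) =
        ∫ x, (⟪u, x⟫_ℝ - mn K u) ^ 2 ∂(unif K) := by
      refine integral_congr_ae ?_
      filter_upwards [h1] with x hx
      have h3 : (Q u : Euc n → ℝ) x = ⟪u, x⟫_ℝ - mn K u := hx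
      rw [h3, real_inner_self_eq_norm_sq, Real.norm_eq_abs, sq_abs]
    rw [h2]
    have h3 := sq_int h u (mn K u)
    rw [sub_self, ← ofReal_integral_eq_lintegral_ofReal (unif_int h (by fun_prop))
      (ae_of_all _ fun z => sq_nonneg _)] at h3
    have h4 : 0 ≤ ∫ x, (⟪u, x⟫_ℝ - mn K u) ^ 2 ∂(unif K) :=
      integral_nonneg fun x => sq_nonneg _
    have h5 := (ENNReal.ofReal_eq_ofReal_iff h4 (by have := Vr_nonneg (K := K) u; positivity)).1 h3
    rw [h5]
    ring
  have hinj : Function.Injective Q := by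
    refine (injective_iff_map_eq_zero Q).2 fun u hu => ?_
    by_contra hne
    have h1 := Vr_pos h u hne
    rw [← hQ u, hu, norm_zero] at h1
    norm_num at h1
  obtain ⟨T, hT⟩ := exists_T Q hinj
  exact ⟨T, fun u => by rw [hT, hQ]⟩

/-- adjoint automorphism -/
theorem exists_adj (T : Euc n ≃L[ℝ] Euc n) : ∃ A : Euc n ≃L[ℝ] Euc n,
    ∀ x y, ⟪T x, y⟫_ℝ = ⟪x, A y⟫_ℝ := by
  let A1 : Euc n →L[ℝ] Euc n := ContinuousLinearMap.adjoint (T : Euc n →L[ℝ] Euc n)
  let A2 : Euc n →L[ℝ] Euc n := ContinuousLinearMap.adjoint (T.symm : Euc n →L[ℝ] Euc n)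
  have h1 : ∀ x y, ⟪A1 x, y⟫_ℝ = ⟪x, T y⟫_ℝ := fun x y =>
    ContinuousLinearMap.adjoint_inner_left (T : Euc n →L[ℝ] Euc n) y x
  have h2 : ∀ x y, ⟪A2 x, y⟫_ℝ = ⟪x, T.symm y⟫_ℝ := fun x y =>
    ContinuousLinearMap.adjoint_inner_left (T.symm : Euc n →L[ℝ] Euc n) y x
  refine ⟨ContinuousLinearEquiv.equivOfInverse A1 A2 (fun x => ?_) (fun x => ?_), fun x y => ?_⟩
  · refine ext_inner_right ℝ fun y => ?_
    rw [h2, h1, ContinuousLinearEquiv.apply_symm_apply]
  · refine ext_inner_right ℝ fun y => ?_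
    rw [h1, h2, ContinuousLinearEquiv.symm_apply_apply]
  · show ⟪T x, y⟫_ℝ = ⟪x, A1 y⟫_ℝ
    rw [real_inner_comm, ← h1, real_inner_comm]

theorem body_pre (h : Body K) (A : Euc n ≃L[ℝ] Euc n) : Body (A ⁻¹' K) where
  comp := by
    have : A ⁻¹' K = A.symm '' K := by
      rw [ContinuousLinearEquiv.image_eq_preimage_symm]
      rfl
    rw [this]
    exact h.comp.image A.symm.continuous
  conv := h.conv.linear_preimage (A : Euc n →L[ℝ] Euc n).toLinearMap
  int := by
    obtain ⟨x, hx⟩ := h.int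
    refine ⟨A.symm x, mem_interior.2 ⟨A ⁻¹' interior K, preimage_mono interior_subset,
      isOpen_interior.preimage A.continuous, ?_⟩⟩
    show A (A.symm x) ∈ interior K
    rwa [A.apply_symm_apply]

theorem unif_pre (h : Body K) (A : Euc n ≃L[ℝ] Euc n) (B : Set (Euc n)) :
    unif (A ⁻¹' K) (A ⁻¹' B) = unif K B := by
  have hb := body_pre h A
  rw [unif_apply hb, unif_apply h, ← preimage_inter,
    Measure.addHaar_preimage_continuousLinearEquiv, Measure.addHaar_preimage_continuousLinearEquiv]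
  have hdet : LinearMap.det (A.symm : Euc n →ₗ[ℝ] Euc n) ≠ 0 :=
    (LinearEquiv.isUnit_det' A.symm.toLinearEquiv).ne_zero
  have h0 : ENNReal.ofReal |LinearMap.det (A.symm : Euc n →ₗ[ℝ] Euc n)| ≠ 0 := by
    rw [Ne, ENNReal.ofReal_eq_zero, not_le]
    exact abs_pos.2 hdet
  rw [ENNReal.mul_inv (Or.inl h0) (Or.inl ENNReal.ofReal_ne_top)]
  calc (ENNReal.ofReal |LinearMap.det (A.symm : Euc n →ₗ[ℝ] Euc n)|)⁻¹ * (volume K)⁻¹ *
        (ENNReal.ofReal |LinearMap.det (A.symm : Euc n →ₗ[ℝ] Euc n)| * volume (B ∩ K))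
      = ((ENNReal.ofReal |LinearMap.det (A.symm : Euc n →ₗ[ℝ] Euc n)|)⁻¹ *
        ENNReal.ofReal |LinearMap.det (A.symm : Euc n →ₗ[ℝ] Euc n)|) *
          ((volume K)⁻¹ * volume (B ∩ K)) := by ring
    _ = _ := by rw [ENNReal.inv_mul_cancel h0 ENNReal.ofReal_ne_top, one_mul]

theorem Vr_pre (h : Body K) (A : Euc n ≃L[ℝ] Euc n) {T : Euc n ≃L[ℝ] Euc n}
    (hA : ∀ x y, ⟪T x, y⟫_ℝ = ⟪x, A y⟫_ℝ) (u : Euc n) : Vr (A ⁻¹' K) (T u) = Vr K u := by
  have hb := body_pre h A
  have hmap : Measure.map A (unif (A ⁻¹' K)) = unif K := by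
    refine Measure.ext fun B hB => ?_
    rw [Measure.map_apply A.continuous.measurable hB, unif_pre h]
  have hc : Continuous fun x : Euc n => ⟪u, x⟫_ℝ := by fun_prop
  unfold Vr
  rw [← hmap, ProbabilityTheory.variance_map hc.aemeasurable A.continuous.aemeasurable]
  congr 1
  funext x
  exact hA u x

theorem low_lin (h : Body K) (A : Euc n ≃L[ℝ] Euc n) {s : ℝ} (hs : 0 < s)
    (hA : ∀ x, ‖A x‖ ≤ s * ‖x‖) (B : Set (Euc n)) {κ : ℝ}
    (hlow : Low (unif (A ⁻¹' K)) (A ⁻¹' B) κ) : Low (unif K) B (κ / s) := by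
  have hb := body_pre h A
  have hprob := hb.prob
  intro κ' hκ'
  rw [lt_div_iff₀ hs] at hκ'
  have h1 := hlow _ hκ'
  have ht : Tendsto (fun ε : ℝ => ε / s) (𝓝[>] 0) (𝓝[>] 0) := by
    refine tendsto_nhdsWithin_iff.2 ⟨?_, ?_⟩
    · have : Tendsto (fun ε : ℝ => ε / s) (𝓝 0) (𝓝 (0 / s)) := tendsto_id.div_const s
      rw [zero_div] at this
      exact this.mono_left nhdsWithin_le_nhds
    · filter_upwards [self_mem_nhdsWithin] with ε hε
      have hε' : (0 : ℝ) < ε := hε
      show 0 < ε / s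
      positivity
  filter_upwards [ht.eventually h1, self_mem_nhdsWithin] with ε h2 hε
  have hε' : (0 : ℝ) < ε := hε
  have hreal : ∀ C : Set (Euc n), (unif K).real C = (unif (A ⁻¹' K)).real (A ⁻¹' C) := fun C => by
    rw [Measure.real, Measure.real, unif_pre h]
  rw [hreal, hreal]
  have hsub : Metric.thickening (ε / s) (A ⁻¹' B) ⊆ A ⁻¹' Metric.thickening ε B := by
    intro x hx
    rw [Metric.mem_thickening_iff] at hx
    obtain ⟨y, hy, hd⟩ := hx
    have hy' : A y ∈ B := hy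
    have hd' : dist (A x) (A y) < ε := by
      rw [dist_eq_norm, ← map_sub]
      have h5 := hA (x - y)
      rw [dist_eq_norm, lt_div_iff₀ hs] at hd
      rw [mul_comm] at hd
      exact lt_of_le_of_lt h5 hd
    have h6 : A x ∈ Metric.thickening ε B := Metric.mem_thickening_iff.2 ⟨A y, hy', hd'⟩
    exact h6
  have h3 : (unif (A ⁻¹' K)).real (Metric.thickening (ε / s) (A ⁻¹' B)) ≤
      (unif (A ⁻¹' K)).real (A ⁻¹' Metric.thickening ε B) :=
    measureReal_mono hsub (measure_ne_top _ _)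
  have h4 : κ' * s * (ε / s) = κ' * ε := by
    field_simp
  rw [h4] at h2
  linarith

end Pool.Agent.T2h28.NB
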