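import Pool.Agent.T2h28.NB.Polar

/-!
# Bodies whose supporting hyperplanes touch them near the foot of the perpendicular
-/

set_option autoImplicit false

namespace Pool.Agent.T2h28.NB

open MeasureTheory Set Filter Topology
open scoped ENNReal InnerProductSpace Pointwise

variable {n : ℕ} {K : Set (Euc n)}

/-- centred form of the condition: a supporting hyperplane at distance `h` from the origin touches `K`
only at distance at most `(1 + δ) h` -/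
def RC (δ : ℝ) (K : Set (Euc n)) : Prop :=
  ∀ u : Euc n, ‖u‖ = 1 → ∀ y ∈ K, (∀ z ∈ K, ⟪u, z⟫_ℝ ≤ ⟪u, y⟫_ℝ) → ‖y‖ ≤ (1 + δ) * ⟪u, y⟫_ℝ

theorem exists_supp (h : Body K) (u : Euc n) : ∃ y ∈ K, ∀ z ∈ K, ⟪u, z⟫_ℝ ≤ ⟪u, y⟫_ℝ := by
  have hne : K.Nonempty := h.int.mono interior_subset
  obtain ⟨y, hy, hm⟩ := h.comp.exists_isMaxOn hne (f := fun z => ⟪u, z⟫_ℝ) (by fun_prop)
  exact ⟨y, hy, fun z hz => hm hz⟩

/-- the radial function -/
theorem exists_rad (h : Body K) (h0 : (0 : Euc n) ∈ interior K) {θ : Euc n} (hθ : ‖θ‖ = 1) :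
    ∃ g : ℝ, 0 < g ∧ g • θ ∈ K ∧ ∀ r : ℝ, g < r → r • θ ∉ K := by
  obtain ⟨R, hR⟩ := h.comp.isBounded.subset_closedBall (0 : Euc n)
  have hc : Continuous fun r : ℝ => r • θ := by fun_prop
  have hclosed : IsClosed {r : ℝ | r • θ ∈ K} := h.comp.isClosed.preimage hc
  have hbd : {r : ℝ | r • θ ∈ K} ⊆ Icc (-R) R := by
    intro r hr
    have h1 := hR hr
    rw [mem_closedBall_zero_iff, norm_smul, hθ, mul_one, Real.norm_eq_abs] at h1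
    exact abs_le.1 h1
  have hcomp : IsCompact {r : ℝ | r • θ ∈ K} := isCompact_Icc.of_isClosed_subset hclosed hbd
  have hne : {r : ℝ | r • θ ∈ K}.Nonempty := ⟨0, by
    show (0 : ℝ) • θ ∈ K
    rw [zero_smul]
    exact interior_subset h0⟩
  obtain ⟨g, hg, hgm⟩ := hcomp.exists_isGreatest hne
  refine ⟨g, ?_, hg, fun r hr hrK => absurd (hgm hrK) (not_le.2 hr)⟩
  obtain ⟨η, hη, hball⟩ := Metric.mem_nhds_iff.1 (mem_interior_iff_mem_nhds.1 h0)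
  have h2 : (η / 2) • θ ∈ K := hball (by
    rw [mem_ball_zero_iff, norm_smul, hθ, mul_one, Real.norm_eq_abs, abs_of_pos (by positivity)]
    linarith)
  have h3 : η / 2 ≤ g := hgm h2
  linarith

/-- a supporting hyperplane at the end of a ray -/
theorem exists_normal (h : Body K) (h0 : (0 : Euc n) ∈ interior K) {θ : Euc n} {g : ℝ}
    (hgm : ∀ r : ℝ, g < r → r • θ ∉ K) :
    ∃ u : Euc n, ‖u‖ = 1 ∧ ∀ z ∈ K, ⟪u, z⟫_ℝ ≤ ⟪u, g • θ⟫_ℝ := by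
  have hnot : g • θ ∉ interior K := by
    intro hi
    have hc : Continuous fun r : ℝ => r • θ := by fun_prop
    have h1 : ∀ᶠ r in 𝓝 g, r • θ ∈ interior K :=
      hc.continuousAt.eventually_mem (isOpen_interior.mem_nhds hi)
    obtain ⟨η, hη, hb⟩ := Metric.eventually_nhds_iff.1 h1
    refine hgm (g + η / 2) (by linarith) (interior_subset (hb ?_))
    rw [Real.dist_eq]
    have : g + η / 2 - g = η / 2 := by ring
    rw [this, abs_of_pos (by positivity)]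
    linarith
  obtain ⟨f, hf⟩ := geometric_hahn_banach_open_point h.conv.interior isOpen_interior hnot
  have hf2 : ∀ z ∈ K, f z ≤ f (g • θ) := by
    intro z hz
    have h1 : z ∈ closure (interior K) := by
      rw [h.conv.closure_interior_eq_closure_of_nonempty_interior h.int]
      exact subset_closure hz
    exact closure_minimal (fun a ha => (hf a ha).le)
      (isClosed_le f.continuous continuous_const) h1
  obtain ⟨v, hv⟩ : ∃ v : Euc n, ∀ z, f z = ⟪v, z⟫_ℝ :=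
    ⟨(InnerProductSpace.toDual ℝ (Euc n)).symm f, fun z => by
      rw [InnerProductSpace.toDual_symm_apply]⟩
  have hv0 : v ≠ 0 := by
    intro hz
    have h1 := hf 0 h0
    rw [hv, hv, hz, inner_zero_left, inner_zero_left] at h1
    exact lt_irrefl _ h1
  have hn : 0 < ‖v‖ := norm_pos_iff.2 hv0
  refine ⟨‖v‖⁻¹ • v, by rw [norm_smul, norm_inv, norm_norm, inv_mul_cancel₀ hn.ne'], fun z hz => ?_⟩
  rw [inner_smul_left, inner_smul_left]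
  simp only [conj_trivial]
  refine mul_le_mul_of_nonneg_left ?_ (by positivity)
  rw [← hv, ← hv]
  exact hf2 z hz

/-- two vectors in coordinates relative to a direction -/
theorem inner_dec {θ a b : Euc n} (hθ : ‖θ‖ = 1) :
    ⟪θ, a⟫_ℝ * ⟪θ, b⟫_ℝ - Real.sqrt (‖a‖ ^ 2 - ⟪θ, a⟫_ℝ ^ 2) * Real.sqrt (‖b‖ ^ 2 - ⟪θ, b⟫_ℝ ^ 2) ≤
      ⟪a, b⟫_ℝ := by
  obtain ⟨α, hα⟩ : ∃ α : ℝ, α = ⟪θ, a⟫_ℝ := ⟨_, rfl⟩
  obtain ⟨β, hβ⟩ : ∃ β : ℝ, β = ⟪θ, b⟫_ℝ := ⟨_, rfl⟩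
  have hθ2 : ⟪θ, θ⟫_ℝ = 1 := by rw [real_inner_self_eq_norm_sq, hθ, one_pow]
  have ha : ‖a - α • θ‖ ^ 2 = ‖a‖ ^ 2 - α ^ 2 := by
    rw [← real_inner_self_eq_norm_sq, inner_sub_left, inner_sub_right, inner_sub_right,
      inner_smul_left, inner_smul_right, inner_smul_right, inner_smul_left, hθ2,
      real_inner_comm θ a, ← hα, real_inner_self_eq_norm_sq]
    simp only [conj_trivial]
    ring
  have hb : ‖b - β • θ‖ ^ 2 = ‖b‖ ^ 2 - β ^ 2 := by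
    rw [← real_inner_self_eq_norm_sq, inner_sub_left, inner_sub_right, inner_sub_right,
      inner_smul_left, inner_smul_right, inner_smul_right, inner_smul_left, hθ2,
      real_inner_comm θ b, ← hβ, real_inner_self_eq_norm_sq]
    simp only [conj_trivial]
    ring
  have hab : ⟪a - α • θ, b - β • θ⟫_ℝ = ⟪a, b⟫_ℝ - α * β := by
    rw [inner_sub_left, inner_sub_right, inner_sub_right, inner_smul_left, inner_smul_right,
      inner_smul_right, inner_smul_left, hθ2, real_inner_comm θ a, ← hα, ← hβ]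
    simp only [conj_trivial]
    ring
  have h1 : -(‖a - α • θ‖ * ‖b - β • θ‖) ≤ ⟪a - α • θ, b - β • θ⟫_ℝ :=
    neg_le_of_abs_le (abs_real_inner_le_norm _ _)
  rw [hab] at h1
  have h2 : Real.sqrt (‖a‖ ^ 2 - α ^ 2) = ‖a - α • θ‖ := by
    rw [← ha, Real.sqrt_sq (norm_nonneg _)]
  have h3 : Real.sqrt (‖b‖ ^ 2 - β ^ 2) = ‖b - β • θ‖ := by
    rw [← hb, Real.sqrt_sq (norm_nonneg _)]
  rw [← hα, ← hβ, h2, h3]
  linarith

/-- support values are positive -/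
theorem supp_pos (h0 : (0 : Euc n) ∈ interior K) {u y : Euc n} (hu : ‖u‖ = 1)
    (hy : ∀ z ∈ K, ⟪u, z⟫_ℝ ≤ ⟪u, y⟫_ℝ) : 0 < ⟪u, y⟫_ℝ := by
  obtain ⟨η, hη, hball⟩ := Metric.mem_nhds_iff.1 (mem_interior_iff_mem_nhds.1 h0)
  have h2 : (η / 2) • u ∈ K := hball (by
    rw [mem_ball_zero_iff, norm_smul, hu, mul_one, Real.norm_eq_abs, abs_of_pos (by positivity)]
    linarith)
  have h3 := hy _ h2
  rw [inner_smul_right, real_inner_self_eq_norm_sq, hu, one_pow, mul_one] at h3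
  linarith

/-- the support function is at most the radial function up to `1 + O(δ)` -/
theorem supp_le_rad (h : Body K) (h0 : (0 : Euc n) ∈ interior K) {δ : ℝ} (hδ : 0 ≤ δ)
    (hK : RC δ K) {θ y : Euc n} (hθ : ‖θ‖ = 1) (hyK : y ∈ K) (hy : ∀ z ∈ K, ⟪θ, z⟫_ℝ ≤ ⟪θ, y⟫_ℝ)
    {g : ℝ} (hg : 0 < g) (hgK : g • θ ∈ K) (hgm : ∀ r : ℝ, g < r → r • θ ∉ K) :
    ⟪θ, y⟫_ℝ * (1 - (2 * δ + δ ^ 2)) ≤ g := by
  obtain ⟨u, hu, hun⟩ := exists_normal h h0 hgm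
  obtain ⟨H, hH⟩ : ∃ H : ℝ, H = ⟪θ, y⟫_ℝ := ⟨_, rfl⟩
  obtain ⟨c, hc⟩ : ∃ c : ℝ, c = ⟪u, θ⟫_ℝ := ⟨_, rfl⟩
  have hHpos : 0 < H := by rw [hH]; exact supp_pos h0 hθ hy
  have hδ1 : 0 < 1 + δ := by linarith
  have hpn : ‖g • θ‖ = g := by rw [norm_smul, hθ, mul_one, Real.norm_eq_abs, abs_of_pos hg]
  have h1 := hK u hu _ hgK hun
  rw [hpn, inner_smul_right, ← hc] at h1
  have hc1 : 1 ≤ (1 + δ) * c := by
    have h2 : g * 1 ≤ g * ((1 + δ) * c) := by linarith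
    exact le_of_mul_le_mul_left h2 hg
  have hc0 : 0 < c := by
    by_contra hcon
    rw [not_lt] at hcon
    nlinarith
  have h2 := hun y hyK
  rw [inner_smul_right, ← hc] at h2
  have h3 := hK θ hθ y hyK hy
  rw [← hH] at h3
  have h4 := inner_dec (a := u) (b := y) hθ
  rw [real_inner_comm u θ, ← hc, ← hH, hu] at h4
  have h5 : Real.sqrt (1 ^ 2 - c ^ 2) ≤ Real.sqrt (2 * δ + δ ^ 2) / (1 + δ) := by
    have e : Real.sqrt (2 * δ + δ ^ 2) / (1 + δ) = Real.sqrt ((2 * δ + δ ^ 2) / (1 + δ) ^ 2) := by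
      rw [Real.sqrt_div (by positivity), Real.sqrt_sq hδ1.le]
    rw [e]
    refine Real.sqrt_le_sqrt ?_
    rw [le_div_iff₀ (by positivity)]
    have h6 : 1 ≤ ((1 + δ) * c) ^ 2 := one_le_pow₀ hc1
    nlinarith
  have h6 : Real.sqrt (‖y‖ ^ 2 - H ^ 2) ≤ H * Real.sqrt (2 * δ + δ ^ 2) := by
    have e : H * Real.sqrt (2 * δ + δ ^ 2) = Real.sqrt (H ^ 2 * (2 * δ + δ ^ 2)) := by
      rw [Real.sqrt_mul (sq_nonneg _), Real.sqrt_sq hHpos.le]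
    rw [e]
    refine Real.sqrt_le_sqrt ?_
    have h7 := pow_le_pow_left₀ (norm_nonneg _) h3 2
    nlinarith
  have h7 : Real.sqrt (1 ^ 2 - c ^ 2) * Real.sqrt (‖y‖ ^ 2 - H ^ 2) ≤
      H * (2 * δ + δ ^ 2) / (1 + δ) := by
    calc Real.sqrt (1 ^ 2 - c ^ 2) * Real.sqrt (‖y‖ ^ 2 - H ^ 2)
        ≤ Real.sqrt (2 * δ + δ ^ 2) / (1 + δ) * (H * Real.sqrt (2 * δ + δ ^ 2)) :=
          mul_le_mul h5 h6 (Real.sqrt_nonneg _) (by positivity)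
      _ = H * (Real.sqrt (2 * δ + δ ^ 2) * Real.sqrt (2 * δ + δ ^ 2)) / (1 + δ) := by ring
      _ = _ := by rw [Real.mul_self_sqrt (by positivity)]
  have h8 : c * H - H * (2 * δ + δ ^ 2) / (1 + δ) ≤ g * c :=
    (sub_le_sub_left h7 _).trans (h4.trans h2)
  have h9 : H * (2 * δ + δ ^ 2) / (1 + δ) ≤ c * (H * (2 * δ + δ ^ 2)) := by
    rw [div_le_iff₀ hδ1]
    have : 0 ≤ H * (2 * δ + δ ^ 2) := by positivity
    nlinarith
  have h10 : c * (H * (1 - (2 * δ + δ ^ 2))) ≤ c * g := by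
    have e : c * (H * (1 - (2 * δ + δ ^ 2))) = c * H - c * (H * (2 * δ + δ ^ 2)) := by ring
    rw [e, mul_comm c g]
    exact (sub_le_sub_left h9 _).trans h8
  rw [← hH]
  exact le_of_mul_le_mul_left h10 hc0

/-- one step along a great circle -/
theorem supp_step {δ : ℝ} (h0 : (0 : Euc n) ∈ interior K)
    (hK : RC δ K) {θ θ' y y' : Euc n} (hθ : ‖θ‖ = 1) (hθ' : ‖θ'‖ = 1) (hyK : y ∈ K)
    (hy : ∀ z ∈ K, ⟪θ, z⟫_ℝ ≤ ⟪θ, y⟫_ℝ) (hy' : ∀ z ∈ K, ⟪θ', z⟫_ℝ ≤ ⟪θ', y'⟫_ℝ) :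
    ⟪θ, y⟫_ℝ * (⟪θ, θ'⟫_ℝ - Real.sqrt (2 * δ + δ ^ 2) * Real.sqrt (1 - ⟪θ, θ'⟫_ℝ ^ 2)) ≤
      ⟪θ', y'⟫_ℝ := by
  obtain ⟨H, hH⟩ : ∃ H : ℝ, H = ⟪θ, y⟫_ℝ := ⟨_, rfl⟩
  have hHpos : 0 < H := by rw [hH]; exact supp_pos h0 hθ hy
  have h3 := hK θ hθ y hyK hy
  rw [← hH] at h3
  have h6 : Real.sqrt (‖y‖ ^ 2 - H ^ 2) ≤ H * Real.sqrt (2 * δ + δ ^ 2) := by
    have e : H * Real.sqrt (2 * δ + δ ^ 2) = Real.sqrt (H ^ 2 * (2 * δ + δ ^ 2)) := by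
      rw [Real.sqrt_mul (sq_nonneg _), Real.sqrt_sq hHpos.le]
    rw [e]
    refine Real.sqrt_le_sqrt ?_
    have h7 := pow_le_pow_left₀ (norm_nonneg _) h3 2
    nlinarith
  have h4 := inner_dec (a := θ') (b := y) hθ
  rw [← hH, hθ', one_pow] at h4
  have h5 := hy' y hyK
  have h7 : Real.sqrt (1 - ⟪θ, θ'⟫_ℝ ^ 2) * Real.sqrt (‖y‖ ^ 2 - H ^ 2) ≤
      Real.sqrt (1 - ⟪θ, θ'⟫_ℝ ^ 2) * (H * Real.sqrt (2 * δ + δ ^ 2)) :=
    mul_le_mul_of_nonneg_left h6 (Real.sqrt_nonneg _)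
  rw [← hH]
  nlinarith

end Pool.Agent.T2h28.NB
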