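import Pool.Agent.T2h28.NB.Hs

/-!
# Reduction of KLS to near-Euclidean bodies: coordinates
-/

set_option autoImplicit false

namespace Pool.Agent.T2h28.NB

open MeasureTheory Set Filter Topology
open scoped ENNReal InnerProductSpace

/-- an orthogonal decomposition of `ℝ^N` into `ℝ^n` and `ℝ^m` -/
structure Split (n m N : ℕ) where
  P : Euc N →ₗ[ℝ] Euc n
  Q : Euc N →ₗ[ℝ] Euc m
  i : Euc n →ₗᵢ[ℝ] Euc N
  k : Euc m →ₗᵢ[ℝ] Euc N
  Pi : ∀ y, P (i y) = y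
  Qi : ∀ y, Q (i y) = 0
  Pk : ∀ z, P (k z) = 0
  Qk : ∀ z, Q (k z) = z
  inner_eq : ∀ x y, ⟪x, y⟫_ℝ = ⟪P x, P y⟫_ℝ + ⟪Q x, Q y⟫_ℝ
  mp : MeasurePreserving (fun x => (P x, Q x)) (volume : Measure (Euc N))
    ((volume : Measure (Euc n)).prod (volume : Measure (Euc m)))

theorem exists_split (n m N : ℕ) (hN : n + m = N) : Nonempty (Split n m N) := by
  have hfr : Module.finrank ℝ (WithLp 2 (Euc n × Euc m)) = N := by
    rw [(WithLp.linearEquiv 2 ℝ (Euc n × Euc m)).finrank_eq, Module.finrank_prod]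
    simp [hN]
  let e : WithLp 2 (Euc n × Euc m) ≃ₗᵢ[ℝ] Euc N :=
    ((stdOrthonormalBasis ℝ (WithLp 2 (Euc n × Euc m))).reindex (finCongr hfr)).repr
  let L := (WithLp.linearEquiv 2 ℝ (Euc n × Euc m))
  refine ⟨{
    P := (LinearMap.fst ℝ (Euc n) (Euc m)).comp
      (L.toLinearMap.comp e.symm.toLinearEquiv.toLinearMap)
    Q := (LinearMap.snd ℝ (Euc n) (Euc m)).comp
      (L.toLinearMap.comp e.symm.toLinearEquiv.toLinearMap)
    i := ⟨e.toLinearEquiv.toLinearMap.comp (L.symm.toLinearMap.comp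
      (LinearMap.inl ℝ (Euc n) (Euc m))), ?_⟩
    k := ⟨e.toLinearEquiv.toLinearMap.comp (L.symm.toLinearMap.comp
      (LinearMap.inr ℝ (Euc n) (Euc m))), ?_⟩
    Pi := ?_
    Qi := ?_
    Pk := ?_
    Qk := ?_
    inner_eq := ?_
    mp := ?_ }⟩
  · intro y
    show ‖e (WithLp.toLp 2 (y, 0))‖ = ‖y‖
    rw [e.norm_map]
    simp
  · intro y
    show ‖e (WithLp.toLp 2 (0, y))‖ = ‖y‖
    rw [e.norm_map]
    simp
  · intro y
    show (WithLp.ofLp (e.symm (e (WithLp.toLp 2 (y, (0 : Euc m)))))).1 = y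
    rw [e.symm_apply_apply]
  · intro y
    show (WithLp.ofLp (e.symm (e (WithLp.toLp 2 (y, (0 : Euc m)))))).2 = 0
    rw [e.symm_apply_apply]
  · intro y
    show (WithLp.ofLp (e.symm (e (WithLp.toLp 2 ((0 : Euc n), y))))).1 = 0
    rw [e.symm_apply_apply]
  · intro y
    show (WithLp.ofLp (e.symm (e (WithLp.toLp 2 ((0 : Euc n), y))))).2 = y
    rw [e.symm_apply_apply]
  · intro x y
    show ⟪x, y⟫_ℝ = ⟪(WithLp.ofLp (e.symm x)).1, (WithLp.ofLp (e.symm y)).1⟫_ℝ +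
      ⟪(WithLp.ofLp (e.symm x)).2, (WithLp.ofLp (e.symm y)).2⟫_ℝ
    rw [← WithLp.prod_inner_apply, LinearIsometryEquiv.inner_map_map]
  · exact (WithLp.volume_preserving_ofLp (Euc n) (Euc m)).comp e.symm.measurePreserving

variable {n m N : ℕ} (S : Split n m N)

namespace Split

theorem norm_eq (x : Euc N) : ‖x‖ ^ 2 = ‖S.P x‖ ^ 2 + ‖S.Q x‖ ^ 2 := by
  rw [← real_inner_self_eq_norm_sq, ← real_inner_self_eq_norm_sq, ← real_inner_self_eq_norm_sq,
    S.inner_eq]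

theorem norm_P_le (x : Euc N) : ‖S.P x‖ ≤ ‖x‖ := by
  have h := S.norm_eq x
  have h1 := sq_nonneg ‖S.Q x‖
  exact le_of_sq_le_sq (by linarith) (norm_nonneg _)

theorem norm_Q_le (x : Euc N) : ‖S.Q x‖ ≤ ‖x‖ := by
  have h := S.norm_eq x
  have h1 := sq_nonneg ‖S.P x‖
  exact le_of_sq_le_sq (by linarith) (norm_nonneg _)

theorem P_cont : Continuous S.P := S.P.continuous_of_finiteDimensional

theorem Q_cont : Continuous S.Q := S.Q.continuous_of_finiteDimensional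

/-- the cylinder over a set -/
def cyl (A : Set (Euc n)) : Set (Euc N) := {x | S.P x ∈ A}

theorem meas_cyl {A : Set (Euc n)} (hA : MeasurableSet A) : MeasurableSet (S.cyl A) :=
  S.P_cont.measurable hA

theorem thick_cyl (A : Set (Euc n)) (ε : ℝ) :
    Metric.thickening ε (S.cyl A) = S.cyl (Metric.thickening ε A) := by
  ext x
  show x ∈ Metric.thickening ε (S.cyl A) ↔ S.P x ∈ Metric.thickening ε A
  rw [Metric.mem_thickening_iff, Metric.mem_thickening_iff]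
  constructor
  · rintro ⟨y, hy, hd⟩
    refine ⟨S.P y, hy, lt_of_le_of_lt ?_ hd⟩
    rw [dist_eq_norm, dist_eq_norm, ← map_sub]
    exact S.norm_P_le _
  · rintro ⟨a, ha, hd⟩
    refine ⟨S.i a + S.k (S.Q x), ?_, ?_⟩
    · show S.P (S.i a + S.k (S.Q x)) ∈ A
      rw [map_add, S.Pi, S.Pk, add_zero]
      exact ha
    · rw [dist_eq_norm] at hd ⊢
      have h1 := S.norm_eq (x - (S.i a + S.k (S.Q x)))
      rw [map_sub, map_sub, map_add, map_add, S.Pi, S.Pk, S.Qi, S.Qk, add_zero, zero_add,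
        sub_self, norm_zero] at h1
      have h2 : ‖x - (S.i a + S.k (S.Q x))‖ = ‖S.P x - a‖ := by
        have h3 : ‖x - (S.i a + S.k (S.Q x))‖ ^ 2 = ‖S.P x - a‖ ^ 2 := by
          rw [h1]
          ring
        exact (sq_eq_sq₀ (norm_nonneg _) (norm_nonneg _)).1 h3
      rw [h2]
      exact hd

theorem vol_pre {T : Set (Euc n × Euc m)} (hT : MeasurableSet T) :
    volume {x : Euc N | (S.P x, S.Q x) ∈ T} =
      ((volume : Measure (Euc n)).prod (volume : Measure (Euc m))) T :=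
  S.mp.measure_preimage hT.nullMeasurableSet

end Split

/-- volumes of sections of balls -/
theorem vol_sec {m : ℕ} (z₀ : Euc m) {ρ s : ℝ} (hρ : 0 < ρ) :
    volume {z : Euc m | ‖z - z₀‖ ^ 2 ≤ ρ ^ 2 - s ^ 2} ≤
      ENNReal.ofReal (Real.exp (-(m / (2 * ρ ^ 2) * s ^ 2))) *
        volume (Metric.closedBall (0 : Euc m) ρ) := by
  by_cases hs : ρ ^ 2 - s ^ 2 < 0
  · have : {z : Euc m | ‖z - z₀‖ ^ 2 ≤ ρ ^ 2 - s ^ 2} = ∅ := by
      ext z
      simp only [mem_ofPred_eq, mem_empty_iff_false, iff_false, not_le]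
      exact hs.trans_le (sq_nonneg _)
    rw [this, measure_empty]
    exact zero_le
  rw [not_lt] at hs
  have e : {z : Euc m | ‖z - z₀‖ ^ 2 ≤ ρ ^ 2 - s ^ 2} =
      Metric.closedBall z₀ (Real.sqrt (ρ ^ 2 - s ^ 2)) := by
    ext z
    simp only [mem_ofPred_eq, Metric.mem_closedBall, dist_eq_norm]
    constructor
    · intro h
      exact Real.le_sqrt_of_sq_le h
    · intro h
      have h1 := pow_le_pow_left₀ (norm_nonneg _) h 2
      rwa [Real.sq_sqrt hs] at h1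
  rw [e, Measure.addHaar_closedBall _ _ (Real.sqrt_nonneg _), Measure.addHaar_closedBall _ _ hρ.le,
    ← mul_assoc, ← ENNReal.ofReal_mul (Real.exp_pos _).le]
  refine mul_le_mul_left (ENNReal.ofReal_le_ofReal ?_) _
  have hfr : Module.finrank ℝ (Euc m) = m := by simp
  rw [hfr]
  have h1 : Real.sqrt (ρ ^ 2 - s ^ 2) ≤ Real.exp (-(s ^ 2 / (2 * ρ ^ 2))) * ρ := by
    rw [← Real.sqrt_sq (show 0 ≤ Real.exp (-(s ^ 2 / (2 * ρ ^ 2))) * ρ by positivity)]
    refine Real.sqrt_le_sqrt ?_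
    rw [mul_pow, ← Real.exp_nat_mul]
    have h2 := Real.add_one_le_exp (((2 : ℕ) : ℝ) * -(s ^ 2 / (2 * ρ ^ 2)))
    have h3 : (((2 : ℕ) : ℝ) * -(s ^ 2 / (2 * ρ ^ 2)) + 1) * ρ ^ 2 = ρ ^ 2 - s ^ 2 := by
      field_simp
      push_cast
      ring
    rw [← h3]
    exact mul_le_mul_of_nonneg_right h2 (by positivity)
  calc Real.sqrt (ρ ^ 2 - s ^ 2) ^ m ≤ (Real.exp (-(s ^ 2 / (2 * ρ ^ 2))) * ρ) ^ m :=
        pow_le_pow_left₀ (Real.sqrt_nonneg _) h1 m
    _ = Real.exp (-(m / (2 * ρ ^ 2) * s ^ 2)) * ρ ^ m := by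
        rw [mul_pow, ← Real.exp_nat_mul]
        congr 2
        field_simp

end Pool.Agent.T2h28.NB
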