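import Pool.Agent.T2h28.NB.Lim2

/-!
# Reduction of KLS to near-Euclidean bodies: variances of the marginals
-/

set_option autoImplicit false

namespace Pool.Agent.T2h28.NB

open MeasureTheory Set Filter Topology
open scoped ENNReal InnerProductSpace

variable {n : ℕ} {K : Set (Euc n)}

/-- variance of a marginal -/
noncomputable def Vr (K : Set (Euc n)) (u : Euc n) : ℝ :=
  ProbabilityTheory.variance (fun x => ⟪u, x⟫_ℝ) (unif K)

/-- mean of a marginal -/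
noncomputable def mn (K : Set (Euc n)) (u : Euc n) : ℝ := ∫ x, ⟪u, x⟫_ℝ ∂(unif K)

theorem ae_mem (h : Body K) : ∀ᵐ x ∂(unif K), x ∈ K := by
  unfold unif
  refine Measure.ae_smul_measure ?_ _
  exact ae_restrict_mem h.comp.measurableSet

theorem unif_bdd (h : Body K) {f : Euc n → ℝ} (hf : Continuous f) :
    ∃ C : ℝ, ∀ᵐ x ∂(unif K), ‖f x‖ ≤ C := by
  obtain ⟨C, hC⟩ := h.comp.exists_bound_of_continuousOn hf.continuousOn
  exact ⟨C, (ae_mem h).mono fun x hx => hC x hx⟩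

theorem unif_memLp (h : Body K) {f : Euc n → ℝ} (hf : Continuous f) (q : ℝ≥0∞) :
    MemLp f q (unif K) := by
  have := h.prob
  obtain ⟨C, hC⟩ := unif_bdd h hf
  exact MemLp.of_bound hf.aestronglyMeasurable C hC

theorem unif_int (h : Body K) {f : Euc n → ℝ} (hf : Continuous f) : Integrable f (unif K) := by
  have := h.prob
  exact (unif_memLp h hf 1).integrable le_rfl

theorem sq_int (h : Body K) (u : Euc n) (c : ℝ) :
    ∫⁻ x, ENNReal.ofReal ((⟪u, x⟫_ℝ - c) ^ 2) ∂(unif K) =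
      ENNReal.ofReal (Vr K u + (mn K u - c) ^ 2) := by
  have := h.prob
  have hc1 : Continuous fun x : Euc n => ⟪u, x⟫_ℝ := by fun_prop
  have hc2 : Continuous fun x : Euc n => ⟪u, x⟫_ℝ - c := by fun_prop
  rw [← ofReal_integral_eq_lintegral_ofReal (unif_int h (by fun_prop))
    (ae_of_all _ fun z => sq_nonneg _)]
  congr 1
  have h1 := ProbabilityTheory.variance_eq_sub (μ := unif K) (unif_memLp h hc2 2)
  rw [ProbabilityTheory.variance_sub_const hc1.aestronglyMeasurable] at h1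
  have h2 : ∫ x, ⟪u, x⟫_ℝ - c ∂(unif K) = mn K u - c := by
    rw [integral_sub (unif_int h hc1) (integrable_const _), integral_const]
    simp [mn]
  rw [h2] at h1
  have h3 : ∫ x, ((fun x : Euc n => ⟪u, x⟫_ℝ - c) ^ 2) x ∂(unif K) =
      ∫ x, (⟪u, x⟫_ℝ - c) ^ 2 ∂(unif K) := rfl
  rw [h3] at h1
  unfold Vr
  linarith

theorem Vr_le (h : Body K) (u : Euc n) (c : ℝ) : ENNReal.ofReal (Vr K u) ≤
    ∫⁻ x, ENNReal.ofReal ((⟪u, x⟫_ℝ - c) ^ 2) ∂(unif K) := by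
  rw [sq_int h]
  exact ENNReal.ofReal_le_ofReal (by have := sq_nonneg (mn K u - c); linarith)

theorem Vr_nonneg (u : Euc n) : 0 ≤ Vr K u := ProbabilityTheory.variance_nonneg _ _

theorem mn_dist (h : Body K) {p : Euc n} {R : ℝ} (hR : K ⊆ Metric.closedBall p R) {a : Euc n}
    (ha : ‖a‖ ≤ 1) (y : Euc n) : |⟪a, y⟫_ℝ - mn K a| ≤ ‖y - p‖ + R := by
  have := h.prob
  have hc1 : Continuous fun x : Euc n => ⟪a, x⟫_ℝ := by fun_prop
  have e : ⟪a, y⟫_ℝ - mn K a = ∫ x, (⟪a, y⟫_ℝ - ⟪a, x⟫_ℝ) ∂(unif K) := by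
    rw [integral_sub (integrable_const _) (unif_int h hc1), integral_const]
    simp [mn]
  rw [e, ← Real.norm_eq_abs]
  have h1 : ∀ᵐ x ∂(unif K), ‖⟪a, y⟫_ℝ - ⟪a, x⟫_ℝ‖ ≤ ‖y - p‖ + R := by
    filter_upwards [ae_mem h] with x hx
    rw [← inner_sub_right, Real.norm_eq_abs]
    refine (abs_real_inner_le_norm _ _).trans ?_
    have h2 : ‖y - x‖ ≤ ‖y - p‖ + R := by
      have h3 := hR hx
      rw [Metric.mem_closedBall, dist_eq_norm, norm_sub_rev] at h3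
      have h4 : y - x = (y - p) + (p - x) := by abel
      rw [h4]
      exact (norm_add_le _ _).trans (add_le_add le_rfl h3)
    calc ‖a‖ * ‖y - x‖ ≤ 1 * ‖y - x‖ := mul_le_mul_of_nonneg_right ha (norm_nonneg _)
      _ = ‖y - x‖ := one_mul _
      _ ≤ _ := h2
  have h2 := norm_integral_le_of_norm_le_const h1
  rwa [probReal_univ, mul_one] at h2

theorem lint_unif (h : Body K) (f : Euc n → ℝ≥0∞) :
    ∫⁻ x, f x ∂(unif K) = (volume K)⁻¹ * ∫⁻ x in K, f x := by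
  unfold unif
  rw [lintegral_smul_measure, smul_eq_mul]

theorem lint_set (h : Body K) (f : Euc n → ℝ≥0∞) :
    ∫⁻ x in K, f x = volume K * ∫⁻ x, f x ∂(unif K) := by
  rw [lint_unif h, ← mul_assoc, ENNReal.mul_inv_cancel h.pos.ne' h.lt_top.ne, one_mul]

variable {m N : ℕ} (S : Split n m N) {p : Euc n}

theorem inner_split (u x : Euc N) : ⟪u, x⟫_ℝ = ⟪S.P u, S.P x⟫_ℝ + ⟪S.Q u, S.Q x⟫_ℝ := S.inner_eq u x

/-- integrals over the region -/
theorem reg_int (hm : 1 ≤ m) {τ ρ' : ℝ} (hτ : 0 ≤ τ) (hρ : 0 < ρ') (a : Euc n) (b : Euc m) (c : ℝ) :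
    ∫⁻ q in reg m K τ ρ', ENNReal.ofReal ((⟪a, q.1⟫_ℝ - c + ⟪b, q.2⟫_ℝ) ^ 2)
        ∂((volume : Measure (Euc n)).prod (volume : Measure (Euc m))) ≤
      (∫⁻ y : Euc n, ENNReal.ofReal (((⟪a, y⟫_ℝ - c) ^ 2 + ‖b‖ ^ 2 * ρ' ^ 2 * vm m) *
        Real.exp (-(m / ρ' * τ * Metric.infDist y K)))) *
        volume (Metric.closedBall (0 : Euc m) ρ') := by
  have hvm : 0 ≤ vm m := le_trans (by positivity) (vm_ge hm)
  have hg : Measurable fun q : Euc n × Euc m =>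
      ENNReal.ofReal ((⟪a, q.1⟫_ℝ - c + ⟪b, q.2⟫_ℝ) ^ 2) := by
    have : Continuous fun q : Euc n × Euc m => (⟪a, q.1⟫_ℝ - c + ⟪b, q.2⟫_ℝ) ^ 2 := by fun_prop
    exact this.measurable.ennreal_ofReal
  rw [← lintegral_indicator (reg_meas τ ρ'), lintegral_prod _
    (hg.indicator (reg_meas τ ρ')).aemeasurable, ← lintegral_mul_const' _ _
    (isCompact_closedBall _ _).measure_lt_top.ne]
  refine lintegral_mono fun y => ?_
  have e1 : ∀ z : Euc m, (reg m K τ ρ').indicator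
      (fun q : Euc n × Euc m => ENNReal.ofReal ((⟪a, q.1⟫_ℝ - c + ⟪b, q.2⟫_ℝ) ^ 2)) (y, z) =
      (Metric.closedBall (0 : Euc m) (ρ' - τ * Metric.infDist y K)).indicator
        (fun z => ENNReal.ofReal ((⟪a, y⟫_ℝ - c + ⟪b, z⟫_ℝ) ^ 2)) z := by
    intro z
    have e2 : (y, z) ∈ reg m K τ ρ' ↔
        z ∈ Metric.closedBall (0 : Euc m) (ρ' - τ * Metric.infDist y K) := by
      rw [mem_closedBall_zero_iff]
      show ‖z‖ + τ * Metric.infDist y K ≤ ρ' ↔ _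
      constructor <;> intro h <;> linarith
    by_cases hz : (y, z) ∈ reg m K τ ρ'
    · rw [indicator_of_mem hz, indicator_of_mem (e2.1 hz)]
    · rw [indicator_of_notMem hz, indicator_of_notMem (fun h => hz (e2.2 h))]
  show ∫⁻ z : Euc m, (reg m K τ ρ').indicator
      (fun q : Euc n × Euc m => ENNReal.ofReal ((⟪a, q.1⟫_ℝ - c + ⟪b, q.2⟫_ℝ) ^ 2)) (y, z) ≤ _
  simp_rw [e1]
  rw [lintegral_indicator (isCompact_closedBall _ _).measurableSet]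
  obtain ⟨r, hr⟩ : ∃ r : ℝ, r = ρ' - τ * Metric.infDist y K := ⟨_, rfl⟩
  have hd := Metric.infDist_nonneg (x := y) (s := K)
  have hrρ : r ≤ ρ' := by
    rw [hr]
    have := mul_nonneg hτ hd
    linarith
  have hv : volume (Metric.closedBall (0 : Euc m) r) ≤
      ENNReal.ofReal (Real.exp (-(m / ρ' * τ * Metric.infDist y K))) *
        volume (Metric.closedBall (0 : Euc m) ρ') := by
    rw [hr]
    refine (vol_sec2 hρ).trans (le_of_eq ?_)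
    rw [mul_assoc (m / ρ' : ℝ) τ]
  rw [← hr]
  have hnn : 0 ≤ (⟪a, y⟫_ℝ - c) ^ 2 + ‖b‖ ^ 2 * ρ' ^ 2 * vm m := by positivity
  rcases lt_trichotomy r 0 with h0 | h0 | h0
  · rw [Metric.closedBall_eq_empty.2 h0]
    simp
  · rw [h0, Metric.closedBall_zero]
    have h1 : volume ({0} : Set (Euc m)) = 0 := by
      have : Nonempty (Fin m) := ⟨⟨0, hm⟩⟩
      exact measure_singleton _
    rw [Measure.restrict_zero_set h1]
    simp
  · rw [inner_eq hm b _ h0]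
    calc ENNReal.ofReal ((⟪a, y⟫_ℝ - c) ^ 2 + ‖b‖ ^ 2 * r ^ 2 * vm m) *
          volume (Metric.closedBall (0 : Euc m) r)
        ≤ ENNReal.ofReal ((⟪a, y⟫_ℝ - c) ^ 2 + ‖b‖ ^ 2 * ρ' ^ 2 * vm m) *
          (ENNReal.ofReal (Real.exp (-(m / ρ' * τ * Metric.infDist y K))) *
            volume (Metric.closedBall (0 : Euc m) ρ')) := by
          refine mul_le_mul' (ENNReal.ofReal_le_ofReal ?_) hv
          have h2 : r ^ 2 ≤ ρ' ^ 2 := pow_le_pow_left₀ h0.le hrρ 2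
          have h3 : ‖b‖ ^ 2 * r ^ 2 * vm m ≤ ‖b‖ ^ 2 * ρ' ^ 2 * vm m :=
            mul_le_mul_of_nonneg_right (mul_le_mul_of_nonneg_left h2 (sq_nonneg _)) hvm
          linarith
      _ = _ := by
          rw [← mul_assoc, ← ENNReal.ofReal_mul hnn]

/-- upper bound for the variances -/
theorem var_up (hm : 1 ≤ m) (h : Body K) (hp : p ∈ K) {R : ℝ} (hR : K ⊆ Metric.closedBall p R)
    {σ2 : ℝ} (hσ : 0 < σ2) (hiso : ∀ a : Euc n, Vr K a = ‖a‖ ^ 2 * σ2) {τ ρ' ε' : ℝ} (hτ : 0 ≤ τ)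
    (hρ : 0 < ρ') (hρσ : ρ' ^ 2 * vm m = σ2) (hε : 0 < ε') {H : Set (Euc N)} (hH : Body H)
    (hreg : ∀ x ∈ H, (S.P x, S.Q x) ∈ reg m K τ ρ')
    (hmem : ∀ x : Euc N, S.P x ∈ K → ‖S.Q x‖ ≤ ρ' → x ∈ H)
    (hl : ∫⁻ y in Kᶜ, ENNReal.ofReal (((1 + R) ^ 2 + σ2) * (1 + ‖y - p‖) ^ 2 *
      Real.exp (-(m / ρ' * τ * Metric.infDist y K))) ≤ ENNReal.ofReal ε' * volume K)
    (u : Euc N) (hu : ‖u‖ = 1) : Vr H u ≤ σ2 + ε' := by
  have hprob := h.prob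
  have hR0 : 0 ≤ R := by
    have := hR hp
    rw [Metric.mem_closedBall, dist_self] at this
    exact this
  obtain ⟨a, ha⟩ : ∃ a : Euc n, a = S.P u := ⟨_, rfl⟩
  obtain ⟨b, hb⟩ : ∃ b : Euc m, b = S.Q u := ⟨_, rfl⟩
  have hab : ‖a‖ ^ 2 + ‖b‖ ^ 2 = 1 := by
    rw [ha, hb, ← S.norm_eq, hu, one_pow]
  have ha1 : ‖a‖ ≤ 1 := by
    rw [ha, ← hu]
    exact S.norm_P_le u
  have hb1 : ‖b‖ ^ 2 ≤ 1 := by have := sq_nonneg ‖a‖; linarith
  obtain ⟨c, hc⟩ : ∃ c : ℝ, c = mn K a := ⟨_, rfl⟩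
  obtain ⟨vB, hvB⟩ : ∃ vB : ℝ≥0∞, vB = volume (Metric.closedBall (0 : Euc m) ρ') := ⟨_, rfl⟩
  have hB := ball_body (m := m) hρ
  have hvB0 : vB ≠ 0 := by rw [hvB]; exact hB.pos.ne'
  have hvBt : vB ≠ ∞ := by rw [hvB]; exact hB.lt_top.ne
  have hgm : Measurable fun q : Euc n × Euc m =>
      ENNReal.ofReal ((⟪a, q.1⟫_ℝ - c + ⟪b, q.2⟫_ℝ) ^ 2) := by
    have : Continuous fun q : Euc n × Euc m => (⟪a, q.1⟫_ℝ - c + ⟪b, q.2⟫_ℝ) ^ 2 := by fun_prop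
    exact this.measurable.ennreal_ofReal
  have h1 : ∫⁻ x in H, ENNReal.ofReal ((⟪u, x⟫_ℝ - c) ^ 2) ≤
      (∫⁻ y : Euc n, ENNReal.ofReal (((⟪a, y⟫_ℝ - c) ^ 2 + ‖b‖ ^ 2 * ρ' ^ 2 * vm m) *
        Real.exp (-(m / ρ' * τ * Metric.infDist y K)))) * vB := by
    rw [hvB]
    refine le_trans ?_ (reg_int hm hτ hρ a b c)
    rw [← S.mp.setLIntegral_comp_preimage (reg_meas τ ρ') hgm]
    refine (lintegral_mono_set (fun x hx => hreg x hx)).trans (le_of_eq ?_)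
    refine lintegral_congr fun x => ?_
    show ENNReal.ofReal ((⟪u, x⟫_ℝ - c) ^ 2) =
      ENNReal.ofReal ((⟪a, S.P x⟫_ℝ - c + ⟪b, S.Q x⟫_ℝ) ^ 2)
    rw [ha, hb, S.inner_eq u x]
    congr 2
    ring
  have h2 : ∫⁻ y : Euc n, ENNReal.ofReal (((⟪a, y⟫_ℝ - c) ^ 2 + ‖b‖ ^ 2 * ρ' ^ 2 * vm m) *
        Real.exp (-(m / ρ' * τ * Metric.infDist y K))) ≤
      (ENNReal.ofReal σ2 + ENNReal.ofReal ε') * volume K := by
    rw [← lintegral_add_compl _ h.comp.measurableSet, add_mul]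
    refine add_le_add ?_ (le_trans (lintegral_mono fun y => ENNReal.ofReal_le_ofReal ?_) hl)
    · have e1 : ∫⁻ y in K, ENNReal.ofReal (((⟪a, y⟫_ℝ - c) ^ 2 + ‖b‖ ^ 2 * ρ' ^ 2 * vm m) *
          Real.exp (-(m / ρ' * τ * Metric.infDist y K))) =
          ∫⁻ y in K, (ENNReal.ofReal ((⟪a, y⟫_ℝ - c) ^ 2) + ENNReal.ofReal (‖b‖ ^ 2 * σ2)) := by
        refine setLIntegral_congr_fun h.comp.measurableSet fun y hy => ?_
        show ENNReal.ofReal (((⟪a, y⟫_ℝ - c) ^ 2 + ‖b‖ ^ 2 * ρ' ^ 2 * vm m) *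
          Real.exp (-(m / ρ' * τ * Metric.infDist y K))) = _
        rw [Metric.infDist_zero_of_mem hy, mul_zero, neg_zero, Real.exp_zero, mul_one,
          mul_assoc (‖b‖ ^ 2), hρσ, ENNReal.ofReal_add (sq_nonneg _) (by positivity)]
      rw [e1, lint_set h, lintegral_add_right _ measurable_const, sq_int h, lintegral_const,
        measure_univ, mul_one, ← hc, sub_self, hiso]
      rw [← ENNReal.ofReal_add (by positivity) (by positivity), mul_comm]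
      refine mul_le_mul_left (ENNReal.ofReal_le_ofReal ?_) _
      have : ‖a‖ ^ 2 * σ2 + 0 ^ 2 + ‖b‖ ^ 2 * σ2 = (‖a‖ ^ 2 + ‖b‖ ^ 2) * σ2 := by ring
      rw [this, hab, one_mul]
    · refine mul_le_mul_of_nonneg_right ?_ (Real.exp_pos _).le
      have h3 := mn_dist h hR ha1 y
      rw [← hc] at h3
      have h4 : (⟪a, y⟫_ℝ - c) ^ 2 ≤ (‖y - p‖ + R) ^ 2 := by
        rw [← sq_abs]
        exact pow_le_pow_left₀ (abs_nonneg _) h3 2
      have h5 := norm_nonneg (y - p)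
      have h6 : (‖y - p‖ + R) ^ 2 ≤ (1 + R) ^ 2 * (1 + ‖y - p‖) ^ 2 := by
        rw [← mul_pow]
        refine pow_le_pow_left₀ (by positivity) ?_ 2
        nlinarith [mul_nonneg hR0 h5]
      have h7 : ‖b‖ ^ 2 * ρ' ^ 2 * vm m ≤ σ2 * (1 + ‖y - p‖) ^ 2 := by
        rw [mul_assoc, hρσ]
        have h8 : 1 ≤ (1 + ‖y - p‖) ^ 2 := one_le_pow₀ (by linarith)
        calc ‖b‖ ^ 2 * σ2 ≤ 1 * σ2 := mul_le_mul_of_nonneg_right hb1 hσ.le
          _ ≤ (1 + ‖y - p‖) ^ 2 * σ2 := mul_le_mul_of_nonneg_right h8 hσ.le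
          _ = _ := mul_comm _ _
      rw [add_mul]
      linarith
  have hvH : volume K * vB ≤ volume H := by
    rw [hvB]
    exact vol_ge S h hmem
  have h3 : ENNReal.ofReal (Vr H u) ≤ ENNReal.ofReal (σ2 + ε') := by
    refine (Vr_le hH u c).trans ?_
    rw [lint_unif hH]
    calc (volume H)⁻¹ * ∫⁻ x in H, ENNReal.ofReal ((⟪u, x⟫_ℝ - c) ^ 2)
        ≤ (volume H)⁻¹ * ((ENNReal.ofReal σ2 + ENNReal.ofReal ε') * volume K * vB) := by
          refine mul_le_mul_right (h1.trans ?_) _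
          exact mul_le_mul_left h2 _
      _ = (ENNReal.ofReal σ2 + ENNReal.ofReal ε') * ((volume H)⁻¹ * (volume K * vB)) := by ring
      _ ≤ (ENNReal.ofReal σ2 + ENNReal.ofReal ε') * 1 := by
          refine mul_le_mul_right ?_ _
          calc (volume H)⁻¹ * (volume K * vB) ≤ (volume H)⁻¹ * volume H := mul_le_mul_right hvH _
            _ = 1 := ENNReal.inv_mul_cancel hH.pos.ne' hH.lt_top.ne
      _ = ENNReal.ofReal (σ2 + ε') := by
          rw [mul_one, ENNReal.ofReal_add hσ.le hε.le]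
  exact (ENNReal.ofReal_le_ofReal_iff (by positivity)).1 h3

/-- lower bound for the variances -/
theorem var_low (hm : 1 ≤ m) (h : Body K) {σ2 : ℝ} (hσ : 0 < σ2)
    (hiso : ∀ a : Euc n, Vr K a = ‖a‖ ^ 2 * σ2) {ρ' ε' : ℝ}
    (hρ : 0 < ρ') (hρσ : ρ' ^ 2 * vm m = σ2) (hε : 0 < ε') {H : Set (Euc N)} (hH : Body H)
    (hd : Dom S K ρ' H ε') (u : Euc N) (hu : ‖u‖ = 1) : (1 + ε')⁻¹ * σ2 ≤ Vr H u := by
  have hprob := h.prob
  have hprobH := hH.prob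
  have hB := ball_body (m := m) hρ
  have hprobB := hB.prob
  obtain ⟨a, ha⟩ : ∃ a : Euc n, a = S.P u := ⟨_, rfl⟩
  obtain ⟨b, hb⟩ : ∃ b : Euc m, b = S.Q u := ⟨_, rfl⟩
  have hab : ‖a‖ ^ 2 + ‖b‖ ^ 2 = 1 := by
    rw [ha, hb, ← S.norm_eq, hu, one_pow]
  obtain ⟨c, hc⟩ : ∃ c : ℝ, c = mn H u := ⟨_, rfl⟩
  have hPQ : Measurable fun x : Euc N => (S.P x, S.Q x) := S.mp.measurable
  have hθ : 0 < (1 + ε')⁻¹ := by positivity
  have hle : ENNReal.ofReal (1 + ε')⁻¹ • ((unif K).prod (unif (Metric.closedBall (0 : Euc m) ρ'))) ≤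
      (unif H).map fun x => (S.P x, S.Q x) := by
    refine Measure.le_iff.2 fun T hT => ?_
    rw [Measure.smul_apply, smul_eq_mul, Measure.map_apply hPQ hT]
    have h1 := hd T hT
    have h2 := ENNReal.ofReal_le_ofReal h1
    rw [ENNReal.ofReal_mul hθ.le, ofReal_measureReal, ofReal_measureReal] at h2
    exact h2
  have hgm : Measurable fun q : Euc n × Euc m =>
      ENNReal.ofReal ((⟪a, q.1⟫_ℝ - c + ⟪b, q.2⟫_ℝ) ^ 2) := by
    have : Continuous fun q : Euc n × Euc m => (⟪a, q.1⟫_ℝ - c + ⟪b, q.2⟫_ℝ) ^ 2 := by fun_prop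
    exact this.measurable.ennreal_ofReal
  have h1 : ∫⁻ x, ENNReal.ofReal ((⟪u, x⟫_ℝ - c) ^ 2) ∂(unif H) =
      ∫⁻ q, ENNReal.ofReal ((⟪a, q.1⟫_ℝ - c + ⟪b, q.2⟫_ℝ) ^ 2)
        ∂((unif H).map fun x => (S.P x, S.Q x)) := by
    rw [lintegral_map hgm hPQ]
    refine lintegral_congr fun x => ?_
    rw [ha, hb, S.inner_eq u x]
    congr 2
    ring
  have h2 : ENNReal.ofReal σ2 ≤ ∫⁻ q, ENNReal.ofReal ((⟪a, q.1⟫_ℝ - c + ⟪b, q.2⟫_ℝ) ^ 2)
        ∂((unif K).prod (unif (Metric.closedBall (0 : Euc m) ρ'))) := by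
    rw [lintegral_prod _ hgm.aemeasurable]
    have e1 : ∀ y : Euc n, ∫⁻ z, ENNReal.ofReal ((⟪a, y⟫_ℝ - c + ⟪b, z⟫_ℝ) ^ 2)
        ∂(unif (Metric.closedBall (0 : Euc m) ρ')) =
        ENNReal.ofReal ((⟪a, y⟫_ℝ - c) ^ 2) + ENNReal.ofReal (‖b‖ ^ 2 * σ2) := by
      intro y
      rw [lint_unif hB, inner_eq hm b _ hρ, mul_comm (ENNReal.ofReal _), ← mul_assoc,
        ENNReal.inv_mul_cancel hB.pos.ne' hB.lt_top.ne, one_mul, mul_assoc (‖b‖ ^ 2), hρσ,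
        ENNReal.ofReal_add (sq_nonneg _) (by positivity)]
    show ENNReal.ofReal σ2 ≤ ∫⁻ y, ∫⁻ z, ENNReal.ofReal ((⟪a, y⟫_ℝ - c + ⟪b, z⟫_ℝ) ^ 2)
        ∂(unif (Metric.closedBall (0 : Euc m) ρ')) ∂(unif K)
    simp_rw [e1]
    rw [lintegral_add_right _ measurable_const, sq_int h, lintegral_const,
        measure_univ, mul_one, hiso, ← ENNReal.ofReal_add (by positivity) (by positivity)]
    refine ENNReal.ofReal_le_ofReal ?_
    have h3 : σ2 = (‖a‖ ^ 2 + ‖b‖ ^ 2) * σ2 := by rw [hab, one_mul]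
    have h4 := sq_nonneg (mn K a - c)
    nlinarith
  have h3 : ENNReal.ofReal ((1 + ε')⁻¹ * σ2) ≤ ENNReal.ofReal (Vr H u) := by
    have h4 := sq_int hH u c
    rw [← hc, sub_self] at h4
    have h5 : Vr H u + 0 ^ 2 = Vr H u := by ring
    rw [h5] at h4
    rw [← h4, h1, ENNReal.ofReal_mul hθ.le]
    calc ENNReal.ofReal (1 + ε')⁻¹ * ENNReal.ofReal σ2
        ≤ ENNReal.ofReal (1 + ε')⁻¹ * ∫⁻ q, ENNReal.ofReal ((⟪a, q.1⟫_ℝ - c + ⟪b, q.2⟫_ℝ) ^ 2)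
        ∂((unif K).prod (unif (Metric.closedBall (0 : Euc m) ρ'))) := mul_le_mul_right h2 _
      _ = ∫⁻ q, ENNReal.ofReal ((⟪a, q.1⟫_ℝ - c + ⟪b, q.2⟫_ℝ) ^ 2)
        ∂(ENNReal.ofReal (1 + ε')⁻¹ •
          ((unif K).prod (unif (Metric.closedBall (0 : Euc m) ρ')))) := by
          rw [lintegral_smul_measure, smul_eq_mul]
      _ ≤ _ := lintegral_mono' hle le_rfl
  exact (ENNReal.ofReal_le_ofReal_iff (Vr_nonneg u)).1 h3

end Pool.Agent.T2h28.NB
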